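import Pool.Agent.Lib.MP_397fae_an.Jet

/-!
Jets attached to analytic functions on the unit disc.
-/

open Set Real MeasureTheory Filter Topology Metric

namespace Pool.Agent.Lib.MP_397fae_an

/-- The point with polar parameters `x`. -/
noncomputable def pt (x : ℝ × ℝ) : ℂ := circleMap 0 x.1 x.2

lemma pt_eq (x : ℝ × ℝ) : pt x = (x.1 : ℂ) * Complex.exp (x.2 * Complex.I) := by
  simp [pt, circleMap]

lemma norm_pt (x : ℝ × ℝ) : ‖pt x‖ = |x.1| := by simp [pt]

lemma pt_mem {x : ℝ × ℝ} (hx : x ∈ Strip) : pt x ∈ ball (0:ℂ) 1 := by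
  rw [mem_ball_zero_iff, norm_pt]; exact hx

@[fun_prop] lemma continuous_pt : Continuous pt := by
  unfold pt; fun_prop

lemma pt_per (r : ℝ) : pt (r, 2 * π) = pt (r, 0) := by
  have := periodic_circleMap 0 r 0
  simpa [pt] using this

lemma pt_zero (θ : ℝ) : pt (0, θ) = 0 := by simp [pt]

lemma contOn_comp_pt {E : Type*} [TopologicalSpace E] {f : ℂ → E}
    (hf : ContinuousOn f (ball (0:ℂ) 1)) : ContinuousOn (fun x => f (pt x)) Strip :=
  hf.comp continuous_pt.continuousOn (fun _ hx => pt_mem hx)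

lemma hasDerivAt_pt_r (x : ℝ × ℝ) :
    HasDerivAt (fun r : ℝ => pt (r, x.2)) (Complex.exp (x.2 * Complex.I)) x.1 := by
  simp only [pt_eq]
  simpa using ((hasDerivAt_id' x.1).ofReal_comp).mul_const (Complex.exp (x.2 * Complex.I))

lemma hasDerivAt_pt_t (x : ℝ × ℝ) :
    HasDerivAt (fun θ : ℝ => pt (x.1, θ)) (pt x * Complex.I) x.2 :=
  hasDerivAt_circleMap 0 x.1 x.2

lemma diffOn_deriv {f : ℂ → ℂ} (hf : DifferentiableOn ℂ f (ball (0:ℂ) 1)) :
    DifferentiableOn ℂ (deriv f) (ball (0:ℂ) 1) := hf.deriv isOpen_ball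

lemma hasDerivAt_comp_r {f : ℂ → ℂ} (hf : DifferentiableOn ℂ f (ball (0:ℂ) 1))
    {x : ℝ × ℝ} (hx : x ∈ Strip) :
    HasDerivAt (fun r : ℝ => f (pt (r, x.2)))
      (deriv f (pt x) * Complex.exp (x.2 * Complex.I)) x.1 := by
  have h1 : HasDerivAt f (deriv f (pt x)) (pt (x.1, x.2)) :=
    (hf.differentiableAt (isOpen_ball.mem_nhds (pt_mem hx))).hasDerivAt
  have := h1.scomp_of_eq x.1 (h := fun r : ℝ => pt (r, x.2)) (hasDerivAt_pt_r x) rfl
  simpa [Function.comp_def, mul_comm] using this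

lemma hasDerivAt_comp_t {f : ℂ → ℂ} (hf : DifferentiableOn ℂ f (ball (0:ℂ) 1))
    {x : ℝ × ℝ} (hx : x ∈ Strip) :
    HasDerivAt (fun θ : ℝ => f (pt (x.1, θ)))
      (deriv f (pt x) * (pt x * Complex.I)) x.2 := by
  have h1 : HasDerivAt f (deriv f (pt x)) (pt (x.1, x.2)) :=
    (hf.differentiableAt (isOpen_ball.mem_nhds (pt_mem hx))).hasDerivAt
  have := h1.scomp_of_eq x.2 (h := fun θ : ℝ => pt (x.1, θ)) (hasDerivAt_pt_t x) rfl
  simpa [Function.comp_def, mul_comm] using this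

lemma hasDerivAt_re {f : ℝ → ℂ} {f' : ℂ} {x : ℝ} (h : HasDerivAt f f' x) :
    HasDerivAt (fun y => (f y).re) f'.re x :=
  Complex.reCLM.hasFDerivAt.comp_hasDerivAt x h

namespace PJet

def mul (J K : PJet) : PJet where
  q := fun x => J.q x * K.q x
  qr := fun x => J.qr x * K.q x + J.q x * K.qr x
  qrr := fun x => (J.qrr x * K.q x + J.qr x * K.qr x) + (J.qr x * K.qr x + J.q x * K.qrr x)
  qt := fun x => J.qt x * K.q x + J.q x * K.qt x
  qtt := fun x => (J.qtt x * K.q x + J.qt x * K.qt x) + (J.qt x * K.qt x + J.q x * K.qtt x)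
  c0 := J.c0.mul K.c0
  c1 := (J.c1.mul K.c0).add (J.c0.mul K.c1)
  c2 := ((J.c2.mul K.c0).add (J.c1.mul K.c1)).add ((J.c1.mul K.c1).add (J.c0.mul K.c2))
  c3 := (J.c3.mul K.c0).add (J.c0.mul K.c3)
  c4 := ((J.c4.mul K.c0).add (J.c3.mul K.c3)).add ((J.c3.mul K.c3).add (J.c0.mul K.c4))
  dr := fun x hx => (J.dr x hx).fun_mul (K.dr x hx)
  drr := fun x hx => ((J.drr x hx).fun_mul (K.dr x hx)).add ((J.dr x hx).fun_mul (K.drr x hx))
  dt := fun x hx => (J.dt x hx).fun_mul (K.dt x hx)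
  dtt := fun x hx => ((J.dtt x hx).fun_mul (K.dt x hx)).add ((J.dt x hx).fun_mul (K.dtt x hx))
  per0 := fun r => by rw [J.per0, K.per0]
  per1 := fun r => by rw [J.per0, K.per0, J.per1, K.per1]

def const (c : ℝ) : PJet where
  q := fun _ => c
  qr := fun _ => 0
  qrr := fun _ => 0
  qt := fun _ => 0
  qtt := fun _ => 0
  c0 := continuousOn_const
  c1 := continuousOn_const
  c2 := continuousOn_const
  c3 := continuousOn_const
  c4 := continuousOn_const
  dr := fun _ _ => hasDerivAt_const _ _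
  drr := fun _ _ => hasDerivAt_const _ _
  dt := fun _ _ => hasDerivAt_const _ _
  dtt := fun _ _ => hasDerivAt_const _ _
  per0 := fun _ => rfl
  per1 := fun _ => rfl

/-- The jet of `Re (c * f)` for an analytic function `f`. -/
noncomputable def re (c : ℂ) (f : ℂ → ℂ) (hf : DifferentiableOn ℂ f (ball (0:ℂ) 1)) : PJet where
  q := fun x => (c * f (pt x)).re
  qr := fun x => (c * (deriv f (pt x) * Complex.exp (x.2 * Complex.I))).re
  qrr := fun x => (c * (deriv (deriv f) (pt x) * Complex.exp (x.2 * Complex.I)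
    * Complex.exp (x.2 * Complex.I))).re
  qt := fun x => (c * (deriv f (pt x) * (pt x * Complex.I))).re
  qtt := fun x => (c * (deriv (deriv f) (pt x) * (pt x * Complex.I) * (pt x * Complex.I)
    + deriv f (pt x) * (pt x * Complex.I * Complex.I))).re
  c0 := by
    have := contOn_comp_pt hf.continuousOn
    apply Complex.continuous_re.comp_continuousOn'
    exact continuousOn_const.mul this
  c1 := by
    have := contOn_comp_pt (diffOn_deriv hf).continuousOn
    apply Complex.continuous_re.comp_continuousOn'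
    fun_prop
  c2 := by
    have := contOn_comp_pt (diffOn_deriv (diffOn_deriv hf)).continuousOn
    apply Complex.continuous_re.comp_continuousOn'
    fun_prop
  c3 := by
    have := contOn_comp_pt (diffOn_deriv hf).continuousOn
    apply Complex.continuous_re.comp_continuousOn'
    fun_prop
  c4 := by
    have := contOn_comp_pt (diffOn_deriv hf).continuousOn
    have := contOn_comp_pt (diffOn_deriv (diffOn_deriv hf)).continuousOn
    apply Complex.continuous_re.comp_continuousOn'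
    fun_prop
  dr := fun x hx => hasDerivAt_re ((hasDerivAt_comp_r hf hx).const_mul c)
  drr := fun x hx => hasDerivAt_re
    (((hasDerivAt_comp_r (diffOn_deriv hf) hx).mul_const
      (Complex.exp (x.2 * Complex.I))).const_mul c)
  dt := fun x hx => hasDerivAt_re ((hasDerivAt_comp_t hf hx).const_mul c)
  dtt := fun x hx => hasDerivAt_re
    (((hasDerivAt_comp_t (diffOn_deriv hf) hx).fun_mul
      ((hasDerivAt_pt_t x).mul_const Complex.I)).const_mul c)
  per0 := fun r => by rw [pt_per]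
  per1 := fun r => by rw [pt_per]

lemma lap_re (c : ℂ) (f : ℂ → ℂ) (hf : DifferentiableOn ℂ f (ball (0:ℂ) 1)) (x : ℝ × ℝ) :
    (re c f hf).lap x = 0 := by
  simp only [lap, re]
  rw [← Complex.re_ofReal_mul, ← Complex.re_ofReal_mul, ← Complex.add_re, ← Complex.add_re]
  have : ((x.1 ^ 2 : ℝ) : ℂ) * (c * (deriv (deriv f) (pt x) * Complex.exp (x.2 * Complex.I)
      * Complex.exp (x.2 * Complex.I))) +
      (x.1 : ℂ) * (c * (deriv f (pt x) * Complex.exp (x.2 * Complex.I))) +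
      c * (deriv (deriv f) (pt x) * (pt x * Complex.I) * (pt x * Complex.I)
        + deriv f (pt x) * (pt x * Complex.I * Complex.I)) = 0 := by
    generalize deriv (deriv f) (pt x) = d2
    generalize deriv f (pt x) = d1
    rw [pt_eq]
    push_cast
    linear_combination (c * d2 * (x.1 * Complex.exp (x.2 * Complex.I)) ^ 2
      + c * d1 * (x.1 * Complex.exp (x.2 * Complex.I))) * Complex.I_mul_I
  rw [this]; simp

lemma g1_re (c : ℂ) (f : ℂ → ℂ) (hf : DifferentiableOn ℂ f (ball (0:ℂ) 1)) (x : ℝ × ℝ) :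
    (re c f hf).g1 x = (c * (pt x * deriv f (pt x))).re := by
  simp only [g1, re]
  rw [← Complex.re_ofReal_mul]
  congr 1
  generalize deriv f (pt x) = d1
  rw [pt_eq]; ring

lemma qt_re (c : ℂ) (f : ℂ → ℂ) (hf : DifferentiableOn ℂ f (ball (0:ℂ) 1)) (x : ℝ × ℝ) :
    (re c f hf).qt x = - (c * (pt x * deriv f (pt x))).im := by
  simp only [re]
  rw [← Complex.mul_I_re]
  congr 1
  ring

lemma lap_mul (J K : PJet) (x : ℝ × ℝ) :
    (J.mul K).lap x = J.q x * K.lap x + K.q x * J.lap x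
      + 2 * (J.g1 x * K.g1 x + J.qt x * K.qt x) := by
  simp only [lap, mul, g1]; ring

lemma g1_mul (J K : PJet) (x : ℝ × ℝ) :
    (J.mul K).g1 x = J.g1 x * K.q x + J.q x * K.g1 x := by
  simp only [mul, g1]; ring

/-- The jet of `|f| ^ 2 + ε`. -/
noncomputable def sq (f : ℂ → ℂ) (hf : DifferentiableOn ℂ f (ball (0:ℂ) 1)) (ε : ℝ) : PJet :=
  (((re 1 f hf).mul (re 1 f hf)).add
    ((re (-Complex.I) f hf).mul (re (-Complex.I) f hf))).add (const ε)

lemma sq_q (f : ℂ → ℂ) (hf : DifferentiableOn ℂ f (ball (0:ℂ) 1)) (ε : ℝ) (x : ℝ × ℝ) :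
    (sq f hf ε).q x = ‖f (pt x)‖ ^ 2 + ε := by
  simp only [sq, add, mul, const, re]
  rw [Complex.sq_norm, Complex.normSq_apply]
  simp

lemma sq_g1 (f : ℂ → ℂ) (hf : DifferentiableOn ℂ f (ball (0:ℂ) 1)) (ε : ℝ) (x : ℝ × ℝ) :
    (sq f hf ε).g1 x = 2 * ((f (pt x)).re * (pt x * deriv f (pt x)).re
      + (f (pt x)).im * (pt x * deriv f (pt x)).im) := by
  simp only [sq, g1_add, g1_mul, g1_re]
  generalize pt x * deriv f (pt x) = P
  simp [g1, const, re]
  ring

lemma sq_qt (f : ℂ → ℂ) (hf : DifferentiableOn ℂ f (ball (0:ℂ) 1)) (ε : ℝ) (x : ℝ × ℝ) :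
    (sq f hf ε).qt x = 2 * ((f (pt x)).im * (pt x * deriv f (pt x)).re
      - (f (pt x)).re * (pt x * deriv f (pt x)).im) := by
  have h1 := qt_re 1 f hf x
  have h2 := qt_re (-Complex.I) f hf x
  simp only [sq, add, mul, const, h1, h2]
  generalize pt x * deriv f (pt x) = P
  simp [re]
  ring

lemma sq_lap (f : ℂ → ℂ) (hf : DifferentiableOn ℂ f (ball (0:ℂ) 1)) (ε : ℝ) (x : ℝ × ℝ) :
    (sq f hf ε).lap x = 4 * ‖pt x * deriv f (pt x)‖ ^ 2 := by
  simp only [sq, lap_add, lap_mul, lap_re, g1_re, qt_re]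
  generalize pt x * deriv f (pt x) = P
  rw [Complex.sq_norm, Complex.normSq_apply]
  simp [lap, const]
  ring

lemma sq_grad (f : ℂ → ℂ) (hf : DifferentiableOn ℂ f (ball (0:ℂ) 1)) (ε : ℝ) (x : ℝ × ℝ) :
    (sq f hf ε).g1 x ^ 2 + (sq f hf ε).qt x ^ 2 =
      4 * ‖f (pt x)‖ ^ 2 * ‖pt x * deriv f (pt x)‖ ^ 2 := by
  rw [sq_g1, sq_qt, Complex.sq_norm, Complex.normSq_apply, Complex.sq_norm, Complex.normSq_apply]
  ring

lemma re_grad (f : ℂ → ℂ) (hf : DifferentiableOn ℂ f (ball (0:ℂ) 1)) (x : ℝ × ℝ) :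
    (re 1 f hf).g1 x ^ 2 + (re 1 f hf).qt x ^ 2 = ‖pt x * deriv f (pt x)‖ ^ 2 := by
  rw [g1_re, qt_re, Complex.sq_norm, Complex.normSq_apply]
  simp only [one_mul]
  ring

end PJet

end Pool.Agent.Lib.MP_397fae_an
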