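import Pool.Agent.Lib.MP_397fae_an.Analytic

/-!
Explicit subharmonic (Bellman type) functions giving a bilinear Littlewood-Paley embedding.
-/

open Set Real MeasureTheory Filter Topology Metric

namespace Pool.Agent.Lib.MP_397fae_an

lemma two_mul_le_of_mul_eq_sq {x y m : ℝ} (hx : 0 ≤ x) (hy : 0 ≤ y) (h : x * y = m ^ 2) :
    2 * m ≤ x + y := by
  apply le_trans (le_abs_self _)
  apply abs_le_of_sq_le_sq _ (by positivity)
  nlinarith [sq_nonneg (x - y)]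

lemma algA {U T W V X Y Z l a1 a2 b1 b2 m a κ β K t c : ℝ}
    (hU : 0 ≤ U) (hT : 0 ≤ T) (hW : 0 ≤ W) (hX : 0 ≤ X) (hY : 0 ≤ Y)
    (hl : 0 ≤ l) (hG : l + (a1 ^ 2 + a2 ^ 2) = 4 * X) (hb : b1 ^ 2 + b2 ^ 2 = 4 * Y)
    (hWV : W * Y ≤ V * Z) (hTU : T ≤ U ∨ T ≤ W) (hm : T * X * (W * Y) = m ^ 2)
    (ha : 0 < a) (hβ0 : 0 ≤ β) (hβ : β ≤ 1 / 2) (hK : K * (t ^ 2 - t) = t ^ 2 + 2)
    (hc0 : 0 < c) (hc1 : c ≤ 1) (hc2 : c ≤ 4 * κ) (hc3 : c ≤ 4 * κ ^ 2) (hc4 : c ≤ 4 * a)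
    (hc5 : c ≤ 2 * a ^ 2) :
    2 * c * m ≤ U * (κ * l + ((κ * a1) ^ 2 + (κ * a2) ^ 2))
      + T * (a * l + ((a * a1 + β * b1) ^ 2 + (a * a2 + β * b2) ^ 2))
      + K * (V * (t ^ 2 - t) * Z) - W * (t ^ 2 * Y) := by
  have hG0 : 0 ≤ a1 ^ 2 + a2 ^ 2 := by positivity
  have h1 : c * X ≤ κ * l + ((κ * a1) ^ 2 + (κ * a2) ^ 2) := by
    have e : c * X = (c * l + c * (a1 ^ 2 + a2 ^ 2)) / 4 := by rw [← mul_add, hG]; ring
    linarith [mul_le_mul_of_nonneg_right hc2 hl, mul_le_mul_of_nonneg_right hc3 hG0]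
  have h2 : 0 ≤ a * l + ((a * a1 + β * b1) ^ 2 + (a * a2 + β * b2) ^ 2) := by positivity
  have h3 : c * X - Y ≤ a * l + ((a * a1 + β * b1) ^ 2 + (a * a2 + β * b2) ^ 2) := by
    have e1 : a ^ 2 * a1 ^ 2 / 2 - β ^ 2 * b1 ^ 2 ≤ (a * a1 + β * b1) ^ 2 := by
      linarith [sq_nonneg (a * a1 + 2 * β * b1)]
    have e2 : a ^ 2 * a2 ^ 2 / 2 - β ^ 2 * b2 ^ 2 ≤ (a * a2 + β * b2) ^ 2 := by
      linarith [sq_nonneg (a * a2 + 2 * β * b2)]
    have e3 : β ^ 2 * (b1 ^ 2 + b2 ^ 2) ≤ Y := by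
      rw [hb]
      have : β ^ 2 ≤ 1 / 4 := by nlinarith
      linarith [mul_le_mul_of_nonneg_right this hY]
    have e : c * X = (c * l + c * (a1 ^ 2 + a2 ^ 2)) / 4 := by rw [← mul_add, hG]; ring
    linarith [mul_le_mul_of_nonneg_right hc4 hl, mul_le_mul_of_nonneg_right hc5 hG0]
  have hWY : 0 ≤ W * Y := by positivity
  have h4 : 2 * (W * Y) ≤ K * (V * (t ^ 2 - t) * Z) - W * (t ^ 2 * Y) := by
    have : K * (V * (t ^ 2 - t) * Z) = (t ^ 2 + 2) * (V * Z) := by rw [← hK]; ring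
    rw [this]
    linarith [mul_le_mul_of_nonneg_left hWV (by positivity : 0 ≤ t ^ 2 + 2)]
  have h5 : 2 * m ≤ T * X + W * Y := two_mul_le_of_mul_eq_sq (by positivity) hWY hm
  have h6 : 2 * c * m ≤ c * (T * X) + W * Y := by
    linarith [mul_le_mul_of_nonneg_left h5 hc0.le, mul_le_mul_of_nonneg_right hc1 hWY]
  have h7 := mul_le_mul_of_nonneg_left h1 hU
  rcases hTU with h | h
  · have h8 := mul_le_mul_of_nonneg_right h (by positivity : 0 ≤ c * X)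
    have h9 := mul_nonneg hT h2
    linarith
  · have h8 := mul_le_mul_of_nonneg_left h3 hT
    have h9 := mul_le_mul_of_nonneg_right h hY
    have h10 : 0 ≤ U * (c * X) := by positivity
    linarith

lemma algB {U T V X Z l a1 a2 z1 z2 m a κ μ δ t c : ℝ}
    (hU : 0 ≤ U) (hT : 0 ≤ T) (hV : 0 ≤ V) (hX : 0 ≤ X)
    (hl : 0 ≤ l) (hG : l + (a1 ^ 2 + a2 ^ 2) = 4 * X) (hz : z1 ^ 2 + z2 ^ 2 = Z)
    (hTU : T ≤ U ∨ T ≤ V) (hm : U * X * (T * Z) = m ^ 2)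
    (hμ0 : 0 ≤ μ) (hμ : μ ≤ a / 2) (ht : 2 ≤ t)
    (hδ0 : 0 < δ) (hδ1 : δ ≤ 1 / 2) (hδ2 : δ * (1 + 3 * a ^ 2) ≤ c)
    (hc2 : c ≤ 4 * κ) (hc3 : c ≤ 4 * κ ^ 2) :
    2 * δ * m ≤ U * (κ * l + ((κ * a1) ^ 2 + (κ * a2) ^ 2))
      + V * (t ^ 2 - t) * Z
      + δ * (T * ((μ * l - 2 * Z) + ((μ * a1 + 2 * z1) ^ 2 + (μ * a2 + 2 * z2) ^ 2))) := by
  have hG0 : 0 ≤ a1 ^ 2 + a2 ^ 2 := by positivity
  have hZ : 0 ≤ Z := by rw [← hz]; positivity
  have h1 : c * X ≤ κ * l + ((κ * a1) ^ 2 + (κ * a2) ^ 2) := by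
    have e : c * X = (c * l + c * (a1 ^ 2 + a2 ^ 2)) / 4 := by rw [← mul_add, hG]; ring
    linarith [mul_le_mul_of_nonneg_right hc2 hl, mul_le_mul_of_nonneg_right hc3 hG0]
  have h2 : - (2 * Z) ≤ (μ * l - 2 * Z) + ((μ * a1 + 2 * z1) ^ 2 + (μ * a2 + 2 * z2) ^ 2) := by
    have : 0 ≤ μ * l := by positivity
    linarith [sq_nonneg (μ * a1 + 2 * z1), sq_nonneg (μ * a2 + 2 * z2)]
  have h3 : Z - 3 * a ^ 2 * X ≤
      (μ * l - 2 * Z) + ((μ * a1 + 2 * z1) ^ 2 + (μ * a2 + 2 * z2) ^ 2) := by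
    have e0 : 0 ≤ μ * l := by positivity
    have e1 : 3 * z1 ^ 2 - 3 * μ ^ 2 * a1 ^ 2 ≤ (μ * a1 + 2 * z1) ^ 2 := by
      linarith [sq_nonneg (2 * μ * a1 + z1)]
    have e2 : 3 * z2 ^ 2 - 3 * μ ^ 2 * a2 ^ 2 ≤ (μ * a2 + 2 * z2) ^ 2 := by
      linarith [sq_nonneg (2 * μ * a2 + z2)]
    have e3 : μ ^ 2 * (a1 ^ 2 + a2 ^ 2) ≤ a ^ 2 * X := by
      have f1 : μ ^ 2 ≤ a ^ 2 / 4 := by nlinarith
      have f2 : a1 ^ 2 + a2 ^ 2 ≤ 4 * X := by linarith
      calc μ ^ 2 * (a1 ^ 2 + a2 ^ 2) ≤ (a ^ 2 / 4) * (4 * X) :=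
            mul_le_mul f1 f2 hG0 (by positivity)
        _ = a ^ 2 * X := by ring
    linarith
  have hUX : 0 ≤ U * X := by positivity
  have hTZ : 0 ≤ T * Z := by positivity
  have hVZ : 0 ≤ V * Z := by positivity
  have h5 : 2 * m ≤ U * X + T * Z := two_mul_le_of_mul_eq_sq hUX hTZ hm
  have h6 : 2 * δ * m ≤ δ * (U * X) + δ * (T * Z) := by
    linarith [mul_le_mul_of_nonneg_left h5 hδ0.le]
  have h7 := mul_le_mul_of_nonneg_left h1 hU
  have h8 : 2 * (V * Z) ≤ V * (t ^ 2 - t) * Z := by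
    have : 2 ≤ t ^ 2 - t := by nlinarith
    linarith [mul_le_mul_of_nonneg_right this hVZ]
  have h9 := mul_le_mul_of_nonneg_right hδ2 hUX
  have h10 : 0 ≤ δ * a ^ 2 * (U * X) := by positivity
  rcases hTU with h | h
  · have h11 := mul_le_mul_of_nonneg_left (mul_le_mul_of_nonneg_left h3 hT) hδ0.le
    have h12 := mul_le_mul_of_nonneg_right h (by positivity : 0 ≤ δ * a ^ 2 * X)
    linarith
  · have h11 := mul_le_mul_of_nonneg_left (mul_le_mul_of_nonneg_left h2 hT) hδ0.le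
    have h12 := mul_le_mul_of_nonneg_right h hZ
    have h13 := mul_le_mul_of_nonneg_right hδ1 hTZ
    linarith

lemma exp_le_or {x y w : ℝ} (hw0 : 0 ≤ w) (hw1 : w ≤ 1) :
    exp (w * x + (1 - w) * y) ≤ exp x ∨ exp (w * x + (1 - w) * y) ≤ exp y := by
  rcases le_total x y with h | h
  · right; apply exp_le_exp.2; nlinarith
  · left; apply exp_le_exp.2; nlinarith

open PJet hiding exp

section logs

variable {F g : ℂ → ℂ} (hF : DifferentiableOn ℂ F (ball (0:ℂ) 1))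
  (hg : DifferentiableOn ℂ g (ball (0:ℂ) 1)) (hpos : ∀ z ∈ ball (0:ℂ) 1, 0 < (g z).re)
  {ε : ℝ} (hε : 0 < ε)

/-- jet of `log (|F| ^ 2 + ε)`. -/
noncomputable def LF : PJet := (PJet.sq F hF ε).log (fun x _ => by
  rw [sq_q]; positivity)

/-- jet of `log (|g| ^ 2)`. -/
noncomputable def LG : PJet := (PJet.sq g hg 0).log (fun x hx => by
  rw [sq_q, add_zero]
  have h1 := hpos _ (pt_mem hx)
  have h2 : g (pt x) ≠ 0 := fun h => by simp [h] at h1
  positivity)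

/-- jet of `log (Re g)`. -/
noncomputable def LP : PJet := (PJet.re 1 g hg).log (fun x hx => by
  have h1 := hpos _ (pt_mem hx)
  simpa [PJet.re] using h1.ne')

lemma LF_q (x : ℝ × ℝ) : (LF hF hε).q x = Real.log (‖F (pt x)‖ ^ 2 + ε) := by
  simp only [LF, PJet.log, sq_q]

lemma LG_q (x : ℝ × ℝ) : (LG hg hpos).q x = Real.log (‖g (pt x)‖ ^ 2) := by
  simp only [LG, PJet.log, sq_q, add_zero]

lemma LP_q (x : ℝ × ℝ) : (LP hg hpos).q x = Real.log (g (pt x)).re := by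
  simp only [LP, PJet.log, PJet.re, one_mul]

lemma log_grad (J : PJet) (h : ∀ x ∈ Strip, J.q x ≠ 0) (x : ℝ × ℝ) :
    (J.log h).g1 x ^ 2 + (J.log h).qt x ^ 2 = (J.g1 x ^ 2 + J.qt x ^ 2) / J.q x ^ 2 := by
  rw [g1_log]
  simp only [PJet.log]
  rw [div_pow, div_pow, add_div]

lemma LF_lap_nonneg (x : ℝ × ℝ) (hx : x ∈ Strip) : 0 ≤ (LF hF hε).lap x := by
  rw [LF, lap_log _ _ _ hx, sq_grad, sq_lap, sq_q]
  have : 4 * ‖pt x * deriv F (pt x)‖ ^ 2 / (‖F (pt x)‖ ^ 2 + ε) -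
      4 * ‖F (pt x)‖ ^ 2 * ‖pt x * deriv F (pt x)‖ ^ 2 / (‖F (pt x)‖ ^ 2 + ε) ^ 2
      = 4 * ε * ‖pt x * deriv F (pt x)‖ ^ 2 / (‖F (pt x)‖ ^ 2 + ε) ^ 2 := by
    field_simp
    ring
  rw [this]; positivity

lemma LF_sum (x : ℝ × ℝ) (hx : x ∈ Strip) :
    (LF hF hε).lap x + ((LF hF hε).g1 x ^ 2 + (LF hF hε).qt x ^ 2) =
      4 * (‖pt x * deriv F (pt x)‖ ^ 2 / (‖F (pt x)‖ ^ 2 + ε)) := by
  rw [LF, lap_log _ _ _ hx, log_grad, sq_lap, sq_q]
  ring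

lemma LG_lap (x : ℝ × ℝ) (hx : x ∈ Strip) : (LG hg hpos).lap x = 0 := by
  have h1 := hpos _ (pt_mem hx)
  have h2 : g (pt x) ≠ 0 := fun h => by simp [h] at h1
  have h3 : ‖g (pt x)‖ ≠ 0 := norm_ne_zero_iff.2 h2
  rw [LG, lap_log _ _ _ hx, sq_grad, sq_lap, sq_q]
  field_simp
  ring

lemma LG_grad (x : ℝ × ℝ) (hx : x ∈ Strip) :
    (LG hg hpos).g1 x ^ 2 + (LG hg hpos).qt x ^ 2 =
      4 * (‖pt x * deriv g (pt x)‖ ^ 2 / ‖g (pt x)‖ ^ 2) := by
  have h1 := hpos _ (pt_mem hx)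
  have h2 : g (pt x) ≠ 0 := fun h => by simp [h] at h1
  have h3 : ‖g (pt x)‖ ≠ 0 := norm_ne_zero_iff.2 h2
  rw [LG, log_grad, sq_grad, sq_q]
  field_simp
  ring

lemma LP_grad (x : ℝ × ℝ) :
    (LP hg hpos).g1 x ^ 2 + (LP hg hpos).qt x ^ 2 =
      ‖pt x * deriv g (pt x)‖ ^ 2 / (g (pt x)).re ^ 2 := by
  rw [LP, log_grad, re_grad]
  simp [PJet.re]

lemma LP_lap (x : ℝ × ℝ) (hx : x ∈ Strip) :
    (LP hg hpos).lap x = - (‖pt x * deriv g (pt x)‖ ^ 2 / (g (pt x)).re ^ 2) := by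
  rw [LP, lap_log _ _ _ hx, re_grad, lap_re]
  simp [PJet.re]

end logs

lemma qt_add (J K : PJet) (x : ℝ × ℝ) : (J.add K).qt x = J.qt x + K.qt x := rfl
lemma qt_smul (c : ℝ) (J : PJet) (x : ℝ × ℝ) : (J.smul c).qt x = c * J.qt x := rfl
lemma q_add (J K : PJet) (x : ℝ × ℝ) : (J.add K).q x = J.q x + K.q x := rfl
lemma q_smul (c : ℝ) (J : PJet) (x : ℝ × ℝ) : (J.smul c).q x = c * J.q x := rfl
lemma q_exp (J : PJet) (x : ℝ × ℝ) : J.exp.q x = Real.exp (J.q x) := rfl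

/-- The property of a Bellman jet. -/
def IsBellman (a s t c C : ℝ) (F g : ℂ → ℂ) (ε : ℝ) (Q : PJet) : Prop :=
  (∀ x ∈ Strip, c * ((‖F (pt x)‖ ^ 2 + ε) ^ ((a - 1) / 2) * ‖pt x * deriv F (pt x)‖
      * ‖pt x * deriv g (pt x)‖) ≤ Q.lap x) ∧
  (∀ x ∈ Strip, Q.q x ≤ C * ((‖F (pt x)‖ ^ 2 + ε) ^ (a * s / 2) + (g (pt x)).re ^ t)) ∧
  (∀ θ, 0 ≤ Q.q (0, θ))

theorem bellmanA {a s t : ℝ} (ha : 0 < a) (hs : 2 ≤ s) (hst : t = s / (s - 1)) :
    ∃ c > 0, ∃ C > 0, ∀ (F g : ℂ → ℂ) (ε : ℝ), DifferentiableOn ℂ F (ball (0:ℂ) 1) →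
      DifferentiableOn ℂ g (ball (0:ℂ) 1) → (∀ z ∈ ball (0:ℂ) 1, 0 < (g z).re) →
      (g 0).im = 0 → 0 < ε → ∃ Q : PJet, IsBellman a s t c C F g ε Q := by
  have hs1 : 0 < s - 1 := by linarith
  have ht1 : 1 < t := by rw [hst, one_lt_div hs1]; linarith
  have ht2 : t ≤ 2 := by rw [hst, div_le_iff₀ hs1]; linarith
  have htt : 0 < t ^ 2 - t := by nlinarith
  set κ := a * s / 2 with hκ
  have hκ0 : 0 < κ := by positivity
  set K := (t ^ 2 + 2) / (t ^ 2 - t) with hKdef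
  have hK : K * (t ^ 2 - t) = t ^ 2 + 2 := by rw [hKdef, div_mul_cancel₀ _ htt.ne']
  have hK1 : 1 ≤ K := by rw [hKdef, one_le_div htt]; linarith
  set c := min 1 (min (min (4 * κ) (4 * κ ^ 2)) (min (4 * a) (2 * a ^ 2))) with hc
  have hc0 : 0 < c := by positivity
  refine ⟨2 * c, by positivity, 2 + K, by positivity, ?_⟩
  intro F g ε hF hg hpos hg0 hε
  set β := 1 - t / 2 with hβ
  refine ⟨(((((LF hF hε).smul κ).exp).add
      ((((LF hF hε).smul a).add ((LG hg hpos).smul β)).exp)).add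
      ((((LP hg hpos).smul t).exp).smul K)).add
      ((((LG hg hpos).smul (t / 2)).exp).smul (-1)), ?_, ?_, ?_⟩
  all_goals
    have hTU : ∀ x : ℝ × ℝ, exp (a * (LF hF hε).q x + β * (LG hg hpos).q x) ≤
        exp (κ * (LF hF hε).q x) ∨ exp (a * (LF hF hε).q x + β * (LG hg hpos).q x) ≤
        exp (t / 2 * (LG hg hpos).q x) := by
      intro x
      have := exp_le_or (x := κ * (LF hF hε).q x) (y := t / 2 * (LG hg hpos).q x) (w := 2 / s)
        (by positivity) (by rw [div_le_one (by linarith)]; exact hs)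
      have e : 2 / s * (κ * (LF hF hε).q x) + (1 - 2 / s) * (t / 2 * (LG hg hpos).q x) =
          a * (LF hF hε).q x + β * (LG hg hpos).q x := by
        rw [hβ, hκ, hst]; field_simp; ring
      rwa [e] at this
  · intro x hx
    have hA : 0 < ‖F (pt x)‖ ^ 2 + ε := by positivity
    have h1 := hpos _ (pt_mem hx)
    have h2 : g (pt x) ≠ 0 := fun h => by simp [h] at h1
    have h3 : 0 < ‖g (pt x)‖ := norm_pos_iff.2 h2
    have h4 : (g (pt x)).re ≤ ‖g (pt x)‖ := Complex.re_le_norm _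
    have key := algA (U := exp (κ * (LF hF hε).q x))
      (T := exp (a * (LF hF hε).q x + β * (LG hg hpos).q x))
      (W := exp (t / 2 * (LG hg hpos).q x)) (V := exp (t * (LP hg hpos).q x))
      (Z := ‖pt x * deriv g (pt x)‖ ^ 2 / (g (pt x)).re ^ 2)
      (m := (‖F (pt x)‖ ^ 2 + ε) ^ ((a - 1) / 2) * ‖pt x * deriv F (pt x)‖
        * ‖pt x * deriv g (pt x)‖) (κ := κ) (β := β) (K := K) (t := t) (c := c)
      (exp_pos _).le (exp_pos _).le (exp_pos _).le (by positivity) (by positivity)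
      (LF_lap_nonneg hF hε x hx) (LF_sum hF hε x hx) (LG_grad hg hpos x hx) ?_ (hTU x) ?_ ha
      (by rw [hβ]; linarith) (by rw [hβ]; linarith) hK hc0 (min_le_left _ _)
      ((min_le_right _ _).trans ((min_le_left _ _).trans (min_le_left _ _)))
      ((min_le_right _ _).trans ((min_le_left _ _).trans (min_le_right _ _)))
      ((min_le_right _ _).trans ((min_le_right _ _).trans (min_le_left _ _)))
      ((min_le_right _ _).trans ((min_le_right _ _).trans (min_le_right _ _)))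
    · refine key.trans (le_of_eq ?_)
      simp only [lap_add, lap_smul, lap_exp, g1_add, g1_smul, qt_add, qt_smul, q_add, q_smul,
        LG_lap hg hpos x hx, LP_lap hg hpos x hx]
      have e1 := LG_grad hg hpos x hx
      have e2 := LP_grad hg hpos x
      linear_combination (- K * exp (t * (LP hg hpos).q x) * t ^ 2) * e2
        + (exp (t / 2 * (LG hg hpos).q x) * t ^ 2 / 4) * e1
    · rw [LG_q, LP_q]
      have e1 : exp (t / 2 * Real.log (‖g (pt x)‖ ^ 2)) / ‖g (pt x)‖ ^ 2 =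
          ‖g (pt x)‖ ^ (t - 2) := by
        rw [Real.log_pow, Real.rpow_sub h3, Real.rpow_def_of_pos h3, Real.rpow_two]
        congr 2
        push_cast; ring
      have e2 : exp (t * Real.log (g (pt x)).re) / (g (pt x)).re ^ 2 =
          (g (pt x)).re ^ (t - 2) := by
        rw [Real.rpow_sub h1, Real.rpow_def_of_pos h1, Real.rpow_two, mul_comm]
      have e3 : ‖g (pt x)‖ ^ (t - 2) ≤ (g (pt x)).re ^ (t - 2) :=
        Real.rpow_le_rpow_of_nonpos h1 h4 (by linarith)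
      rw [mul_div_left_comm, mul_div_left_comm (exp _), e1, e2]
      exact mul_le_mul_of_nonneg_left e3 (by positivity)
    · rw [LG_q, LF_q]
      have e1 : exp (a * Real.log (‖F (pt x)‖ ^ 2 + ε) + β * Real.log (‖g (pt x)‖ ^ 2)) *
          exp (t / 2 * Real.log (‖g (pt x)‖ ^ 2)) =
          ((‖F (pt x)‖ ^ 2 + ε) ^ ((a - 1) / 2)) ^ 2 * (‖F (pt x)‖ ^ 2 + ε) * ‖g (pt x)‖ ^ 2 := by
        rw [Real.rpow_def_of_pos hA, ← Real.exp_nat_mul, ← exp_add]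
        conv_rhs => rw [← exp_log hA, ← exp_log (by positivity : 0 < ‖g (pt x)‖ ^ 2), ← exp_add,
          ← exp_add, log_exp]
        congr 1
        rw [hβ]; push_cast; ring
      have e2 : exp (a * Real.log (‖F (pt x)‖ ^ 2 + ε) + β * Real.log (‖g (pt x)‖ ^ 2)) *
          (‖pt x * deriv F (pt x)‖ ^ 2 / (‖F (pt x)‖ ^ 2 + ε)) *
          (exp (t / 2 * Real.log (‖g (pt x)‖ ^ 2)) *
            (‖pt x * deriv g (pt x)‖ ^ 2 / ‖g (pt x)‖ ^ 2)) =
          (exp (a * Real.log (‖F (pt x)‖ ^ 2 + ε) + β * Real.log (‖g (pt x)‖ ^ 2)) *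
          exp (t / 2 * Real.log (‖g (pt x)‖ ^ 2))) *
          (‖pt x * deriv F (pt x)‖ ^ 2 / (‖F (pt x)‖ ^ 2 + ε)) *
            (‖pt x * deriv g (pt x)‖ ^ 2 / ‖g (pt x)‖ ^ 2) := by ring
      rw [e2, e1]
      field_simp
  · intro x hx
    have hA : 0 < ‖F (pt x)‖ ^ 2 + ε := by positivity
    have h1 := hpos _ (pt_mem hx)
    simp only [q_add, q_smul, q_exp]
    have e1 : exp (κ * (LF hF hε).q x) = (‖F (pt x)‖ ^ 2 + ε) ^ (a * s / 2) := by
      rw [LF_q, Real.rpow_def_of_pos hA, mul_comm]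
    have e2 : exp (t * (LP hg hpos).q x) = (g (pt x)).re ^ t := by
      rw [LP_q, Real.rpow_def_of_pos h1, mul_comm]
    rw [← e1, ← e2]
    have p1 := exp_pos (κ * (LF hF hε).q x)
    have p2 := exp_pos (t * (LP hg hpos).q x)
    have p3 := exp_pos (t / 2 * (LG hg hpos).q x)
    rcases hTU x with h | h <;> nlinarith
  · intro θ
    simp only [q_add, q_smul, q_exp]
    have h1 := hpos 0 (by simp)
    have e1 : exp (t / 2 * (LG hg hpos).q (0, θ)) = exp (t * (LP hg hpos).q (0, θ)) := by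
      rw [LG_q, LP_q, pt_zero, Real.log_pow]
      have : ‖g 0‖ = (g 0).re := by
        rw [← Complex.abs_re_eq_norm.2 hg0, abs_of_pos h1]
      rw [this]
      congr 1
      push_cast; ring
    rw [e1]
    have p1 := exp_pos (κ * (LF hF hε).q (0, θ))
    have p2 := exp_pos (t * (LP hg hpos).q (0, θ))
    have p3 := exp_pos (a * (LF hF hε).q (0, θ) + β * (LG hg hpos).q (0, θ))
    nlinarith

theorem bellmanB {a s t : ℝ} (ha : 0 < a) (hs1 : 1 < s) (hs : s ≤ 2) (hst : t = s / (s - 1)) :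
    ∃ c > 0, ∃ C > 0, ∀ (F g : ℂ → ℂ) (ε : ℝ), DifferentiableOn ℂ F (ball (0:ℂ) 1) →
      DifferentiableOn ℂ g (ball (0:ℂ) 1) → (∀ z ∈ ball (0:ℂ) 1, 0 < (g z).re) →
      (g 0).im = 0 → 0 < ε → ∃ Q : PJet, IsBellman a s t c C F g ε Q := by
  have hs0 : 0 < s - 1 := by linarith
  have ht2 : 2 ≤ t := by rw [hst, le_div_iff₀ hs0]; linarith
  set κ := a * s / 2 with hκ
  have hκ0 : 0 < κ := by positivity
  set c := min (4 * κ) (4 * κ ^ 2) with hc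
  have hc0 : 0 < c := by positivity
  set δ := min (1 / 2) (c / (1 + 3 * a ^ 2)) with hδ
  have hδ0 : 0 < δ := by positivity
  have hδ1 : δ ≤ 1 / 2 := min_le_left _ _
  have hδ2 : δ * (1 + 3 * a ^ 2) ≤ c := by
    rw [← le_div_iff₀ (by positivity)]; exact min_le_right _ _
  refine ⟨2 * δ, by positivity, 2, by positivity, ?_⟩
  intro F g ε hF hg hpos hg0 hε
  set μ := a * (2 - s) / 2 with hμ
  refine ⟨((((LF hF hε).smul κ).exp).add (((LP hg hpos).smul t).exp)).add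
      (((((LF hF hε).smul μ).add ((LP hg hpos).smul 2)).exp).smul δ), ?_, ?_, ?_⟩
  all_goals
    have hTU : ∀ x : ℝ × ℝ, exp (μ * (LF hF hε).q x + 2 * (LP hg hpos).q x) ≤
        exp (κ * (LF hF hε).q x) ∨ exp (μ * (LF hF hε).q x + 2 * (LP hg hpos).q x) ≤
        exp (t * (LP hg hpos).q x) := by
      intro x
      have := exp_le_or (x := κ * (LF hF hε).q x) (y := t * (LP hg hpos).q x) (w := (2 - s) / s)
        (div_nonneg (by linarith) (by linarith)) (by rw [div_le_one (by linarith)]; linarith)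
      have e : (2 - s) / s * (κ * (LF hF hε).q x) + (1 - (2 - s) / s) * (t * (LP hg hpos).q x) =
          μ * (LF hF hε).q x + 2 * (LP hg hpos).q x := by
        rw [hμ, hκ, hst]; field_simp; ring
      rwa [e] at this
  · intro x hx
    have hA : 0 < ‖F (pt x)‖ ^ 2 + ε := by positivity
    have h1 := hpos _ (pt_mem hx)
    have key := algB (U := exp (κ * (LF hF hε).q x))
      (T := exp (μ * (LF hF hε).q x + 2 * (LP hg hpos).q x))
      (V := exp (t * (LP hg hpos).q x))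
      (m := (‖F (pt x)‖ ^ 2 + ε) ^ ((a - 1) / 2) * ‖pt x * deriv F (pt x)‖
        * ‖pt x * deriv g (pt x)‖) (κ := κ) (μ := μ) (δ := δ) (t := t) (c := c) (a := a)
      (exp_pos _).le (exp_pos _).le (exp_pos _).le (by positivity)
      (LF_lap_nonneg hF hε x hx) (LF_sum hF hε x hx) (LP_grad hg hpos x) (hTU x) ?_
      (by rw [hμ]; have : 0 ≤ 2 - s := by linarith
          positivity)
      (by rw [hμ]; nlinarith) ht2 hδ0 hδ1 hδ2 (min_le_left _ _) (min_le_right _ _)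
    · refine key.trans (le_of_eq ?_)
      simp only [lap_add, lap_smul, lap_exp, g1_add, g1_smul, qt_add, qt_smul, q_add, q_smul,
        LP_lap hg hpos x hx]
      have e2 := LP_grad hg hpos x
      linear_combination (- exp (t * (LP hg hpos).q x) * t ^ 2) * e2
    · rw [LP_q, LF_q]
      have e1 : exp (κ * Real.log (‖F (pt x)‖ ^ 2 + ε)) *
          exp (μ * Real.log (‖F (pt x)‖ ^ 2 + ε) + 2 * Real.log (g (pt x)).re) =
          ((‖F (pt x)‖ ^ 2 + ε) ^ ((a - 1) / 2)) ^ 2 * (‖F (pt x)‖ ^ 2 + ε)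
            * (g (pt x)).re ^ 2 := by
        rw [Real.rpow_def_of_pos hA, ← Real.exp_nat_mul, ← exp_add]
        conv_rhs => rw [← exp_log hA, ← exp_log (by positivity : 0 < (g (pt x)).re ^ 2),
          ← exp_add, ← exp_add, log_exp, Real.log_pow]
        congr 1
        rw [hμ, hκ]; push_cast; ring
      have e2 : exp (κ * Real.log (‖F (pt x)‖ ^ 2 + ε)) *
          (‖pt x * deriv F (pt x)‖ ^ 2 / (‖F (pt x)‖ ^ 2 + ε)) *
          (exp (μ * Real.log (‖F (pt x)‖ ^ 2 + ε) + 2 * Real.log (g (pt x)).re) *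
            (‖pt x * deriv g (pt x)‖ ^ 2 / (g (pt x)).re ^ 2)) =
          (exp (κ * Real.log (‖F (pt x)‖ ^ 2 + ε)) *
          exp (μ * Real.log (‖F (pt x)‖ ^ 2 + ε) + 2 * Real.log (g (pt x)).re)) *
          (‖pt x * deriv F (pt x)‖ ^ 2 / (‖F (pt x)‖ ^ 2 + ε)) *
            (‖pt x * deriv g (pt x)‖ ^ 2 / (g (pt x)).re ^ 2) := by ring
      rw [e2, e1]
      field_simp
  · intro x hx
    have hA : 0 < ‖F (pt x)‖ ^ 2 + ε := by positivity
    have h1 := hpos _ (pt_mem hx)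
    simp only [q_add, q_smul, q_exp]
    have e1 : exp (κ * (LF hF hε).q x) = (‖F (pt x)‖ ^ 2 + ε) ^ (a * s / 2) := by
      rw [LF_q, Real.rpow_def_of_pos hA, mul_comm]
    have e2 : exp (t * (LP hg hpos).q x) = (g (pt x)).re ^ t := by
      rw [LP_q, Real.rpow_def_of_pos h1, mul_comm]
    rw [← e1, ← e2]
    have p1 := exp_pos (κ * (LF hF hε).q x)
    have p2 := exp_pos (t * (LP hg hpos).q x)
    have p3 := exp_pos (μ * (LF hF hε).q x + 2 * (LP hg hpos).q x)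
    rcases hTU x with h | h <;> nlinarith
  · intro θ
    simp only [q_add, q_smul, q_exp]
    positivity

theorem bellman {a s t : ℝ} (ha : 0 < a) (hs1 : 1 < s) (hst : t = s / (s - 1)) :
    ∃ c > 0, ∃ C > 0, ∀ (F g : ℂ → ℂ) (ε : ℝ), DifferentiableOn ℂ F (ball (0:ℂ) 1) →
      DifferentiableOn ℂ g (ball (0:ℂ) 1) → (∀ z ∈ ball (0:ℂ) 1, 0 < (g z).re) →
      (g 0).im = 0 → 0 < ε → ∃ Q : PJet, IsBellman a s t c C F g ε Q := by
  rcases le_total s 2 with h | h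
  · exact bellmanB ha hs1 h hst
  · exact bellmanA ha h hst

end Pool.Agent.Lib.MP_397fae_an
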