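import Pool.Agent.Lib.MP_397fae_an.Disc

/-!
The reproducing formula for the Bergman kernel.
-/

open Set Real MeasureTheory Filter Topology Metric
open scoped ComplexConjugate

namespace Pool.Agent.Lib.MP_397fae_an

lemma one_sub_ne (w : ℂ) {z : ℂ} (hz : ‖z‖ ≤ 1) : 1 - ‖w‖ ≤ ‖1 - w * conj z‖ := by
  have h1 : ‖w * conj z‖ ≤ ‖w‖ := by
    rw [norm_mul, Complex.norm_conj]
    exact mul_le_of_le_one_right (norm_nonneg _) hz
  have h2 := norm_sub_norm_le (1:ℂ) (w * conj z)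
  rw [norm_one] at h2
  linarith

lemma contOn_ker {w : ℂ} (hw : ‖w‖ < 1) :
    ContinuousOn (fun z : ℂ => ((1 - w * conj z) ^ 2)⁻¹) (ball (0:ℂ) 1) := by
  apply ContinuousOn.inv₀ (by fun_prop)
  intro z hz
  apply pow_ne_zero
  have := one_sub_ne w (mem_ball_zero_iff.1 hz).le
  intro h
  rw [h, norm_zero] at this
  linarith

lemma norm_ker_le {w z : ℂ} (hw : ‖w‖ < 1) (hz : ‖z‖ ≤ 1) :
    ‖((1 - w * conj z) ^ 2)⁻¹‖ ≤ ((1 - ‖w‖) ^ 2)⁻¹ := by
  rw [norm_inv, norm_pow]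
  have h0 : 0 < 1 - ‖w‖ := by linarith
  exact inv_anti₀ (by positivity) (pow_le_pow_left₀ h0.le (one_sub_ne w hz) 2)

lemma circle_ker {k : ℂ → ℂ} (hk : DifferentiableOn ℂ k (ball (0:ℂ) 1)) {w : ℂ} (hw : ‖w‖ < 1)
    {r : ℝ} (hr0 : 0 < r) (hr1 : r < 1) :
    ∫ θ in (0:ℝ)..2 * π, k (pt (r, θ)) * ((1 - w * conj (pt (r, θ))) ^ 2)⁻¹ =
      2 * π * (k (w * r ^ 2) + w * r ^ 2 * deriv k (w * r ^ 2)) := by
  have hw0 : ‖w * (r:ℂ) ^ 2‖ < r := by
    rw [norm_mul, norm_pow, Complex.norm_real, Real.norm_eq_abs, abs_of_pos hr0]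
    have := norm_nonneg w
    nlinarith [mul_pos hr0 hr0]
  have hmem : w * (r:ℂ) ^ 2 ∈ ball (0:ℂ) r := mem_ball_zero_iff.2 hw0
  have hmem1 : w * (r:ℂ) ^ 2 ∈ ball (0:ℂ) 1 := mem_ball_zero_iff.2 (hw0.trans hr1)
  have h1 := Complex.two_pi_I_inv_smul_circleIntegral_sub_sq_inv_smul_of_differentiable
    (f := fun z => z * k z) isOpen_ball (closedBall_subset_ball hr1)
    (differentiableOn_id.mul hk) hmem
  have h2 : deriv (fun z => z * k z) (w * (r:ℂ) ^ 2) =
      k (w * r ^ 2) + w * r ^ 2 * deriv k (w * r ^ 2) := by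
    have := (hasDerivAt_id' (w * (r:ℂ) ^ 2)).fun_mul
      (hk.differentiableAt (isOpen_ball.mem_nhds hmem1)).hasDerivAt
    rw [this.deriv, one_mul]
  rw [← h2, ← h1, circleIntegral]
  have h3 : ∀ θ : ℝ, deriv (circleMap 0 r) θ •
      (((circleMap 0 r θ - w * (r:ℂ) ^ 2) ^ 2)⁻¹ • (circleMap 0 r θ * k (circleMap 0 r θ))) =
      Complex.I * (k (pt (r, θ)) * ((1 - w * conj (pt (r, θ))) ^ 2)⁻¹) := by
    intro θ
    rw [deriv_circleMap]
    change (pt (r, θ) * Complex.I) • (((pt (r, θ) - w * (r:ℂ) ^ 2) ^ 2)⁻¹ •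
      (pt (r, θ) * k (pt (r, θ)))) = _
    have hn : ‖pt (r, θ)‖ = r := by rw [norm_pt, abs_of_pos hr0]
    have hz0 : pt (r, θ) ≠ 0 := by
      intro h; rw [h, norm_zero] at hn; linarith
    have hc : pt (r, θ) * conj (pt (r, θ)) = (r:ℂ) ^ 2 := by
      rw [Complex.mul_conj', hn]
    have hne : pt (r, θ) - w * (r:ℂ) ^ 2 ≠ 0 := by
      intro h
      rw [sub_eq_zero] at h
      rw [← h, hn] at hw0
      linarith
    have hc2 : 1 - w * conj (pt (r, θ)) = (pt (r, θ) - w * (r:ℂ) ^ 2) / pt (r, θ) := by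
      rw [← hc]; field_simp
    rw [hc2]
    simp only [smul_eq_mul]
    field_simp
  simp only [h3]
  rw [intervalIntegral.integral_const_mul, smul_eq_mul]
  have : (π:ℂ) ≠ 0 := Complex.ofReal_ne_zero.2 pi_ne_zero
  field_simp

theorem bergman_repr {k : ℂ → ℂ} (hk : DifferentiableOn ℂ k (ball (0:ℂ) 1))
    (hint : IntegrableOn k (ball (0:ℂ) 1)) {w : ℂ} (hw : ‖w‖ < 1) :
    ∫ z in ball (0:ℂ) 1, k z * ((1 - w * conj z) ^ 2)⁻¹ = π * k w := by
  have hc : ContinuousOn (fun z : ℂ => k z * ((1 - w * conj z) ^ 2)⁻¹) (ball (0:ℂ) 1) :=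
    hk.continuousOn.mul (contOn_ker hw)
  have hρ : ∀ ρ : ℝ, 0 < ρ → ρ < 1 → ∫ z in ball (0:ℂ) ρ, k z * ((1 - w * conj z) ^ 2)⁻¹ =
      π * (ρ ^ 2 * k (w * ρ ^ 2)) := by
    intro ρ h0 h1
    have hmem : ∀ r ∈ uIcc (0:ℝ) ρ, w * (r:ℂ) ^ 2 ∈ ball (0:ℂ) 1 := by
      intro r hr
      rw [uIcc_of_le h0.le] at hr
      rw [mem_ball_zero_iff, norm_mul, norm_pow, Complex.norm_real, Real.norm_eq_abs, sq_abs]
      have : r ^ 2 ≤ 1 := by nlinarith [hr.1, hr.2]
      have := mul_le_of_le_one_right (norm_nonneg w) this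
      linarith
    rw [polar hc h0 h1]
    have hd : ∀ r ∈ uIcc (0:ℝ) ρ, HasDerivAt (fun r : ℝ => (π:ℂ) * ((r:ℂ) ^ 2 * k (w * r ^ 2)))
        ((r:ℂ) * (2 * π * (k (w * r ^ 2) + w * r ^ 2 * deriv k (w * r ^ 2)))) r := by
      intro r hr
      have h0 : HasDerivAt (fun r : ℝ => (r : ℂ)) 1 r := (hasDerivAt_id' r).ofReal_comp
      have h2 : HasDerivAt k (deriv k (w * r ^ 2)) (w * r ^ 2) :=
        (hk.differentiableAt (isOpen_ball.mem_nhds (hmem r hr))).hasDerivAt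
      have h3 := h2.scomp_of_eq r (h := fun r : ℝ => w * (r:ℂ) ^ 2)
        ((h0.fun_pow 2).const_mul w) rfl
      have h4 := ((h0.fun_pow 2).fun_mul h3).const_mul (π:ℂ)
      refine h4.congr_deriv ?_
      simp only [Function.comp_apply, smul_eq_mul]
      push_cast; ring
    have hcm : ContinuousOn (fun r : ℝ => w * (r:ℂ) ^ 2) (uIcc 0 ρ) := by fun_prop
    have hci : ContinuousOn (fun r : ℝ =>
        (r:ℂ) * (2 * π * (k (w * r ^ 2) + w * r ^ 2 * deriv k (w * r ^ 2)))) (uIcc 0 ρ) :=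
      (by fun_prop : ContinuousOn (fun r : ℝ => (r:ℂ)) (uIcc 0 ρ)).mul (continuousOn_const.mul
        ((hk.continuousOn.comp hcm hmem).add
          (hcm.mul ((diffOn_deriv hk).continuousOn.comp hcm hmem))))
    have h5 := intervalIntegral.integral_eq_sub_of_hasDerivAt hd hci.intervalIntegrable
    simp only [Complex.ofReal_zero, ne_eq, OfNat.ofNat_ne_zero, not_false_eq_true, zero_pow,
      mul_zero, zero_mul, sub_zero] at h5
    rw [← h5]
    apply intervalIntegral.integral_congr_ae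
    filter_upwards with r hr
    rw [uIoc_of_le h0.le] at hr
    rw [circle_ker hk hw hr.1 (hr.2.trans_lt h1)]
  set e : ℕ → ℝ := fun n => 1 - 1 / ((n : ℝ) + 2) with he
  have he1 : ∀ n, e n < 1 := fun n => by
    have : 0 < 1 / ((n : ℝ) + 2) := by positivity
    simp only [he]; linarith
  have he0 : ∀ n, 0 < e n := fun n => by
    have : 1 / ((n : ℝ) + 2) < 1 := by
      rw [div_lt_one (by positivity)]
      have : (0:ℝ) ≤ n := n.cast_nonneg
      linarith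
    simp only [he]; linarith
  have helim : Tendsto e atTop (𝓝 1) := by
    have : Tendsto (fun n : ℕ => 1 / ((n : ℝ) + 2)) atTop (𝓝 0) := by
      apply Tendsto.div_atTop tendsto_const_nhds
      exact tendsto_atTop_add_const_right _ _ tendsto_natCast_atTop_atTop
    have h2 := this.const_sub 1
    rwa [sub_zero] at h2
  have hmono : Monotone (fun n => ball (0:ℂ) (e n)) := by
    intro m n hmn
    apply ball_subset_ball
    simp only [he]
    have : (m:ℝ) ≤ n := by exact_mod_cast hmn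
    have : 1 / ((n : ℝ) + 2) ≤ 1 / ((m : ℝ) + 2) :=
      one_div_le_one_div_of_le (by positivity) (by linarith)
    linarith
  have hU : ⋃ n, ball (0:ℂ) (e n) = ball (0:ℂ) 1 := by
    apply Subset.antisymm
    · exact iUnion_subset fun n => ball_subset_ball (he1 n).le
    · intro z hz
      obtain ⟨n, hn⟩ := (helim.eventually (lt_mem_nhds (mem_ball_zero_iff.1 hz))).exists
      exact mem_iUnion.2 ⟨n, mem_ball_zero_iff.2 hn⟩
  have hi : IntegrableOn (fun z : ℂ => k z * ((1 - w * conj z) ^ 2)⁻¹) (ball (0:ℂ) 1) := by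
    apply Integrable.mul_bdd hint ((contOn_ker hw).aestronglyMeasurable measurableSet_ball)
      (c := ((1 - ‖w‖) ^ 2)⁻¹)
    filter_upwards [ae_restrict_mem measurableSet_ball] with z hz
    exact norm_ker_le hw (mem_ball_zero_iff.1 hz).le
  have l1 := tendsto_setIntegral_of_monotone (fun n => measurableSet_ball) hmono (hU ▸ hi)
  rw [hU] at l1
  have l2 : Tendsto (fun n => (π:ℂ) * ((e n : ℂ) ^ 2 * k (w * (e n : ℂ) ^ 2))) atTop
      (𝓝 ((π:ℂ) * (((1:ℝ) : ℂ) ^ 2 * k (w * ((1:ℝ) : ℂ) ^ 2)))) := by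
    have l3 : Tendsto (fun n => (e n : ℂ)) atTop (𝓝 ((1:ℝ) : ℂ)) :=
      (Complex.continuous_ofReal.tendsto _).comp helim
    have l4 : ContinuousAt k (w * ((1:ℝ) : ℂ) ^ 2) :=
      hk.continuousOn.continuousAt (isOpen_ball.mem_nhds (by simpa using hw))
    exact ((l3.pow 2).mul (l4.tendsto.comp ((l3.pow 2).const_mul w))).const_mul _
  simp only [Complex.ofReal_one, one_pow, mul_one, one_mul] at l2
  refine tendsto_nhds_unique l1 (l2.congr fun n => ?_)
  rw [hρ (e n) (he0 n) (he1 n)]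

end Pool.Agent.Lib.MP_397fae_an
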