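import Pool.Agent.Lib.MP_397fae_an.Parts

/-!
Polar coordinates and the bound for the pairing of `|F| ^ (a - 1) F` with a derivative.
-/

open Set Real MeasureTheory Filter Topology Metric
open scoped ComplexConjugate

namespace Pool.Agent.Lib.MP_397fae_an

theorem polar {f : ℂ → ℂ} (hf : ContinuousOn f (ball (0:ℂ) 1)) {ρ : ℝ} (hρ0 : 0 < ρ)
    (hρ1 : ρ < 1) :
    ∫ z in ball (0:ℂ) ρ, f z = ∫ r in (0:ℝ)..ρ, (r : ℂ) * ∫ θ in (0:ℝ)..2 * π, f (pt (r, θ)) := by
  have hsymm : ∀ p : ℝ × ℝ, Complex.polarCoord.symm p = pt p := by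
    intro p
    rw [Complex.polarCoord_symm_apply, pt_eq, Complex.exp_mul_I]
    simp
  rw [← integral_indicator measurableSet_ball, ← Complex.integral_comp_polarCoord_symm]
  have h1 : ∫ p in polarCoord.target,
      p.1 • (ball (0:ℂ) ρ).indicator f (Complex.polarCoord.symm p) =
      ∫ p in Ioo (0:ℝ) ρ ×ˢ Ioo (-π) π, (p.1 : ℂ) * f (pt p) := by
    have hm : MeasurableSet (Ioo (0:ℝ) ρ ×ˢ Ioo (-π) π) := measurableSet_Ioo.prod measurableSet_Ioo
    have hsub : Ioo (0:ℝ) ρ ×ˢ Ioo (-π) π ⊆ polarCoord.target := fun p hp => ⟨hp.1.1, hp.2⟩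
    rw [← inter_eq_right.2 hsub, ← setIntegral_indicator hm]
    apply setIntegral_congr_fun polarCoord.open_target.measurableSet
    intro p hp
    simp only [hsymm]
    have hp1 : 0 < p.1 := hp.1
    by_cases h : p.1 < ρ
    · rw [indicator_of_mem (show p ∈ Ioo (0:ℝ) ρ ×ˢ Ioo (-π) π from ⟨⟨hp1, h⟩, hp.2⟩),
        indicator_of_mem (by rw [mem_ball_zero_iff, norm_pt, abs_of_pos hp1]; exact h)]
      simp
    · rw [indicator_of_notMem (show p ∉ Ioo (0:ℝ) ρ ×ˢ Ioo (-π) π from fun h' => h h'.1.2),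
        indicator_of_notMem (by rw [mem_ball_zero_iff, norm_pt, abs_of_pos hp1]; exact h)]
      simp
  rw [h1]
  have hc : ContinuousOn (fun p : ℝ × ℝ => (p.1 : ℂ) * f (pt p)) (Icc (0:ℝ) ρ ×ˢ Icc (-π) π) := by
    apply ContinuousOn.mul (by fun_prop)
    apply (contOn_comp_pt hf).mono
    intro p hp
    change |p.1| < 1
    rw [abs_of_nonneg hp.1.1]; linarith [hp.1.2]
  have hi : IntegrableOn (fun p : ℝ × ℝ => (p.1 : ℂ) * f (pt p)) (Ioo (0:ℝ) ρ ×ˢ Ioo (-π) π)
      (volume.prod volume) :=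
    (hc.integrableOn_compact (isCompact_Icc.prod isCompact_Icc)).mono_set
      (prod_mono Ioo_subset_Icc_self Ioo_subset_Icc_self)
  rw [Measure.volume_eq_prod, setIntegral_prod _ hi, intervalIntegral.integral_of_le hρ0.le,
    integral_Ioc_eq_integral_Ioo]
  apply setIntegral_congr_fun measurableSet_Ioo
  intro r _
  simp only
  rw [integral_const_mul, ← integral_Ioc_eq_integral_Ioo,
    ← intervalIntegral.integral_of_le (by linarith [pi_pos])]
  congr 1
  have hper : Function.Periodic (fun θ : ℝ => f (pt (r, θ))) (2 * π) := fun θ => by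
    simp only [pt, periodic_circleMap 0 r θ]
  have := hper.intervalIntegral_add_eq (-π) 0
  rw [zero_add] at this
  rw [← this]
  congr 1
  ring

lemma mul_le_rpow_add {u v s t : ℝ} (hu : 0 ≤ u) (hv : 0 ≤ v) (hs1 : 1 < s)
    (hst : t = s / (s - 1)) : u * v ≤ u ^ s + v ^ t := by
  have hc : s.HolderConjugate t := by rw [hst]; exact Real.HolderConjugate.conjExponent hs1
  have h := Real.young_inequality_of_nonneg hu hv hc
  have h1 : u ^ s / s ≤ u ^ s := div_le_self (by positivity) hs1.le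
  have h2 : v ^ t / t ≤ v ^ t := div_le_self (by positivity) hc.symm.lt.le
  linarith

theorem disc_bound {a s t : ℝ} (ha : 0 < a) (hs1 : 1 < s) (hst : t = s / (s - 1)) :
    ∃ C > 0, ∀ (F g : ℂ → ℂ) (ε ρ B : ℝ), DifferentiableOn ℂ F (ball (0:ℂ) 1) →
      DifferentiableOn ℂ g (ball (0:ℂ) 1) → (∀ z ∈ ball (0:ℂ) 1, 0 < (g z).re) →
      (g 0).im = 0 → (∀ z ∈ ball (0:ℂ) 1, (1 - ‖z‖ ^ 2) * ‖deriv g z‖ ≤ 2 * (g z).re) →
      0 < ε → 0 < ρ → ρ < 1 →
      (∀ r ∈ Ioo (0:ℝ) 1, ∫ θ in (0:ℝ)..2 * π,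
        ((‖F (pt (r, θ))‖ ^ 2 + ε) ^ (a * s / 2) + (g (pt (r, θ))).re ^ t) ≤ B) →
      ρ ^ 2 * ‖∫ z in ball (0:ℂ) ρ,
        (((‖F z‖ ^ 2 + ε) ^ ((a - 1) / 2) : ℝ) : ℂ) * F z * conj (deriv g z)‖ ≤ C * B := by
  obtain ⟨C, hC, h⟩ := bilinear ha hs1 hst
  refine ⟨4 + (|(a - 1) / 2| + 1) * C, by positivity, ?_⟩
  intro F g ε ρ B hF hg hpos hg0 hSP hε hρ0 hρ1 hB
  have hcont : ContinuousOn (fun z =>
      (((‖F z‖ ^ 2 + ε) ^ ((a - 1) / 2) : ℝ) : ℂ) * F z * conj (deriv g z)) (ball (0:ℂ) 1) := by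
    refine (ContinuousOn.mul (Complex.continuous_ofReal.comp_continuousOn' ?_) hF.continuousOn).mul
      (Complex.continuous_conj.comp_continuousOn' (diffOn_deriv hg).continuousOn)
    apply ContinuousOn.rpow_const ((hF.continuousOn.norm.pow 2).add continuousOn_const)
    intro x _
    left
    exact (by positivity : 0 < ‖F x‖ ^ 2 + ε).ne'
  rw [polar hcont hρ0 hρ1]
  refine (parts hF (diffOn_deriv hg) hε ((a - 1) / 2) hρ0 hρ1).trans ?_
  have habs : ∀ r ∈ uIcc (0:ℝ) ρ, |r| < 1 := by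
    intro r hr
    rw [uIcc_of_le hρ0.le] at hr
    rw [abs_of_nonneg hr.1]; linarith [hr.2]
  have cF := contOn_comp_pt hF.continuousOn
  have cH := contOn_comp_pt (diffOn_deriv hg).continuousOn
  have cN1 : ContinuousOn (fun x => (‖F (pt x)‖ ^ 2 + ε) ^ ((a - 1) / 2) * ‖F (pt x)‖
      * ‖deriv g (pt x)‖) Strip := ((contOn_A hF hε _).mul cF.norm).mul cH.norm
  have cN2 : ContinuousOn (fun x => (‖F (pt x)‖ ^ 2 + ε) ^ ((a - 1) / 2) *
      ‖pt x * deriv F (pt x)‖ * ‖pt x * deriv g (pt x)‖) Strip :=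
    ((contOn_A hF hε _).mul (contOn_D hF).norm).mul (contOn_D hg).norm
  have hR : ContinuousOn (fun x => (‖F (pt x)‖ ^ 2 + ε) ^ (a * s / 2) + (g (pt x)).re ^ t) Strip :=
    (contOn_A hF hε _).add (contOn_re_rpow hg hpos t)
  have cw : ContinuousOn (fun r : ℝ => ρ ^ 2 - r ^ 2) (uIcc 0 ρ) := by fun_prop
  have i1 := (cw.fun_mul ((by fun_prop : ContinuousOn (fun r : ℝ => 2 * r) (uIcc 0 ρ)).fun_mul
      ((contOn_thetaInt cN1).mono habs))).intervalIntegrable (μ := volume)
  have i2 := (cw.fun_mul ((contOn_thetaInt cN2).mono habs)).intervalIntegrable (μ := volume)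
  have hB0 : 0 ≤ B := by
    refine le_trans ?_ (hB ρ ⟨hρ0, hρ1⟩)
    refine intervalIntegral.integral_nonneg (by positivity) (fun θ _ => ?_)
    have := hpos _ (pt_mem (x := (ρ, θ)) (habs ρ (by simp)))
    positivity
  simp only [mul_add, mul_left_comm _ (|(a - 1) / 2| + 1)]
  rw [intervalIntegral.integral_add i1 (i2.const_mul _), intervalIntegral.integral_const_mul,
    add_mul (4:ℝ)]
  refine add_le_add ?_ ?_
  · have : ∫ r in (0:ℝ)..ρ, (ρ ^ 2 - r ^ 2) * (2 * r * (∫ θ in (0:ℝ)..2 * π,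
        (‖F (pt (r, θ))‖ ^ 2 + ε) ^ ((a - 1) / 2) * ‖F (pt (r, θ))‖ * ‖deriv g (pt (r, θ))‖)) ≤
        ∫ r in (0:ℝ)..ρ, 4 * B := by
      apply intervalIntegral.integral_mono_on_of_le_Ioo hρ0.le i1 intervalIntegrable_const
      intro r hr
      have hr1 : r < 1 := by linarith [hr.2]
      have hr2 : |r| < 1 := by rw [abs_of_pos hr.1]; exact hr1
      refine le_trans ?_ (mul_le_mul_of_nonneg_left (hB r ⟨hr.1, hr1⟩) (by norm_num))
      rw [← mul_assoc, ← intervalIntegral.integral_const_mul, ← intervalIntegral.integral_const_mul]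
      apply intervalIntegral.integral_mono_on (by positivity)
        (((cont_theta cN1 hr2).intervalIntegrable _ _).const_mul _)
        (((cont_theta hR hr2).intervalIntegrable _ _).const_mul _)
      intro θ _
      have hz := pt_mem (x := (r, θ)) hr2
      have f1 := hSP _ hz
      have f2 := hpos _ hz
      rw [norm_pt, sq_abs] at f1
      simp only at f1
      generalize pt (r, θ) = z at *
      have hA : 0 < ‖F z‖ ^ 2 + ε := by positivity
      have f3 : (‖F z‖ ^ 2 + ε) ^ ((a - 1) / 2) * ‖F z‖ ≤ (‖F z‖ ^ 2 + ε) ^ (a / 2) := by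
        have : (‖F z‖ ^ 2 + ε) ^ (a / 2) = (‖F z‖ ^ 2 + ε) ^ ((a - 1) / 2) *
            (‖F z‖ ^ 2 + ε) ^ (1 / 2 : ℝ) := by
          rw [← Real.rpow_add hA]; congr 1; ring
        rw [this]
        apply mul_le_mul_of_nonneg_left _ (by positivity)
        rw [← Real.sqrt_eq_rpow]
        apply Real.le_sqrt_of_sq_le
        linarith
      have f4 := mul_le_rpow_add (u := (‖F z‖ ^ 2 + ε) ^ (a / 2)) (by positivity) f2.le hs1 hst
      rw [← Real.rpow_mul hA.le, show a / 2 * s = a * s / 2 by ring] at f4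
      have f5 : (ρ ^ 2 - r ^ 2) * ‖deriv g z‖ ≤ 2 * (g z).re := by
        refine le_trans (mul_le_mul_of_nonneg_right ?_ (norm_nonneg _)) f1
        nlinarith
      have hw : 0 ≤ ρ ^ 2 - r ^ 2 := by nlinarith [hr.1, hr.2]
      have f6 := mul_le_mul f3 f5 (by positivity) (by positivity)
      have f7 : 0 ≤ (‖F z‖ ^ 2 + ε) ^ ((a - 1) / 2) * ‖F z‖ * ((ρ ^ 2 - r ^ 2) * ‖deriv g z‖) := by
        positivity
      have f8 := mul_le_mul_of_nonneg_right hr1.le f7
      linarith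
    refine this.trans ?_
    simp only [intervalIntegral.integral_const, sub_zero, smul_eq_mul]
    nlinarith
  · rw [mul_assoc]
    apply mul_le_mul_of_nonneg_left _ (by positivity)
    exact (h F g ε ρ hF hg hpos hg0 hε hρ0 hρ1).trans
      (mul_le_mul_of_nonneg_left (hB ρ ⟨hρ0, hρ1⟩) hC.le)

lemma reg_rpow_le {x ε c : ℝ} (hx : 0 ≤ x) (hε0 : 0 < ε) (hε1 : ε ≤ 1) (hc : 0 ≤ c) :
    (x ^ 2 + ε) ^ (c / 2) ≤ 2 ^ (c / 2) * (x ^ c + 1) := by
  have hx' : 0 ≤ x ^ c := by positivity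
  rcases le_total x 1 with h | h
  · have : (x ^ 2 + ε) ^ (c / 2) ≤ 2 ^ (c / 2) :=
      Real.rpow_le_rpow (by positivity) (by nlinarith) (by positivity)
    have h2 : (0:ℝ) ≤ 2 ^ (c / 2) := by positivity
    nlinarith
  · have : (x ^ 2 + ε) ^ (c / 2) ≤ (2 * x ^ 2) ^ (c / 2) :=
      Real.rpow_le_rpow (by positivity) (by nlinarith) (by positivity)
    rw [Real.mul_rpow (by norm_num) (by positivity), ← Real.rpow_two, ← Real.rpow_mul hx,
      show 2 * (c / 2) = c by ring] at this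
    rw [← Real.rpow_two]
    have h2 : (0:ℝ) ≤ 2 ^ (c / 2) := by positivity
    nlinarith

lemma rpow_le_one_add {x a b : ℝ} (hx : 0 ≤ x) (ha : 0 ≤ a) (hab : a ≤ b) :
    x ^ a ≤ x ^ b + 1 := by
  rcases le_total x 1 with h | h
  · have : x ^ a ≤ 1 := Real.rpow_le_one hx h ha
    have : 0 ≤ x ^ b := by positivity
    linarith
  · have := Real.rpow_le_rpow_of_exponent_le h hab
    linarith

theorem pairing_bound {a s t : ℝ} (ha : 0 < a) (hs1 : 1 < s) (hst : t = s / (s - 1)) :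
    ∃ C > 0, ∀ (F g : ℂ → ℂ) (K N M : ℝ), DifferentiableOn ℂ F (ball (0:ℂ) 1) →
      DifferentiableOn ℂ g (ball (0:ℂ) 1) → (∀ z ∈ ball (0:ℂ) 1, 0 < (g z).re) →
      (g 0).im = 0 → (∀ z ∈ ball (0:ℂ) 1, (1 - ‖z‖ ^ 2) * ‖deriv g z‖ ≤ 2 * (g z).re) →
      (∀ z ∈ ball (0:ℂ) 1, ‖deriv g z‖ ≤ M) →
      IntegrableOn (fun z => ‖F z‖ ^ (a + 1)) (ball (0:ℂ) 1) →
      (∀ r ∈ Ioo (0:ℝ) 1, ∫ θ in (0:ℝ)..2 * π, ‖F (pt (r, θ))‖ ^ (a * s) ≤ K) →
      (∀ r ∈ Ioo (0:ℝ) 1, ∫ θ in (0:ℝ)..2 * π, (g (pt (r, θ))).re ^ t ≤ N) →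
      ‖∫ z in ball (0:ℂ) 1, ((‖F z‖ ^ (a - 1) : ℝ) : ℂ) * F z * conj (deriv g z)‖ ≤
        C * (K + 1 + N) := by
  obtain ⟨C, hC, h⟩ := disc_bound ha hs1 hst
  refine ⟨C * (2 ^ (a * s / 2) * (2 * π + 1) + 1), by positivity, ?_⟩
  intro F g K N M hF hg hpos hg0 hSP hM hint hK hN
  have cF := contOn_comp_pt hF.continuousOn
  have cFs : ContinuousOn (fun x => ‖F (pt x)‖ ^ (a * s)) Strip :=
    cF.norm.rpow_const (fun _ _ => Or.inr (by positivity))
  have hK0 : 0 ≤ K := le_trans (intervalIntegral.integral_nonneg (by positivity)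
    (fun θ _ => by positivity)) (hK (1 / 2) (by norm_num))
  have hN0 : 0 ≤ N := le_trans (intervalIntegral.integral_nonneg (by positivity)
    (fun θ _ => by
      have := hpos _ (pt_mem (x := (1 / 2, θ)) (by change |(1 / 2 : ℝ)| < 1; norm_num [abs_lt]))
      positivity)) (hN (1 / 2) (by norm_num))
  set B := 2 ^ (a * s / 2) * (K + 2 * π) + N with hBdef
  have hB : ∀ ε : ℝ, 0 < ε → ε ≤ 1 → ∀ r ∈ Ioo (0:ℝ) 1, ∫ θ in (0:ℝ)..2 * π,
        ((‖F (pt (r, θ))‖ ^ 2 + ε) ^ (a * s / 2) + (g (pt (r, θ))).re ^ t) ≤ B := by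
    intro ε hε0 hε1 r hr
    have hr2 : |r| < 1 := by rw [abs_of_pos hr.1]; exact hr.2
    have j1 := (cont_theta (contOn_A hF hε0 (a * s / 2)) hr2).intervalIntegrable (μ := volume)
      0 (2 * π)
    have j2 := (cont_theta (contOn_re_rpow hg hpos t) hr2).intervalIntegrable (μ := volume)
      0 (2 * π)
    have j3 := (cont_theta cFs hr2).intervalIntegrable (μ := volume) 0 (2 * π)
    rw [intervalIntegral.integral_add j1 j2]
    refine add_le_add ?_ (hN r hr)
    refine (intervalIntegral.integral_mono_on (by positivity) j1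
      ((j3.add intervalIntegrable_const).const_mul (2 ^ (a * s / 2)))
      (fun θ _ => reg_rpow_le (norm_nonneg _) hε0 hε1 (by positivity))).trans ?_
    rw [intervalIntegral.integral_const_mul, intervalIntegral.integral_add j3
      intervalIntegrable_const]
    apply mul_le_mul_of_nonneg_left _ (by positivity)
    simp only [intervalIntegral.integral_const, sub_zero, smul_eq_mul, mul_one]
    linarith [hK r hr]
  have hfin : C * B ≤ C * (2 ^ (a * s / 2) * (2 * π + 1) + 1) * (K + 1 + N) := by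
    rw [mul_assoc]
    apply mul_le_mul_of_nonneg_left _ hC.le
    rw [hBdef]
    have p1 : (0:ℝ) ≤ 2 ^ (a * s / 2) := by positivity
    have p2 : 0 ≤ 2 ^ (a * s / 2) * (2 * π * K + 1 + (2 * π + 1) * N) := by positivity
    nlinarith
  refine le_trans ?_ hfin
  -- the limiting argument
  set e : ℕ → ℝ := fun n => 1 / ((n : ℝ) + 2) with he
  have he0 : ∀ n, 0 < e n := fun n => by positivity
  have he1 : ∀ n, e n < 1 := fun n => by
    rw [he]; simp only; rw [div_lt_one (by positivity)]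
    have : (0:ℝ) ≤ n := n.cast_nonneg
    linarith
  have helim : Tendsto e atTop (𝓝 0) := by
    apply Tendsto.div_atTop tendsto_const_nhds
    exact tendsto_atTop_add_const_right _ _ tendsto_natCast_atTop_atTop
  set f : ℕ → ℂ → ℂ := fun n => (ball (0:ℂ) (1 - e n)).indicator (fun z =>
    (((‖F z‖ ^ 2 + e n) ^ ((a - 1) / 2) : ℝ) : ℂ) * F z * conj (deriv g z)) with hf
  have hM0 : 0 ≤ M := (norm_nonneg _).trans (hM 0 (by simp))
  have hlim : Tendsto (fun n => ∫ z in ball (0:ℂ) 1, f n z) atTop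
      (𝓝 (∫ z in ball (0:ℂ) 1, ((‖F z‖ ^ (a - 1) : ℝ) : ℂ) * F z * conj (deriv g z))) := by
    apply tendsto_integral_of_dominated_convergence
      (fun z => 2 ^ (a / 2) * ((‖F z‖ ^ (a + 1) + 1) + 1) * M)
    · intro n
      apply AEStronglyMeasurable.indicator _ measurableSet_ball
      apply ContinuousOn.aestronglyMeasurable _ measurableSet_ball
      refine (ContinuousOn.mul (Complex.continuous_ofReal.comp_continuousOn' ?_)
        hF.continuousOn).mul
        (Complex.continuous_conj.comp_continuousOn' (diffOn_deriv hg).continuousOn)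
      apply ContinuousOn.rpow_const ((hF.continuousOn.norm.pow 2).add continuousOn_const)
      intro x _
      left
      have := he0 n
      exact (by positivity : 0 < ‖F x‖ ^ 2 + e n).ne'
    · have hc : IntegrableOn (fun _ : ℂ => (1:ℝ)) (ball (0:ℂ) 1) :=
        integrableOn_const measure_ball_lt_top.ne
      exact (((hint.add hc).add hc).const_mul _).mul_const _
    · intro n
      filter_upwards [ae_restrict_mem measurableSet_ball] with z hz
      refine (norm_indicator_le_norm_self _ _).trans ?_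
      have hε := he0 n
      have hA : 0 < ‖F z‖ ^ 2 + e n := by positivity
      rw [norm_mul, norm_mul, Complex.norm_real, Real.norm_eq_abs, abs_of_pos (by positivity),
        Complex.norm_conj]
      apply mul_le_mul _ (hM z hz) (norm_nonneg _) (by positivity)
      have f3 : (‖F z‖ ^ 2 + e n) ^ ((a - 1) / 2) * ‖F z‖ ≤ (‖F z‖ ^ 2 + e n) ^ (a / 2) := by
        have : (‖F z‖ ^ 2 + e n) ^ (a / 2) = (‖F z‖ ^ 2 + e n) ^ ((a - 1) / 2) *
            (‖F z‖ ^ 2 + e n) ^ (1 / 2 : ℝ) := by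
          rw [← Real.rpow_add hA]; congr 1; ring
        rw [this]
        apply mul_le_mul_of_nonneg_left _ (by positivity)
        rw [← Real.sqrt_eq_rpow]
        apply Real.le_sqrt_of_sq_le
        linarith
      refine f3.trans ((reg_rpow_le (norm_nonneg _) hε (he1 n).le ha.le).trans ?_)
      apply mul_le_mul_of_nonneg_left _ (by positivity)
      linarith [rpow_le_one_add (norm_nonneg (F z)) ha.le (by linarith : a ≤ a + 1)]
    · filter_upwards [ae_restrict_mem measurableSet_ball] with z hz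
      have hz1 : ‖z‖ < 1 := mem_ball_zero_iff.1 hz
      have hev : ∀ᶠ n in atTop, z ∈ ball (0:ℂ) (1 - e n) := by
        filter_upwards [helim.eventually (gt_mem_nhds (show (0:ℝ) < 1 - ‖z‖ by linarith))]
          with n hn
        rw [mem_ball_zero_iff]; linarith
      have hT : Tendsto (fun n => (((‖F z‖ ^ 2 + e n) ^ ((a - 1) / 2) : ℝ) : ℂ) * F z *
          conj (deriv g z)) atTop
          (𝓝 (((‖F z‖ ^ (a - 1) : ℝ) : ℂ) * F z * conj (deriv g z))) := by
        apply Tendsto.mul_const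
        by_cases h0 : F z = 0
        · simp [h0]
        · apply Tendsto.mul_const
          apply (Complex.continuous_ofReal.tendsto _).comp
          have hn : 0 < ‖F z‖ := norm_pos_iff.2 h0
          have h1 : Tendsto (fun n => ‖F z‖ ^ 2 + e n) atTop (𝓝 (‖F z‖ ^ 2)) := by
            simpa using helim.const_add (‖F z‖ ^ 2)
          have h2 := h1.rpow_const (p := (a - 1) / 2) (Or.inl (by positivity))
          rwa [← Real.rpow_two, ← Real.rpow_mul hn.le, show 2 * ((a - 1) / 2) = a - 1 by ring,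
            Real.rpow_two] at h2
      refine hT.congr' ?_
      filter_upwards [hev] with n hn
      simp only [hf]
      rw [indicator_of_mem hn]
  have hlim2 : Tendsto (fun n => (1 - e n) ^ 2 * ‖∫ z in ball (0:ℂ) 1, f n z‖) atTop
      (𝓝 ((1 - 0) ^ 2 *
        ‖∫ z in ball (0:ℂ) 1, ((‖F z‖ ^ (a - 1) : ℝ) : ℂ) * F z * conj (deriv g z)‖)) :=
    ((helim.const_sub 1).pow 2).mul hlim.norm
  rw [sub_zero, one_pow, one_mul] at hlim2
  apply le_of_tendsto' hlim2
  intro n
  simp only [hf]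
  rw [setIntegral_indicator measurableSet_ball,
    inter_eq_right.2 (ball_subset_ball (by linarith [he0 n]))]
  exact h F g (e n) (1 - e n) B hF hg hpos hg0 hSP (he0 n) (by linarith [he1 n])
    (by linarith [he0 n]) (hB (e n) (he0 n) (he1 n).le)

end Pool.Agent.Lib.MP_397fae_an
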