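import Pool.Agent.Lib.MP_397fae_an.Main

/-!
The endpoint `q₁ = 1`: a Bellman function of Uchiyama type, tested against Herglotz integrals of
bounded functions.
-/

open Set Real MeasureTheory Filter Topology Metric
open scoped ComplexConjugate

namespace Pool.Agent.Lib.MP_397fae_an.EndOne

open PJet hiding exp

theorem bellman1 {a : ℝ} (ha : 0 < a) :
    ∃ c > 0, ∃ C > 0, ∀ (F g : ℂ → ℂ) (ε : ℝ), DifferentiableOn ℂ F (ball (0:ℂ) 1) →
      DifferentiableOn ℂ g (ball (0:ℂ) 1) → (∀ z ∈ ball (0:ℂ) 1, 0 < (g z).re) →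
      (∀ z ∈ ball (0:ℂ) 1, (g z).re ≤ 2) → 0 < ε → ∃ Q : PJet,
      (∀ x ∈ Strip, c * ((‖F (pt x)‖ ^ 2 + ε) ^ ((a - 1) / 2) * ‖pt x * deriv F (pt x)‖
        * ‖pt x * deriv g (pt x)‖) ≤ Q.lap x) ∧
      (∀ x ∈ Strip, Q.q x ≤ C * (‖F (pt x)‖ ^ 2 + ε) ^ (a / 2)) ∧ (∀ θ, 0 ≤ Q.q (0, θ)) := by
  set κ := a / 2 with hκ
  have hκ0 : 0 < κ := by positivity
  set c := min 2 (min (4 * κ) (4 * κ ^ 2)) with hc
  have hc0 : 0 < c := by positivity
  have hc1 : c ≤ 2 := min_le_left _ _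
  have hc2 : c ≤ 4 * κ := (min_le_right _ _).trans (min_le_left _ _)
  have hc3 : c ≤ 4 * κ ^ 2 := (min_le_right _ _).trans (min_le_right _ _)
  refine ⟨2 * c, by positivity, exp 4 + 1, by positivity, ?_⟩
  intro F g ε hF hg hpos hle hε
  refine ⟨((((LF hF hε).smul κ).add ((LP hg hpos).smul 2).exp).exp).add
    (((LF hF hε).smul κ).exp), ?_, ?_, ?_⟩
  · intro x hx
    have hA : 0 < ‖F (pt x)‖ ^ 2 + ε := by positivity
    have h1 := hpos _ (pt_mem hx)
    have hl := LF_lap_nonneg hF hε x hx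
    have hG := LF_sum hF hε x hx
    have e2 : exp (2 * (LP hg hpos).q x) = (g (pt x)).re ^ 2 := by
      rw [LP_q, ← Real.rpow_two, Real.rpow_def_of_pos h1, mul_comm]
    have hu : ((LP hg hpos).smul 2).exp.lap x = 2 * ‖pt x * deriv g (pt x)‖ ^ 2 := by
      simp only [lap_exp, lap_smul, g1_smul, qt_smul, q_smul, LP_lap hg hpos x hx]
      have e3 := LP_grad hg hpos x
      rw [e2, mul_pow, mul_pow, ← mul_add, e3]
      field_simp
      ring
    have e1 : exp (κ * (LF hF hε).q x) = (‖F (pt x)‖ ^ 2 + ε) ^ κ := by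
      rw [LF_q, Real.rpow_def_of_pos hA, mul_comm]
    have hm : (‖F (pt x)‖ ^ 2 + ε) ^ κ * (‖pt x * deriv F (pt x)‖ ^ 2 / (‖F (pt x)‖ ^ 2 + ε)) *
        ((‖F (pt x)‖ ^ 2 + ε) ^ κ * ‖pt x * deriv g (pt x)‖ ^ 2) =
        ((‖F (pt x)‖ ^ 2 + ε) ^ ((a - 1) / 2) * ‖pt x * deriv F (pt x)‖
          * ‖pt x * deriv g (pt x)‖) ^ 2 := by
      have e4 : (‖F (pt x)‖ ^ 2 + ε) ^ κ * (‖F (pt x)‖ ^ 2 + ε) ^ κ =
          ((‖F (pt x)‖ ^ 2 + ε) ^ ((a - 1) / 2)) ^ 2 * (‖F (pt x)‖ ^ 2 + ε) := by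
        rw [pow_two ((‖F (pt x)‖ ^ 2 + ε) ^ ((a - 1) / 2)), ← Real.rpow_add hA, ← Real.rpow_add hA,
          ← Real.rpow_add_one hA.ne']
        congr 1
        rw [hκ]; ring
      calc _ = ((‖F (pt x)‖ ^ 2 + ε) ^ κ * (‖F (pt x)‖ ^ 2 + ε) ^ κ) *
            (‖pt x * deriv F (pt x)‖ ^ 2 / (‖F (pt x)‖ ^ 2 + ε)) *
            ‖pt x * deriv g (pt x)‖ ^ 2 := by ring
        _ = _ := by rw [e4]; field_simp
    have h5 := two_mul_le_of_mul_eq_sq (by positivity) (by positivity) hm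
    rw [lap_add, lap_exp, lap_exp, lap_add, hu, q_add, q_smul, q_exp, Real.exp_add, e1,
      lap_smul, g1_smul, qt_smul]
    have p1 : 1 ≤ exp (exp (((LP hg hpos).smul 2).q x)) := one_le_exp (exp_pos _).le
    have pW : 0 < (‖F (pt x)‖ ^ 2 + ε) ^ κ := by positivity
    generalize exp (exp (((LP hg hpos).smul 2).q x)) = E at p1
    generalize (((LF hF hε).smul κ).add ((LP hg hpos).smul 2).exp).g1 x = u1
    generalize (((LF hF hε).smul κ).add ((LP hg hpos).smul 2).exp).qt x = u2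
    have pX : 0 ≤ ‖pt x * deriv F (pt x)‖ ^ 2 / (‖F (pt x)‖ ^ 2 + ε) := by positivity
    have pY : 0 ≤ ‖pt x * deriv g (pt x)‖ ^ 2 := by positivity
    generalize (‖F (pt x)‖ ^ 2 + ε) ^ ((a - 1) / 2) * ‖pt x * deriv F (pt x)‖
      * ‖pt x * deriv g (pt x)‖ = m at h5
    generalize ‖pt x * deriv F (pt x)‖ ^ 2 / (‖F (pt x)‖ ^ 2 + ε) = X at h5 hG pX
    generalize ‖pt x * deriv g (pt x)‖ ^ 2 = Y at h5 pY
    generalize (‖F (pt x)‖ ^ 2 + ε) ^ κ = W at h5 pW
    generalize (LF hF hε).lap x = l at hl hG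
    generalize (LF hF hε).g1 x = a1 at hG
    generalize (LF hF hε).qt x = a2 at hG
    have hG0 : 0 ≤ a1 ^ 2 + a2 ^ 2 := by positivity
    have k1 : c * X ≤ κ * l + ((κ * a1) ^ 2 + (κ * a2) ^ 2) := by
      have e : c * X = (c * l + c * (a1 ^ 2 + a2 ^ 2)) / 4 := by rw [← mul_add, hG]; ring
      linarith [mul_le_mul_of_nonneg_right hc2 hl, mul_le_mul_of_nonneg_right hc3 hG0]
    have k2 : c * Y ≤ κ * l + 2 * Y + (u1 ^ 2 + u2 ^ 2) := by
      have := mul_le_mul_of_nonneg_right hc1 pY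
      have := mul_nonneg hκ0.le hl
      nlinarith [sq_nonneg u1, sq_nonneg u2]
    have k3 : W * (c * Y) ≤ W * E * (κ * l + 2 * Y + (u1 ^ 2 + u2 ^ 2)) :=
      mul_le_mul (le_mul_of_one_le_right pW.le p1) k2 (by positivity) (by positivity)
    have k4 := mul_le_mul_of_nonneg_left k1 pW.le
    have k5 := mul_le_mul_of_nonneg_left h5 hc0.le
    linarith
  · intro x hx
    have hA : 0 < ‖F (pt x)‖ ^ 2 + ε := by positivity
    have h1 := hpos _ (pt_mem hx)
    have h2 := hle _ (pt_mem hx)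
    simp only [q_add, q_smul, q_exp]
    have e1 : exp (κ * (LF hF hε).q x) = (‖F (pt x)‖ ^ 2 + ε) ^ κ := by
      rw [LF_q, Real.rpow_def_of_pos hA, mul_comm]
    have e2 : exp (2 * (LP hg hpos).q x) = (g (pt x)).re ^ 2 := by
      rw [LP_q, ← Real.rpow_two, Real.rpow_def_of_pos h1, mul_comm]
    rw [Real.exp_add, e1, e2]
    have p1 : exp ((g (pt x)).re ^ 2) ≤ exp 4 := exp_le_exp.2 (by nlinarith)
    have pW : 0 < (‖F (pt x)‖ ^ 2 + ε) ^ κ := by positivity
    nlinarith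
  · intro θ
    simp only [q_add, q_smul, q_exp]
    positivity

theorem bilinear1 {a : ℝ} (ha : 0 < a) :
    ∃ C > 0, ∀ (F g : ℂ → ℂ) (ε ρ : ℝ), DifferentiableOn ℂ F (ball (0:ℂ) 1) →
      DifferentiableOn ℂ g (ball (0:ℂ) 1) → (∀ z ∈ ball (0:ℂ) 1, 0 < (g z).re) →
      (∀ z ∈ ball (0:ℂ) 1, (g z).re ≤ 2) → 0 < ε → 0 < ρ → ρ < 1 →
      ∫ r in (0:ℝ)..ρ, (ρ ^ 2 - r ^ 2) * ∫ θ in (0:ℝ)..2 * π,
        (‖F (pt (r, θ))‖ ^ 2 + ε) ^ ((a - 1) / 2) * ‖pt (r, θ) * deriv F (pt (r, θ))‖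
          * ‖pt (r, θ) * deriv g (pt (r, θ))‖ ≤
      C * ∫ θ in (0:ℝ)..2 * π,
        (‖F (pt (ρ, θ))‖ ^ 2 + ε) ^ (a / 2) := by
  obtain ⟨c, hc, C, hC, h⟩ := bellman1 ha
  refine ⟨2 * C / c, by positivity, ?_⟩
  intro F g ε ρ hF hg hpos hg0 hε hρ0 hρ1
  obtain ⟨Q, h1, h2, h3⟩ := h F g ε hF hg hpos hg0 hε
  have hρ : |ρ| < 1 := by rw [abs_of_pos hρ0]; exact hρ1
  have hE : ContinuousOn (fun x => (‖F (pt x)‖ ^ 2 + ε) ^ ((a - 1) / 2) * ‖pt x * deriv F (pt x)‖
      * ‖pt x * deriv g (pt x)‖) Strip :=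
    ((contOn_A hF hε _).mul (contOn_D hF).norm).mul (contOn_D hg).norm
  have hg1 := Q.green (fun x => c * ((‖F (pt x)‖ ^ 2 + ε) ^ ((a - 1) / 2) * ‖pt x * deriv F (pt x)‖
      * ‖pt x * deriv g (pt x)‖)) (continuousOn_const.mul hE) (fun x _ => by positivity)
      (fun x hx _ => h1 x hx) hρ0 hρ1
  have hz : 0 ≤ ∫ θ in (0:ℝ)..2 * π, Q.q (0, θ) :=
    intervalIntegral.integral_nonneg (by positivity) (fun θ _ => h3 θ)
  have hR : ContinuousOn (fun x => (‖F (pt x)‖ ^ 2 + ε) ^ (a / 2)) Strip :=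
    contOn_A hF hε _
  have hup : ∫ θ in (0:ℝ)..2 * π, Q.q (ρ, θ) ≤ C * ∫ θ in (0:ℝ)..2 * π,
        (‖F (pt (ρ, θ))‖ ^ 2 + ε) ^ (a / 2) := by
    rw [← intervalIntegral.integral_const_mul]
    exact intervalIntegral.integral_mono_on (by positivity)
      ((cont_theta Q.c0 hρ).intervalIntegrable _ _)
      (((cont_theta hR hρ).intervalIntegrable _ _).const_mul _) (fun θ _ => h2 (ρ, θ) hρ)
  have hnn : 0 ≤ ∫ θ in (0:ℝ)..2 * π,
        (‖F (pt (ρ, θ))‖ ^ 2 + ε) ^ (a / 2) :=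
    intervalIntegral.integral_nonneg (by positivity) (fun θ _ => by positivity)
  simp only [intervalIntegral.integral_const_mul] at hg1
  simp only [mul_left_comm _ c, intervalIntegral.integral_const_mul] at hg1
  rw [div_mul_eq_mul_div, le_div_iff₀ hc, mul_comm _ c]
  refine hg1.trans ?_
  have hρ2 : ρ ^ 2 ≤ 1 := by nlinarith
  have := mul_le_mul_of_nonneg_right hρ2 (mul_nonneg hC.le hnn)
  have h5 := mul_le_mul_of_nonneg_left hup (sq_nonneg ρ)
  have h6 := mul_nonneg (sq_nonneg ρ) hz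
  nlinarith

theorem disc_bound1 {a : ℝ} (ha : 0 < a) :
    ∃ C > 0, ∀ (F g : ℂ → ℂ) (ε ρ B : ℝ), DifferentiableOn ℂ F (ball (0:ℂ) 1) →
      DifferentiableOn ℂ g (ball (0:ℂ) 1) → (∀ z ∈ ball (0:ℂ) 1, 0 < (g z).re) →
      (∀ z ∈ ball (0:ℂ) 1, (g z).re ≤ 2) →
      (∀ z ∈ ball (0:ℂ) 1, (1 - ‖z‖ ^ 2) * ‖deriv g z‖ ≤ 2 * (g z).re) →
      0 < ε → 0 < ρ → ρ < 1 →
      (∀ r ∈ Ioo (0:ℝ) 1, ∫ θ in (0:ℝ)..2 * π,
        (‖F (pt (r, θ))‖ ^ 2 + ε) ^ (a / 2) ≤ B) →
      ρ ^ 2 * ‖∫ z in ball (0:ℂ) ρ,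
        (((‖F z‖ ^ 2 + ε) ^ ((a - 1) / 2) : ℝ) : ℂ) * F z * conj (deriv g z)‖ ≤ C * B := by
  obtain ⟨C, hC, h⟩ := bilinear1 ha
  refine ⟨8 + (|(a - 1) / 2| + 1) * C, by positivity, ?_⟩
  intro F g ε ρ B hF hg hpos hg0 hSP hε hρ0 hρ1 hB
  have hcont : ContinuousOn (fun z =>
      (((‖F z‖ ^ 2 + ε) ^ ((a - 1) / 2) : ℝ) : ℂ) * F z * conj (deriv g z)) (ball (0:ℂ) 1) := by
    refine (ContinuousOn.mul (Complex.continuous_ofReal.comp_continuousOn' ?_) hF.continuousOn).mul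
      (Complex.continuous_conj.comp_continuousOn' (diffOn_deriv hg).continuousOn)
    apply ContinuousOn.rpow_const ((hF.continuousOn.norm.pow 2).add continuousOn_const)
    intro x _
    left
    exact (by positivity : 0 < ‖F x‖ ^ 2 + ε).ne'
  rw [polar hcont hρ0 hρ1]
  refine (parts hF (diffOn_deriv hg) hε ((a - 1) / 2) hρ0 hρ1).trans ?_
  have habs : ∀ r ∈ uIcc (0:ℝ) ρ, |r| < 1 := by
    intro r hr
    rw [uIcc_of_le hρ0.le] at hr
    rw [abs_of_nonneg hr.1]; linarith [hr.2]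
  have cF := contOn_comp_pt hF.continuousOn
  have cH := contOn_comp_pt (diffOn_deriv hg).continuousOn
  have cN1 : ContinuousOn (fun x => (‖F (pt x)‖ ^ 2 + ε) ^ ((a - 1) / 2) * ‖F (pt x)‖
      * ‖deriv g (pt x)‖) Strip := ((contOn_A hF hε _).mul cF.norm).mul cH.norm
  have cN2 : ContinuousOn (fun x => (‖F (pt x)‖ ^ 2 + ε) ^ ((a - 1) / 2) *
      ‖pt x * deriv F (pt x)‖ * ‖pt x * deriv g (pt x)‖) Strip :=
    ((contOn_A hF hε _).mul (contOn_D hF).norm).mul (contOn_D hg).norm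
  have hR : ContinuousOn (fun x => (‖F (pt x)‖ ^ 2 + ε) ^ (a / 2)) Strip :=
    contOn_A hF hε _
  have cw : ContinuousOn (fun r : ℝ => ρ ^ 2 - r ^ 2) (uIcc 0 ρ) := by fun_prop
  have i1 := (cw.fun_mul ((by fun_prop : ContinuousOn (fun r : ℝ => 2 * r) (uIcc 0 ρ)).fun_mul
      ((contOn_thetaInt cN1).mono habs))).intervalIntegrable (μ := volume)
  have i2 := (cw.fun_mul ((contOn_thetaInt cN2).mono habs)).intervalIntegrable (μ := volume)
  have hB0 : 0 ≤ B := by
    refine le_trans ?_ (hB ρ ⟨hρ0, hρ1⟩)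
    refine intervalIntegral.integral_nonneg (by positivity) (fun θ _ => ?_)
    positivity
  simp only [mul_add, mul_left_comm _ (|(a - 1) / 2| + 1)]
  rw [intervalIntegral.integral_add i1 (i2.const_mul _), intervalIntegral.integral_const_mul,
    add_mul (8:ℝ)]
  refine add_le_add ?_ ?_
  · have : ∫ r in (0:ℝ)..ρ, (ρ ^ 2 - r ^ 2) * (2 * r * (∫ θ in (0:ℝ)..2 * π,
        (‖F (pt (r, θ))‖ ^ 2 + ε) ^ ((a - 1) / 2) * ‖F (pt (r, θ))‖ * ‖deriv g (pt (r, θ))‖)) ≤
        ∫ r in (0:ℝ)..ρ, 8 * B := by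
      apply intervalIntegral.integral_mono_on_of_le_Ioo hρ0.le i1 intervalIntegrable_const
      intro r hr
      have hr1 : r < 1 := by linarith [hr.2]
      have hr2 : |r| < 1 := by rw [abs_of_pos hr.1]; exact hr1
      refine le_trans ?_ (mul_le_mul_of_nonneg_left (hB r ⟨hr.1, hr1⟩) (by norm_num))
      rw [← mul_assoc, ← intervalIntegral.integral_const_mul, ← intervalIntegral.integral_const_mul]
      apply intervalIntegral.integral_mono_on (by positivity)
        (((cont_theta cN1 hr2).intervalIntegrable _ _).const_mul _)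
        (((cont_theta hR hr2).intervalIntegrable _ _).const_mul _)
      intro θ _
      have hz := pt_mem (x := (r, θ)) hr2
      have f1 := hSP _ hz
      have f2 := hg0 _ hz
      rw [norm_pt, sq_abs] at f1
      simp only at f1
      generalize pt (r, θ) = z at *
      have hA : 0 < ‖F z‖ ^ 2 + ε := by positivity
      have f3 : (‖F z‖ ^ 2 + ε) ^ ((a - 1) / 2) * ‖F z‖ ≤ (‖F z‖ ^ 2 + ε) ^ (a / 2) := by
        have : (‖F z‖ ^ 2 + ε) ^ (a / 2) = (‖F z‖ ^ 2 + ε) ^ ((a - 1) / 2) *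
            (‖F z‖ ^ 2 + ε) ^ (1 / 2 : ℝ) := by
          rw [← Real.rpow_add hA]; congr 1; ring
        rw [this]
        apply mul_le_mul_of_nonneg_left _ (by positivity)
        rw [← Real.sqrt_eq_rpow]
        apply Real.le_sqrt_of_sq_le
        linarith
      have f4 := mul_le_mul_of_nonneg_left f2 (by positivity : 0 ≤ (‖F z‖ ^ 2 + ε) ^ (a / 2))
      have f5 : (ρ ^ 2 - r ^ 2) * ‖deriv g z‖ ≤ 2 * (g z).re := by
        refine le_trans (mul_le_mul_of_nonneg_right ?_ (norm_nonneg _)) f1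
        nlinarith
      have hw : 0 ≤ ρ ^ 2 - r ^ 2 := by nlinarith [hr.1, hr.2]
      have f6 := mul_le_mul f3 f5 (by positivity) (by positivity)
      have f7 : 0 ≤ (‖F z‖ ^ 2 + ε) ^ ((a - 1) / 2) * ‖F z‖ * ((ρ ^ 2 - r ^ 2) * ‖deriv g z‖) := by
        positivity
      have f8 := mul_le_mul_of_nonneg_right hr1.le f7
      linarith
    refine this.trans ?_
    simp only [intervalIntegral.integral_const, sub_zero, smul_eq_mul]
    nlinarith
  · rw [mul_assoc]
    apply mul_le_mul_of_nonneg_left _ (by positivity)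
    exact (h F g ε ρ hF hg hpos hg0 hε hρ0 hρ1).trans
      (mul_le_mul_of_nonneg_left (hB ρ ⟨hρ0, hρ1⟩) hC.le)

theorem pairing_bound1 {a : ℝ} (ha : 0 < a) :
    ∃ C > 0, ∀ (F g : ℂ → ℂ) (K M : ℝ), DifferentiableOn ℂ F (ball (0:ℂ) 1) →
      DifferentiableOn ℂ g (ball (0:ℂ) 1) → (∀ z ∈ ball (0:ℂ) 1, 0 < (g z).re) →
      (∀ z ∈ ball (0:ℂ) 1, (g z).re ≤ 2) →
      (∀ z ∈ ball (0:ℂ) 1, (1 - ‖z‖ ^ 2) * ‖deriv g z‖ ≤ 2 * (g z).re) →
      (∀ z ∈ ball (0:ℂ) 1, ‖deriv g z‖ ≤ M) →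
      IntegrableOn (fun z => ‖F z‖ ^ (a + 1)) (ball (0:ℂ) 1) →
      (∀ r ∈ Ioo (0:ℝ) 1, ∫ θ in (0:ℝ)..2 * π, ‖F (pt (r, θ))‖ ^ a ≤ K) →
      ‖∫ z in ball (0:ℂ) 1, ((‖F z‖ ^ (a - 1) : ℝ) : ℂ) * F z * conj (deriv g z)‖ ≤
        C * (K + 2 * π) := by
  obtain ⟨C, hC, h⟩ := disc_bound1 ha
  refine ⟨C * 2 ^ (a / 2), by positivity, ?_⟩
  intro F g K M hF hg hpos hg0 hSP hM hint hK
  have cF := contOn_comp_pt hF.continuousOn
  have cFs : ContinuousOn (fun x => ‖F (pt x)‖ ^ a) Strip :=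
    cF.norm.rpow_const (fun _ _ => Or.inr (by positivity))
  set B := 2 ^ (a / 2) * (K + 2 * π) with hBdef
  have hB : ∀ ε : ℝ, 0 < ε → ε ≤ 1 → ∀ r ∈ Ioo (0:ℝ) 1, ∫ θ in (0:ℝ)..2 * π,
        (‖F (pt (r, θ))‖ ^ 2 + ε) ^ (a / 2) ≤ B := by
    intro ε hε0 hε1 r hr
    have hr2 : |r| < 1 := by rw [abs_of_pos hr.1]; exact hr.2
    have j1 := (cont_theta (contOn_A hF hε0 (a / 2)) hr2).intervalIntegrable (μ := volume)
      0 (2 * π)
    have j3 := (cont_theta cFs hr2).intervalIntegrable (μ := volume) 0 (2 * π)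
    refine (intervalIntegral.integral_mono_on (by positivity) j1
      ((j3.add intervalIntegrable_const).const_mul (2 ^ (a / 2)))
      (fun θ _ => reg_rpow_le (norm_nonneg _) hε0 hε1 (by positivity))).trans ?_
    rw [intervalIntegral.integral_const_mul, intervalIntegral.integral_add j3
      intervalIntegrable_const]
    apply mul_le_mul_of_nonneg_left _ (by positivity)
    simp only [intervalIntegral.integral_const, sub_zero, smul_eq_mul, mul_one]
    linarith [hK r hr]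
  rw [mul_assoc]
  -- the limiting argument
  set e : ℕ → ℝ := fun n => 1 / ((n : ℝ) + 2) with he
  have he0 : ∀ n, 0 < e n := fun n => by positivity
  have he1 : ∀ n, e n < 1 := fun n => by
    rw [he]; simp only; rw [div_lt_one (by positivity)]
    have : (0:ℝ) ≤ n := n.cast_nonneg
    linarith
  have helim : Tendsto e atTop (𝓝 0) := by
    apply Tendsto.div_atTop tendsto_const_nhds
    exact tendsto_atTop_add_const_right _ _ tendsto_natCast_atTop_atTop
  set f : ℕ → ℂ → ℂ := fun n => (ball (0:ℂ) (1 - e n)).indicator (fun z =>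
    (((‖F z‖ ^ 2 + e n) ^ ((a - 1) / 2) : ℝ) : ℂ) * F z * conj (deriv g z)) with hf
  have hM0 : 0 ≤ M := (norm_nonneg _).trans (hM 0 (by simp))
  have hlim : Tendsto (fun n => ∫ z in ball (0:ℂ) 1, f n z) atTop
      (𝓝 (∫ z in ball (0:ℂ) 1, ((‖F z‖ ^ (a - 1) : ℝ) : ℂ) * F z * conj (deriv g z))) := by
    apply tendsto_integral_of_dominated_convergence
      (fun z => 2 ^ (a / 2) * ((‖F z‖ ^ (a + 1) + 1) + 1) * M)
    · intro n
      apply AEStronglyMeasurable.indicator _ measurableSet_ball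
      apply ContinuousOn.aestronglyMeasurable _ measurableSet_ball
      refine (ContinuousOn.mul (Complex.continuous_ofReal.comp_continuousOn' ?_)
        hF.continuousOn).mul
        (Complex.continuous_conj.comp_continuousOn' (diffOn_deriv hg).continuousOn)
      apply ContinuousOn.rpow_const ((hF.continuousOn.norm.pow 2).add continuousOn_const)
      intro x _
      left
      have := he0 n
      exact (by positivity : 0 < ‖F x‖ ^ 2 + e n).ne'
    · have hc : IntegrableOn (fun _ : ℂ => (1:ℝ)) (ball (0:ℂ) 1) :=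
        integrableOn_const measure_ball_lt_top.ne
      exact (((hint.add hc).add hc).const_mul _).mul_const _
    · intro n
      filter_upwards [ae_restrict_mem measurableSet_ball] with z hz
      refine (norm_indicator_le_norm_self _ _).trans ?_
      have hε := he0 n
      have hA : 0 < ‖F z‖ ^ 2 + e n := by positivity
      rw [norm_mul, norm_mul, Complex.norm_real, Real.norm_eq_abs, abs_of_pos (by positivity),
        Complex.norm_conj]
      apply mul_le_mul _ (hM z hz) (norm_nonneg _) (by positivity)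
      have f3 : (‖F z‖ ^ 2 + e n) ^ ((a - 1) / 2) * ‖F z‖ ≤ (‖F z‖ ^ 2 + e n) ^ (a / 2) := by
        have : (‖F z‖ ^ 2 + e n) ^ (a / 2) = (‖F z‖ ^ 2 + e n) ^ ((a - 1) / 2) *
            (‖F z‖ ^ 2 + e n) ^ (1 / 2 : ℝ) := by
          rw [← Real.rpow_add hA]; congr 1; ring
        rw [this]
        apply mul_le_mul_of_nonneg_left _ (by positivity)
        rw [← Real.sqrt_eq_rpow]
        apply Real.le_sqrt_of_sq_le
        linarith
      refine f3.trans ((reg_rpow_le (norm_nonneg _) hε (he1 n).le ha.le).trans ?_)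
      apply mul_le_mul_of_nonneg_left _ (by positivity)
      linarith [rpow_le_one_add (norm_nonneg (F z)) ha.le (by linarith : a ≤ a + 1)]
    · filter_upwards [ae_restrict_mem measurableSet_ball] with z hz
      have hz1 : ‖z‖ < 1 := mem_ball_zero_iff.1 hz
      have hev : ∀ᶠ n in atTop, z ∈ ball (0:ℂ) (1 - e n) := by
        filter_upwards [helim.eventually (gt_mem_nhds (show (0:ℝ) < 1 - ‖z‖ by linarith))]
          with n hn
        rw [mem_ball_zero_iff]; linarith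
      have hT : Tendsto (fun n => (((‖F z‖ ^ 2 + e n) ^ ((a - 1) / 2) : ℝ) : ℂ) * F z *
          conj (deriv g z)) atTop
          (𝓝 (((‖F z‖ ^ (a - 1) : ℝ) : ℂ) * F z * conj (deriv g z))) := by
        apply Tendsto.mul_const
        by_cases h0 : F z = 0
        · simp [h0]
        · apply Tendsto.mul_const
          apply (Complex.continuous_ofReal.tendsto _).comp
          have hn : 0 < ‖F z‖ := norm_pos_iff.2 h0
          have h1 : Tendsto (fun n => ‖F z‖ ^ 2 + e n) atTop (𝓝 (‖F z‖ ^ 2)) := by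
            simpa using helim.const_add (‖F z‖ ^ 2)
          have h2 := h1.rpow_const (p := (a - 1) / 2) (Or.inl (by positivity))
          rwa [← Real.rpow_two, ← Real.rpow_mul hn.le, show 2 * ((a - 1) / 2) = a - 1 by ring,
            Real.rpow_two] at h2
      refine hT.congr' ?_
      filter_upwards [hev] with n hn
      simp only [hf]
      rw [indicator_of_mem hn]
  have hlim2 : Tendsto (fun n => (1 - e n) ^ 2 * ‖∫ z in ball (0:ℂ) 1, f n z‖) atTop
      (𝓝 ((1 - 0) ^ 2 *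
        ‖∫ z in ball (0:ℂ) 1, ((‖F z‖ ^ (a - 1) : ℝ) : ℂ) * F z * conj (deriv g z)‖)) :=
    ((helim.const_sub 1).pow 2).mul hlim.norm
  rw [sub_zero, one_pow, one_mul] at hlim2
  apply le_of_tendsto' hlim2
  intro n
  simp only [hf]
  rw [setIntegral_indicator measurableSet_ball,
    inter_eq_right.2 (ball_subset_ball (by linarith [he0 n]))]
  exact h F g (e n) (1 - e n) B hF hg hpos hg0 hSP (he0 n) (by linarith [he1 n])
    (by linarith [he0 n]) (hB (e n) (he0 n) (he1 n).le)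

theorem herglotz1 {ψ : ℂ → ℝ} (hψ : Continuous (fun θ : ℝ => ψ (pt (1, θ))))
    (hψ0 : ∀ θ : ℝ, 0 < ψ (pt (1, θ))) (hψ2 : ∀ θ : ℝ, ψ (pt (1, θ)) ≤ 2) {r : ℝ} (hr0 : 0 < r)
    (hr1 : r < 1) :
    ∃ (g : ℂ → ℂ) (M : ℝ), DifferentiableOn ℂ g (ball (0:ℂ) 1) ∧
      (∀ z ∈ ball (0:ℂ) 1, 0 < (g z).re) ∧ (g 0).im = 0 ∧
      (∀ z ∈ ball (0:ℂ) 1, (1 - ‖z‖ ^ 2) * ‖deriv g z‖ ≤ 2 * (g z).re) ∧
      (∀ z ∈ ball (0:ℂ) 1, ‖deriv g z‖ ≤ M) ∧
      (∀ z ∈ ball (0:ℂ) 1, (g z).re ≤ 2) ∧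
      ∀ k : ℂ → ℂ, DifferentiableOn ℂ k (ball (0:ℂ) 1) → IntegrableOn k (ball (0:ℂ) 1) →
        ∫ z in ball (0:ℂ) 1, k z * conj (deriv g z) =
          r * ∫ θ in (0:ℝ)..2 * π, (ψ (pt (1, θ)) : ℂ) * (pt (1, θ) * k (r * pt (1, θ))) := by
  have hci : CircleIntegrable ψ 0 1 := hψ.intervalIntegrable _ _
  have hψc : Continuous (fun θ : ℝ => (ψ (pt (1, θ)) : ℂ)) := Complex.continuous_ofReal.comp hψ
  have hci' : CircleIntegrable (fun z => (ψ z : ℂ)) 0 1 := hψc.intervalIntegrable _ _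
  set h : ℂ → ℂ := fun w => circleAverage (fun ζ => herglotzRieszKernel 0 w ζ • (ψ ζ : ℂ)) 0 1
    with hh
  have hrz : ∀ z ∈ ball (0:ℂ) 1, ‖(r:ℂ) * z‖ ≤ r := by
    intro z hz
    rw [norm_mul, Complex.norm_real, Real.norm_eq_abs, abs_of_pos hr0]
    exact mul_le_of_le_one_right hr0.le (mem_ball_zero_iff.1 hz).le
  have hrz1 : ∀ z ∈ ball (0:ℂ) 1, ‖(r:ℂ) * z‖ < 1 := fun z hz => (hrz z hz).trans_lt hr1
  have hd : ∀ z ∈ ball (0:ℂ) 1, HasDerivAt (fun z => h (r * z))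
      (r * ((2 * π : ℝ)⁻¹ • ∫ φ in (0:ℝ)..2 * π,
        (2 * pt (1, φ) / (pt (1, φ) - r * z) ^ 2) * (ψ (pt (1, φ)) : ℂ))) z := by
    intro z hz
    have h1 := hasDerivAt_circleAverage_herglotzRieszKernel_smul hci'
      (mem_ball_zero_iff.2 (hrz1 z hz))
    have h2 := h1.comp z ((hasDerivAt_id' z).const_mul (r:ℂ))
    rw [mul_one, mul_comm] at h2
    exact h2
  have hre : ∀ w : ℂ, ‖w‖ < 1 → (h w).re =
      (2 * π)⁻¹ * ∫ φ in (0:ℝ)..2 * π, PK w φ * ψ (pt (1, φ)) := by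
    intro w hw
    rw [hh]
    simp only
    rw [re_circleAverage_herglotzRieszKernel_smul hci (mem_ball_zero_iff.2 hw), circleAverage_def,
      smul_eq_mul]
    congr 2
    ext φ
    rw [← PK_eq]
    simp [pt]
  have h2π : (0:ℝ) < 2 * π := by positivity
  have hnd : ∀ z ∈ ball (0:ℂ) 1, ‖deriv (fun z => h (r * z)) z‖ ≤
      r * ((2 * π)⁻¹ * ∫ φ in (0:ℝ)..2 * π, 2 / ‖pt (1, φ) - r * z‖ ^ 2 * ψ (pt (1, φ))) := by
    intro z hz
    rw [(hd z hz).deriv, norm_mul, norm_smul, Complex.norm_real, Real.norm_eq_abs,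
      Real.norm_eq_abs, abs_of_pos hr0, abs_of_pos (by positivity)]
    apply mul_le_mul_of_nonneg_left _ hr0.le
    apply mul_le_mul_of_nonneg_left _ (by positivity)
    apply intervalIntegral.norm_integral_le_of_norm_le h2π.le
    · filter_upwards with φ _
      rw [norm_mul, norm_div, norm_mul, norm_pt, norm_pow, Complex.norm_real, Real.norm_eq_abs,
        abs_of_pos (hψ0 φ)]
      simp
    · apply Continuous.intervalIntegrable
      apply Continuous.mul _ hψ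
      apply Continuous.div (by fun_prop) (by fun_prop)
      intro x
      exact pow_ne_zero _ (norm_ne_zero_iff.2 (pt_one_sub_ne (hrz1 z hz) _))
  have hlow : ∀ z ∈ ball (0:ℂ) 1, ∀ φ : ℝ, 1 - r ≤ ‖pt (1, φ) - r * z‖ := by
    intro z hz φ
    have h1 := norm_sub_norm_le (pt (1, φ)) (r * z)
    rw [norm_pt, abs_one] at h1
    linarith [hrz z hz]
  refine ⟨fun z => h (r * z), r * ((2 * π)⁻¹ * ∫ φ in (0:ℝ)..2 * π,
    2 / (1 - r) ^ 2 * ψ (pt (1, φ))), ?_, ?_, ?_, ?_, ?_, ?_, ?_⟩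
  · exact fun z hz => (hd z hz).differentiableAt.differentiableWithinAt
  · intro z hz
    rw [hre _ (hrz1 z hz)]
    apply mul_pos (by positivity)
    exact intervalIntegral.intervalIntegral_pos_of_pos
      (((PK_cont (hrz1 z hz)).mul hψ).intervalIntegrable _ _)
      (fun φ => mul_pos (PK_pos (hrz1 z hz) φ) (hψ0 φ)) h2π
  · simp only [mul_zero, hh]
    rw [circleAverage_def]
    have e : ∀ θ : ℝ, herglotzRieszKernel 0 0 (circleMap 0 1 θ) • (ψ (circleMap 0 1 θ) : ℂ) =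
        (ψ (circleMap 0 1 θ) : ℂ) := by
      intro θ
      simp [herglotzRieszKernel_def]
    simp only [e]
    rw [intervalIntegral.integral_ofReal, Complex.real_smul, ← Complex.ofReal_mul,
      Complex.ofReal_im]
  · intro z hz
    have hz1 : ‖z‖ < 1 := mem_ball_zero_iff.1 hz
    have hz2 : 0 ≤ 1 - ‖z‖ ^ 2 := by nlinarith [norm_nonneg z]
    refine (mul_le_mul_of_nonneg_left (hnd z hz) hz2).trans ?_
    rw [hre _ (hrz1 z hz), ← mul_assoc, mul_left_comm, mul_left_comm 2]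
    apply mul_le_mul_of_nonneg_left _ (by positivity)
    rw [← intervalIntegral.integral_const_mul, ← intervalIntegral.integral_const_mul]
    apply intervalIntegral.integral_mono_on h2π.le
    · apply Continuous.intervalIntegrable
      apply Continuous.mul continuous_const
      apply Continuous.mul _ hψ
      apply Continuous.div (by fun_prop) (by fun_prop)
      intro x
      exact pow_ne_zero _ (norm_ne_zero_iff.2 (pt_one_sub_ne (hrz1 z hz) _))
    · exact (continuous_const.mul ((PK_cont (hrz1 z hz)).mul hψ)).intervalIntegrable _ _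
    · intro φ _
      have h1 : (1 - ‖z‖ ^ 2) * r ≤ 1 - ‖(r:ℂ) * z‖ ^ 2 := by
        rw [norm_mul, Complex.norm_real, Real.norm_eq_abs, abs_of_pos hr0, mul_pow]
        have : r ^ 2 * ‖z‖ ^ 2 ≤ ‖z‖ ^ 2 :=
          mul_le_of_le_one_left (by positivity) (by nlinarith)
        nlinarith
      have h0 := hψ0 φ
      have := mul_le_mul_of_nonneg_right h1
        (by positivity : 0 ≤ 2 / ‖pt (1, φ) - r * z‖ ^ 2 * ψ (pt (1, φ)))
      refine this.trans (le_of_eq ?_)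
      unfold PK
      ring
  · intro z hz
    refine (hnd z hz).trans ?_
    apply mul_le_mul_of_nonneg_left _ hr0.le
    apply mul_le_mul_of_nonneg_left _ (by positivity)
    apply intervalIntegral.integral_mono_on h2π.le
    · apply Continuous.intervalIntegrable
      apply Continuous.mul _ hψ
      apply Continuous.div (by fun_prop) (by fun_prop)
      intro x
      exact pow_ne_zero _ (norm_ne_zero_iff.2 (pt_one_sub_ne (hrz1 z hz) _))
    · exact (continuous_const.mul hψ).intervalIntegrable _ _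
    · intro φ _
      apply mul_le_mul_of_nonneg_right _ (hψ0 φ).le
      have : 0 < 1 - r := by linarith
      apply div_le_div_of_nonneg_left (by norm_num) (by positivity)
      exact pow_le_pow_left₀ this.le (hlow z hz φ) 2
  · intro z hz
    have h1 : ∫ φ in (0:ℝ)..2 * π, PK (r * z) φ * ψ (pt (1, φ)) ≤
        ∫ φ in (0:ℝ)..2 * π, PK (r * z) φ * 2 :=
      intervalIntegral.integral_mono_on h2π.le
        (((PK_cont (hrz1 z hz)).mul hψ).intervalIntegrable _ _)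
        (((PK_cont (hrz1 z hz)).mul continuous_const).intervalIntegrable _ _)
        (fun φ _ => mul_le_mul_of_nonneg_left (hψ2 φ) (PK_pos (hrz1 z hz) φ).le)
    rw [intervalIntegral.integral_mul_const, PK_int (hrz1 z hz)] at h1
    rw [hre _ (hrz1 z hz), inv_mul_le_iff₀ h2π]
    exact h1
  · intro k hk hint
    have hw : ∀ φ : ℝ, ‖(r:ℂ) * pt (1, φ)‖ < 1 := by
      intro φ
      rw [norm_mul, Complex.norm_real, Real.norm_eq_abs, abs_of_pos hr0, norm_pt]
      simpa using hr1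
    have e1 : ∀ z ∈ ball (0:ℂ) 1, k z * conj (deriv (fun z => h (r * z)) z) =
        (r / π : ℂ) * ∫ φ in (0:ℝ)..2 * π, ((ψ (pt (1, φ)) : ℂ) * pt (1, φ)) *
          (k z * ((1 - (r * pt (1, φ)) * conj z) ^ 2)⁻¹) := by
      intro z hz
      rw [(hd z hz).deriv, map_mul, Complex.real_smul, map_mul, Complex.conj_ofReal,
        Complex.conj_ofReal, ← intervalIntegral_conj']
      have e2 : ∀ φ : ℝ, ((ψ (pt (1, φ)) : ℂ) * pt (1, φ)) *
          (k z * ((1 - (r * pt (1, φ)) * conj z) ^ 2)⁻¹) = (k z / 2) *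
          conj ((2 * pt (1, φ) / (pt (1, φ) - r * z) ^ 2) * (ψ (pt (1, φ)) : ℂ)) := by
        intro φ
        have hc : pt (1, φ) * conj (pt (1, φ)) = 1 := by
          rw [Complex.mul_conj', norm_pt]; simp
        have hz0 : pt (1, φ) ≠ 0 := left_ne_zero_of_mul_eq_one hc
        have hc' : conj (pt (1, φ)) = (pt (1, φ))⁻¹ := eq_inv_of_mul_eq_one_right hc
        have hne : 1 - (r * pt (1, φ)) * conj z ≠ 0 := by
          have := one_sub_ne (r * pt (1, φ)) (mem_ball_zero_iff.1 hz).le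
          intro h0
          rw [h0, norm_zero] at this
          linarith [hw φ]
        simp only [map_mul, map_div₀, map_pow, map_sub, Complex.conj_ofReal, hc', map_ofNat]
        have e3 : (pt (1, φ))⁻¹ - r * conj z = (1 - (r * pt (1, φ)) * conj z) / pt (1, φ) := by
          field_simp
        rw [e3]
        field_simp
      simp only [e2]
      rw [intervalIntegral.integral_const_mul]
      have : (π:ℂ) ≠ 0 := Complex.ofReal_ne_zero.2 pi_ne_zero
      push_cast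
      field_simp
    rw [setIntegral_congr_fun measurableSet_ball e1, integral_const_mul,
      ← intervalIntegral_integral_swap]
    · simp only [integral_const_mul, bergman_repr hk hint (hw _)]
      have e4 : ∀ φ : ℝ, (ψ (pt (1, φ)) : ℂ) * pt (1, φ) * (π * k (r * pt (1, φ))) =
          π * ((ψ (pt (1, φ)) : ℂ) * (pt (1, φ) * k (r * pt (1, φ)))) := fun φ => by ring
      simp only [e4]
      rw [intervalIntegral.integral_const_mul]
      have : (π:ℂ) ≠ 0 := Complex.ofReal_ne_zero.2 pi_ne_zero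
      field_simp
    · have i1 : Integrable (fun x : ℝ × ℂ => ((ψ (pt (1, x.1)) : ℂ) * pt (1, x.1)) * k x.2)
          ((volume.restrict (uIoc (0:ℝ) (2 * π))).prod (volume.restrict (ball (0:ℂ) 1))) := by
        apply Integrable.mul_prod (f := fun φ : ℝ => (ψ (pt (1, φ)) : ℂ) * pt (1, φ)) _ hint
        exact intervalIntegrable_iff.1 ((hψc.mul (by fun_prop)).intervalIntegrable _ _)
      have i2 := i1.mul_bdd (g := fun x : ℝ × ℂ => ((1 - (r * pt (1, x.1)) * conj x.2) ^ 2)⁻¹)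
        (c := ((1 - r) ^ 2)⁻¹) ?_ ?_
      · refine i2.congr (Eventually.of_forall fun x => ?_)
        simp only [Function.uncurry]
        ring
      · apply Measurable.aestronglyMeasurable
        apply Measurable.inv
        apply Continuous.measurable
        fun_prop
      · rw [Measure.prod_restrict]
        filter_upwards [ae_restrict_mem (measurableSet_uIoc.prod measurableSet_ball)] with x hx
        have := norm_ker_le (hw x.1) (mem_ball_zero_iff.1 hx.2).le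
        rwa [norm_mul, Complex.norm_real, Real.norm_eq_abs, abs_of_pos hr0, norm_pt, abs_one,
          mul_one] at this

theorem main_estimate1 {p : ℝ} (hp : 1 < p) {F k : ℂ → ℂ}
    (hF : DifferentiableOn ℂ F (ball (0:ℂ) 1)) (hk : DifferentiableOn ℂ k (ball (0:ℂ) 1))
    (iF : IntegrableOn (fun z => ‖F z‖ ^ p) (ball (0:ℂ) 1)) (ik : IntegrableOn k (ball (0:ℂ) 1))
    (lam : ℝ)
    (hvar : ∀ (H : ℂ → ℂ) (M : ℝ), DifferentiableOn ℂ H (ball (0:ℂ) 1) →
      (∀ z ∈ ball (0:ℂ) 1, ‖H z‖ ≤ M) → ∫ z in ball (0:ℂ) 1, k z * conj (H z) =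
        lam * ∫ z in ball (0:ℂ) 1, ((‖F z‖ ^ (p - 2) : ℝ) : ℂ) * F z * conj (H z))
    {K : ℝ} (hK : ∀ r ∈ Ioo (0:ℝ) 1, ∫ θ in (0:ℝ)..2 * π, ‖F (pt (r, θ))‖ ^ (p - 1) ≤ K) :
    ∃ C : ℝ, ∀ r ∈ Ioo (0:ℝ) 1, ∫ θ in (0:ℝ)..2 * π, ‖k (pt (r, θ))‖ ≤ C := by
  have h2π : (0:ℝ) < 2 * π := by positivity
  obtain ⟨C0, hC0, hpair⟩ := pairing_bound1 (a := p - 1) (by linarith)
  obtain ⟨B, hB⟩ := (isCompact_closedBall (0:ℂ) (1 / 2)).exists_bound_of_continuousOn
    (hk.continuousOn.mono (closedBall_subset_ball (by norm_num)))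
  refine ⟨max (2 * π * B) (8 * (|lam| * (C0 * (K + 2 * π))) + 2 * π), ?_⟩
  intro r hr
  have hrabs : |r| < 1 := by rw [abs_of_pos hr.1]; exact hr.2
  have ck : Continuous (fun θ : ℝ => k (pt (r, θ))) :=
    cont_theta (contOn_comp_pt hk.continuousOn) hrabs
  rcases le_total r (1 / 2) with hr2 | hr2
  · refine le_trans ?_ (le_max_left _ _)
    have : ∫ θ in (0:ℝ)..2 * π, ‖k (pt (r, θ))‖ ≤ ∫ θ in (0:ℝ)..2 * π, B := by
      apply intervalIntegral.integral_mono_on h2π.le (ck.norm.intervalIntegrable _ _)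
        intervalIntegrable_const
      intro θ _
      apply hB
      rw [mem_closedBall_zero_iff, norm_pt, abs_of_pos hr.1]
      exact hr2
    simpa using this
  refine le_trans ?_ (le_max_right _ _)
  have e : ∀ θ, (r:ℂ) * pt (1, θ) = pt (r, θ) := by
    intro θ; simp only [pt_eq]; push_cast; ring
  set κ : ℂ → ℂ := fun ζ => ζ * k (r * ζ) with hκ
  have cκ : Continuous (fun θ : ℝ => κ (pt (1, θ))) := by
    simp only [hκ, e]
    exact (by fun_prop : Continuous (fun θ : ℝ => pt (1, θ))).mul ck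
  have nκ : ∀ θ, ‖κ (pt (1, θ))‖ = ‖k (pt (r, θ))‖ := by
    intro θ
    simp only [hκ, e]
    rw [norm_mul, norm_pt]; simp
  set c : ℂ → ℂ := fun ζ => (((‖κ ζ‖ + 1)⁻¹ : ℝ) : ℂ) * conj (κ ζ) with hc
  have cinv : Continuous (fun θ : ℝ => (‖κ (pt (1, θ))‖ + 1)⁻¹) :=
    (cκ.norm.add continuous_const).inv₀
      (fun θ => (by positivity : 0 < ‖κ (pt (1, θ))‖ + 1).ne')
  have cc : Continuous (fun θ : ℝ => c (pt (1, θ))) :=
    (Complex.continuous_ofReal.comp cinv).mul (Complex.continuous_conj.comp cκ)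
  have nc : ∀ θ, ‖c (pt (1, θ))‖ ≤ 1 := by
    intro θ
    simp only [hc]
    rw [norm_mul, Complex.norm_conj, Complex.norm_real, Real.norm_eq_abs,
      abs_of_pos (by positivity), inv_mul_le_iff₀ (by positivity)]
    linarith
  have cψ : ∀ u : ℂ, Continuous (fun θ : ℝ => max (u * c (pt (1, θ))).re 0 + 1) := fun u =>
    ((Complex.continuous_re.comp (continuous_const.mul cc)).max continuous_const).add
      continuous_const
  have key : ∀ u : ℂ, ‖u‖ = 1 → r * ‖∫ θ in (0:ℝ)..2 * π,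
      ((max (u * c (pt (1, θ))).re 0 + 1 : ℝ) : ℂ) * κ (pt (1, θ))‖ ≤
      |lam| * (C0 * (K + 2 * π)) := by
    intro u hu
    obtain ⟨g, M', g1, g2, -, g4, g5, g6, g7⟩ := herglotz1
      (ψ := fun ζ => max (u * c ζ).re 0 + 1) (cψ u) (fun θ => by positivity) (fun θ => by
        have f1 : max (u * c (pt (1, θ))).re 0 ≤ 1 := by
          apply max_le _ zero_le_one
          refine (Complex.re_le_norm _).trans ?_
          rw [norm_mul, hu, one_mul]
          exact nc θ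
        linarith) hr.1 hr.2
    have h1 := g7 k hk ik
    rw [hvar (deriv g) M' (diffOn_deriv g1) g5] at h1
    have h2 := hpair F g K M' hF g1 g2 g6 g4 g5 (by simpa using iF) hK
    have h3 := congrArg norm h1
    rw [norm_mul, norm_mul, Complex.norm_real, Complex.norm_real, Real.norm_eq_abs,
      Real.norm_eq_abs, abs_of_pos hr.1] at h3
    rw [show p - 1 - 1 = p - 2 by ring] at h2
    simp only [hκ]
    rw [← h3]
    exact mul_le_mul_of_nonneg_left h2 (abs_nonneg _)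
  have j : ∀ u : ℂ, IntervalIntegrable (fun θ : ℝ =>
      ((max (u * c (pt (1, θ))).re 0 + 1 : ℝ) : ℂ) * κ (pt (1, θ))) volume 0 (2 * π) := fun u =>
    ((Complex.continuous_ofReal.comp (cψ u)).mul cκ).intervalIntegrable _ _
  set M := ∫ θ in (0:ℝ)..2 * π, (‖κ (pt (1, θ))‖ + 1)⁻¹ * ‖κ (pt (1, θ))‖ ^ 2 with hM
  have hM0 : 0 ≤ M := intervalIntegral.integral_nonneg h2π.le (fun θ _ => by positivity)
  have hsum : ((M : ℝ) : ℂ) =
      (∫ θ in (0:ℝ)..2 * π, ((max (1 * c (pt (1, θ))).re 0 + 1 : ℝ) : ℂ) * κ (pt (1, θ)))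
      - (∫ θ in (0:ℝ)..2 * π, ((max (-1 * c (pt (1, θ))).re 0 + 1 : ℝ) : ℂ) * κ (pt (1, θ)))
      + Complex.I * (∫ θ in (0:ℝ)..2 * π,
          ((max (-Complex.I * c (pt (1, θ))).re 0 + 1 : ℝ) : ℂ) * κ (pt (1, θ)))
      - Complex.I * (∫ θ in (0:ℝ)..2 * π,
          ((max (Complex.I * c (pt (1, θ))).re 0 + 1 : ℝ) : ℂ) * κ (pt (1, θ))) := by
    rw [← intervalIntegral.integral_const_mul Complex.I,
      ← intervalIntegral.integral_const_mul Complex.I,
      ← intervalIntegral.integral_sub (j _) (j _),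
      ← intervalIntegral.integral_add ((j _).sub (j _)) ((j _).const_mul _),
      ← intervalIntegral.integral_sub (((j _).sub (j _)).add ((j _).const_mul _))
        ((j _).const_mul _), hM, ← intervalIntegral.integral_ofReal]
    congr 1
    ext θ
    have f1 := four_parts (c (pt (1, θ)))
    have f2 : c (pt (1, θ)) * κ (pt (1, θ)) =
        (((‖κ (pt (1, θ))‖ + 1)⁻¹ * ‖κ (pt (1, θ))‖ ^ 2 : ℝ) : ℂ) := by
      simp only [hc]
      rw [mul_assoc, Complex.conj_mul']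
      push_cast; ring
    rw [← f2]
    linear_combination (- κ (pt (1, θ))) * f1
  have hn := congrArg norm hsum
  rw [Complex.norm_real, Real.norm_eq_abs, abs_of_nonneg hM0] at hn
  have k1 := key 1 (by simp)
  have k2 := key (-1) (by simp)
  have k3 := key (-Complex.I) (by simp)
  have k4 := key Complex.I (by simp)
  generalize (∫ θ in (0:ℝ)..2 * π,
    ((max (1 * c (pt (1, θ))).re 0 + 1 : ℝ) : ℂ) * κ (pt (1, θ))) = I1 at *
  generalize (∫ θ in (0:ℝ)..2 * π,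
    ((max (-1 * c (pt (1, θ))).re 0 + 1 : ℝ) : ℂ) * κ (pt (1, θ))) = I2 at *
  generalize (∫ θ in (0:ℝ)..2 * π,
    ((max (-Complex.I * c (pt (1, θ))).re 0 + 1 : ℝ) : ℂ) * κ (pt (1, θ))) = I3 at *
  generalize (∫ θ in (0:ℝ)..2 * π,
    ((max (Complex.I * c (pt (1, θ))).re 0 + 1 : ℝ) : ℂ) * κ (pt (1, θ))) = I4 at *
  have h5 : M ≤ ‖I1‖ + ‖I2‖ + ‖I3‖ + ‖I4‖ := by
    rw [hn]
    have a1 := norm_sub_le (I1 - I2 + Complex.I * I3) (Complex.I * I4)
    have a2 := norm_add_le (I1 - I2) (Complex.I * I3)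
    have a3 := norm_sub_le I1 I2
    rw [norm_mul, Complex.norm_I, one_mul] at a1 a2
    linarith
  have h6 := mul_le_mul_of_nonneg_left h5 hr.1.le
  have h8 := mul_le_mul_of_nonneg_right hr2 hM0
  have i2 : IntervalIntegrable (fun θ : ℝ => (‖κ (pt (1, θ))‖ + 1)⁻¹ * ‖κ (pt (1, θ))‖ ^ 2)
      volume 0 (2 * π) := (cinv.mul (cκ.norm.pow 2)).intervalIntegrable _ _
  have h9 : ∫ θ in (0:ℝ)..2 * π, ‖k (pt (r, θ))‖ ≤
      ∫ θ in (0:ℝ)..2 * π, ((‖κ (pt (1, θ))‖ + 1)⁻¹ * ‖κ (pt (1, θ))‖ ^ 2 + 1) := by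
    apply intervalIntegral.integral_mono_on h2π.le (ck.norm.intervalIntegrable _ _)
      (i2.add intervalIntegrable_const)
    intro θ _
    rw [← nκ, ← sub_le_iff_le_add, le_inv_mul_iff₀ (by positivity)]
    nlinarith
  rw [intervalIntegral.integral_add i2 intervalIntegrable_const, ← hM] at h9
  simp only [intervalIntegral.integral_const, sub_zero, smul_eq_mul, mul_one] at h9
  linarith

end Pool.Agent.Lib.MP_397fae_an.EndOne
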