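import Pool.Agent.Lib.MP_397fae_an.Bergman

/-!
Herglotz integrals of positive continuous functions on the circle.
-/

open Set Real MeasureTheory Filter Topology Metric
open scoped ComplexConjugate

namespace Pool.Agent.Lib.MP_397fae_an

lemma pt_one_sub_ne {w : ℂ} (hw : ‖w‖ < 1) (φ : ℝ) : pt (1, φ) - w ≠ 0 := by
  intro h
  rw [sub_eq_zero] at h
  rw [← h, norm_pt] at hw
  simp at hw

/-- The Poisson kernel of the unit disc. -/
noncomputable def PK (w : ℂ) (φ : ℝ) : ℝ := (1 - ‖w‖ ^ 2) / ‖pt (1, φ) - w‖ ^ 2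

lemma PK_pos {w : ℂ} (hw : ‖w‖ < 1) (φ : ℝ) : 0 < PK w φ := by
  have h1 := norm_pos_iff.2 (pt_one_sub_ne hw φ)
  have h2 : 0 < 1 - ‖w‖ ^ 2 := by nlinarith [norm_nonneg w]
  unfold PK; positivity

lemma PK_cont {w : ℂ} (hw : ‖w‖ < 1) : Continuous (PK w) := by
  unfold PK
  apply Continuous.div continuous_const (by fun_prop)
  intro φ
  exact pow_ne_zero _ (norm_ne_zero_iff.2 (pt_one_sub_ne hw φ))

lemma PK_eq (w : ℂ) (φ : ℝ) : (herglotzRieszKernel 0 w (pt (1, φ))).re = PK w φ := by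
  have := congrFun (poissonKernel_eq_re_herglotzRieszKernel (c := 0) (w := w)) (pt (1, φ))
  rw [Function.comp_apply] at this
  rw [← this, poissonKernel_def, PK]
  simp [norm_pt]

lemma PK_int {w : ℂ} (hw : ‖w‖ < 1) : ∫ φ in (0:ℝ)..2 * π, PK w φ = 2 * π := by
  have h := DiffContOnCl.circleAverage_re_herglotzRieszKernel_smul (f := fun _ => (1:ℂ)) (c := 0)
    (R := 1) (w := w) diffContOnCl_const (mem_ball_zero_iff.2 hw)
  rw [circleAverage_def] at h
  have e : ∀ θ : ℝ, ((Complex.re ∘ herglotzRieszKernel 0 w) • fun _ : ℂ => (1:ℂ))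
      (circleMap 0 1 θ) = ((PK w θ : ℝ) : ℂ) := by
    intro θ
    rw [← PK_eq]
    simp [pt]
  simp only [e] at h
  rw [intervalIntegral.integral_ofReal, Complex.real_smul, ← Complex.ofReal_mul,
    Complex.ofReal_eq_one] at h
  have : (0:ℝ) < 2 * π := by positivity
  field_simp at h
  exact h

lemma PK_symm (R θ φ : ℝ) : PK (pt (R, θ)) φ = PK (pt (R, φ)) θ := by
  unfold PK
  rw [norm_pt, norm_pt]
  congr 1
  simp only [pt_eq, Complex.sq_norm, Complex.normSq_apply, Complex.exp_mul_I]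
  simp [Complex.cos_ofReal_re, Complex.sin_ofReal_re]
  linear_combination (R ^ 2 - 1) * sin_sq_add_cos_sq θ - (R ^ 2 - 1) * sin_sq_add_cos_sq φ

lemma jensen_PK {ψ : ℝ → ℝ} (hψ : Continuous ψ) (hψ0 : ∀ φ, 0 < ψ φ) {w : ℂ} (hw : ‖w‖ < 1)
    {t : ℝ} (ht : 1 < t) :
    ((2 * π)⁻¹ * ∫ φ in (0:ℝ)..2 * π, PK w φ * ψ φ) ^ t ≤
      (2 * π)⁻¹ * ∫ φ in (0:ℝ)..2 * π, PK w φ * ψ φ ^ t := by
  set c := (2 * π)⁻¹ * ∫ φ in (0:ℝ)..2 * π, PK w φ * ψ φ with hc
  have h2π : (0:ℝ) < 2 * π := by positivity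
  have hc0 : 0 < c := by
    apply mul_pos (by positivity)
    exact intervalIntegral.intervalIntegral_pos_of_pos
      (((PK_cont hw).mul hψ).intervalIntegrable _ _) (fun φ => mul_pos (PK_pos hw φ) (hψ0 φ)) h2π
  have hB : ∀ φ, c ^ t + t * c ^ (t - 1) * (ψ φ - c) ≤ ψ φ ^ t := by
    intro φ
    have h0 := hψ0 φ
    have h1 := one_add_mul_self_le_rpow_one_add (s := ψ φ / c - 1)
      (by have : 0 < ψ φ / c := by positivity
          linarith) ht.le
    rw [add_sub_cancel, Real.div_rpow h0.le hc0.le, le_div_iff₀ (by positivity)] at h1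
    refine le_trans (le_of_eq ?_) h1
    rw [Real.rpow_sub_one hc0.ne']
    field_simp
  have hψt : Continuous (fun φ => ψ φ ^ t) := hψ.rpow_const (fun _ => Or.inr (by linarith))
  have i1 := (PK_cont hw).intervalIntegrable (μ := volume) 0 (2 * π)
  have i2 := ((PK_cont hw).fun_mul hψ).intervalIntegrable (μ := volume) 0 (2 * π)
  have h3 : ∫ φ in (0:ℝ)..2 * π, ((c ^ t - t * c ^ (t - 1) * c) * PK w φ +
      t * c ^ (t - 1) * (PK w φ * ψ φ)) ≤ ∫ φ in (0:ℝ)..2 * π, PK w φ * ψ φ ^ t := by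
    apply intervalIntegral.integral_mono_on h2π.le ((i1.const_mul _).add (i2.const_mul _))
      (((PK_cont hw).fun_mul hψt).intervalIntegrable _ _)
    intro φ _
    have := mul_le_mul_of_nonneg_left (hB φ) (PK_pos hw φ).le
    linarith
  rw [intervalIntegral.integral_add (i1.const_mul _) (i2.const_mul _),
    intervalIntegral.integral_const_mul, intervalIntegral.integral_const_mul, PK_int hw] at h3
  have h4 : ∫ φ in (0:ℝ)..2 * π, PK w φ * ψ φ = 2 * π * c := by
    rw [hc]; field_simp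
  rw [h4] at h3
  rw [le_inv_mul_iff₀ h2π]
  linarith

lemma mean_PK {u : ℝ → ℝ} (hu : Continuous u) {R : ℝ} (hR : |R| < 1) :
    ∫ θ in (0:ℝ)..2 * π, ((2 * π)⁻¹ * ∫ φ in (0:ℝ)..2 * π, PK (pt (R, θ)) φ * u φ) =
      ∫ φ in (0:ℝ)..2 * π, u φ := by
  have hn : ∀ θ, ‖pt (R, θ)‖ < 1 := fun θ => by rw [norm_pt]; exact hR
  rw [intervalIntegral.integral_const_mul, intervalIntegral_intervalIntegral_swap]
  · simp only [intervalIntegral.integral_mul_const, PK_symm R _, PK_int (hn _)]
    rw [intervalIntegral.integral_const_mul]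
    field_simp
  · have hc : Continuous (Function.uncurry fun θ φ => PK (pt (R, θ)) φ * u φ) := by
      unfold PK
      apply Continuous.mul _ (by fun_prop)
      apply Continuous.div (by fun_prop) (by fun_prop)
      intro x
      exact pow_ne_zero _ (norm_ne_zero_iff.2 (pt_one_sub_ne (hn _) _))
    exact (hc.continuousOn.integrableOn_compact (isCompact_uIcc.prod isCompact_uIcc)).mono_set
      (prod_mono uIoc_subset_uIcc uIoc_subset_uIcc)

lemma intervalIntegral_conj' (f : ℝ → ℂ) (a b : ℝ) :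
    ∫ x in a..b, conj (f x) = conj (∫ x in a..b, f x) := by
  simp only [intervalIntegral, integral_conj, map_sub]

theorem herglotz_exists {ψ : ℂ → ℝ} (hψ : Continuous (fun θ : ℝ => ψ (pt (1, θ))))
    (hψ0 : ∀ θ : ℝ, 0 < ψ (pt (1, θ))) {r t : ℝ} (hr0 : 0 < r) (hr1 : r < 1) (ht : 1 < t) :
    ∃ (g : ℂ → ℂ) (M : ℝ), DifferentiableOn ℂ g (ball (0:ℂ) 1) ∧
      (∀ z ∈ ball (0:ℂ) 1, 0 < (g z).re) ∧ (g 0).im = 0 ∧
      (∀ z ∈ ball (0:ℂ) 1, (1 - ‖z‖ ^ 2) * ‖deriv g z‖ ≤ 2 * (g z).re) ∧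
      (∀ z ∈ ball (0:ℂ) 1, ‖deriv g z‖ ≤ M) ∧
      (∀ ρ ∈ Ioo (0:ℝ) 1, ∫ θ in (0:ℝ)..2 * π, (g (pt (ρ, θ))).re ^ t ≤
        ∫ θ in (0:ℝ)..2 * π, ψ (pt (1, θ)) ^ t) ∧
      ∀ k : ℂ → ℂ, DifferentiableOn ℂ k (ball (0:ℂ) 1) → IntegrableOn k (ball (0:ℂ) 1) →
        ∫ z in ball (0:ℂ) 1, k z * conj (deriv g z) =
          r * ∫ θ in (0:ℝ)..2 * π, (ψ (pt (1, θ)) : ℂ) * (pt (1, θ) * k (r * pt (1, θ))) := by
  have hci : CircleIntegrable ψ 0 1 := hψ.intervalIntegrable _ _
  have hψc : Continuous (fun θ : ℝ => (ψ (pt (1, θ)) : ℂ)) := Complex.continuous_ofReal.comp hψ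
  have hci' : CircleIntegrable (fun z => (ψ z : ℂ)) 0 1 := hψc.intervalIntegrable _ _
  set h : ℂ → ℂ := fun w => circleAverage (fun ζ => herglotzRieszKernel 0 w ζ • (ψ ζ : ℂ)) 0 1
    with hh
  have hrz : ∀ z ∈ ball (0:ℂ) 1, ‖(r:ℂ) * z‖ ≤ r := by
    intro z hz
    rw [norm_mul, Complex.norm_real, Real.norm_eq_abs, abs_of_pos hr0]
    exact mul_le_of_le_one_right hr0.le (mem_ball_zero_iff.1 hz).le
  have hrz1 : ∀ z ∈ ball (0:ℂ) 1, ‖(r:ℂ) * z‖ < 1 := fun z hz => (hrz z hz).trans_lt hr1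
  have hd : ∀ z ∈ ball (0:ℂ) 1, HasDerivAt (fun z => h (r * z))
      (r * ((2 * π : ℝ)⁻¹ • ∫ φ in (0:ℝ)..2 * π,
        (2 * pt (1, φ) / (pt (1, φ) - r * z) ^ 2) * (ψ (pt (1, φ)) : ℂ))) z := by
    intro z hz
    have h1 := hasDerivAt_circleAverage_herglotzRieszKernel_smul hci'
      (mem_ball_zero_iff.2 (hrz1 z hz))
    have h2 := h1.comp z ((hasDerivAt_id' z).const_mul (r:ℂ))
    rw [mul_one, mul_comm] at h2
    exact h2
  have hre : ∀ w : ℂ, ‖w‖ < 1 → (h w).re =
      (2 * π)⁻¹ * ∫ φ in (0:ℝ)..2 * π, PK w φ * ψ (pt (1, φ)) := by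
    intro w hw
    rw [hh]
    simp only
    rw [re_circleAverage_herglotzRieszKernel_smul hci (mem_ball_zero_iff.2 hw), circleAverage_def,
      smul_eq_mul]
    congr 2
    ext φ
    rw [← PK_eq]
    simp [pt]
  have h2π : (0:ℝ) < 2 * π := by positivity
  have hnd : ∀ z ∈ ball (0:ℂ) 1, ‖deriv (fun z => h (r * z)) z‖ ≤
      r * ((2 * π)⁻¹ * ∫ φ in (0:ℝ)..2 * π, 2 / ‖pt (1, φ) - r * z‖ ^ 2 * ψ (pt (1, φ))) := by
    intro z hz
    rw [(hd z hz).deriv, norm_mul, norm_smul, Complex.norm_real, Real.norm_eq_abs,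
      Real.norm_eq_abs, abs_of_pos hr0, abs_of_pos (by positivity)]
    apply mul_le_mul_of_nonneg_left _ hr0.le
    apply mul_le_mul_of_nonneg_left _ (by positivity)
    apply intervalIntegral.norm_integral_le_of_norm_le h2π.le
    · filter_upwards with φ _
      rw [norm_mul, norm_div, norm_mul, norm_pt, norm_pow, Complex.norm_real, Real.norm_eq_abs,
        abs_of_pos (hψ0 φ)]
      simp
    · apply Continuous.intervalIntegrable
      apply Continuous.mul _ hψ
      apply Continuous.div (by fun_prop) (by fun_prop)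
      intro x
      exact pow_ne_zero _ (norm_ne_zero_iff.2 (pt_one_sub_ne (hrz1 z hz) _))
  have hlow : ∀ z ∈ ball (0:ℂ) 1, ∀ φ : ℝ, 1 - r ≤ ‖pt (1, φ) - r * z‖ := by
    intro z hz φ
    have h1 := norm_sub_norm_le (pt (1, φ)) (r * z)
    rw [norm_pt, abs_one] at h1
    linarith [hrz z hz]
  refine ⟨fun z => h (r * z), r * ((2 * π)⁻¹ * ∫ φ in (0:ℝ)..2 * π,
    2 / (1 - r) ^ 2 * ψ (pt (1, φ))), ?_, ?_, ?_, ?_, ?_, ?_, ?_⟩
  · exact fun z hz => (hd z hz).differentiableAt.differentiableWithinAt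
  · intro z hz
    rw [hre _ (hrz1 z hz)]
    apply mul_pos (by positivity)
    exact intervalIntegral.intervalIntegral_pos_of_pos
      (((PK_cont (hrz1 z hz)).mul hψ).intervalIntegrable _ _)
      (fun φ => mul_pos (PK_pos (hrz1 z hz) φ) (hψ0 φ)) h2π
  · simp only [mul_zero, hh]
    rw [circleAverage_def]
    have e : ∀ θ : ℝ, herglotzRieszKernel 0 0 (circleMap 0 1 θ) • (ψ (circleMap 0 1 θ) : ℂ) =
        (ψ (circleMap 0 1 θ) : ℂ) := by
      intro θ
      simp [herglotzRieszKernel_def]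
    simp only [e]
    rw [intervalIntegral.integral_ofReal, Complex.real_smul, ← Complex.ofReal_mul,
      Complex.ofReal_im]
  · intro z hz
    have hz1 : ‖z‖ < 1 := mem_ball_zero_iff.1 hz
    have hz2 : 0 ≤ 1 - ‖z‖ ^ 2 := by nlinarith [norm_nonneg z]
    refine (mul_le_mul_of_nonneg_left (hnd z hz) hz2).trans ?_
    rw [hre _ (hrz1 z hz), ← mul_assoc, mul_left_comm, mul_left_comm 2]
    apply mul_le_mul_of_nonneg_left _ (by positivity)
    rw [← intervalIntegral.integral_const_mul, ← intervalIntegral.integral_const_mul]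
    apply intervalIntegral.integral_mono_on h2π.le
    · apply Continuous.intervalIntegrable
      apply Continuous.mul continuous_const
      apply Continuous.mul _ hψ
      apply Continuous.div (by fun_prop) (by fun_prop)
      intro x
      exact pow_ne_zero _ (norm_ne_zero_iff.2 (pt_one_sub_ne (hrz1 z hz) _))
    · exact (continuous_const.mul ((PK_cont (hrz1 z hz)).mul hψ)).intervalIntegrable _ _
    · intro φ _
      have h1 : (1 - ‖z‖ ^ 2) * r ≤ 1 - ‖(r:ℂ) * z‖ ^ 2 := by
        rw [norm_mul, Complex.norm_real, Real.norm_eq_abs, abs_of_pos hr0, mul_pow]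
        have : r ^ 2 * ‖z‖ ^ 2 ≤ ‖z‖ ^ 2 :=
          mul_le_of_le_one_left (by positivity) (by nlinarith)
        nlinarith
      have h0 := hψ0 φ
      have := mul_le_mul_of_nonneg_right h1
        (by positivity : 0 ≤ 2 / ‖pt (1, φ) - r * z‖ ^ 2 * ψ (pt (1, φ)))
      refine this.trans (le_of_eq ?_)
      unfold PK
      ring
  · intro z hz
    refine (hnd z hz).trans ?_
    apply mul_le_mul_of_nonneg_left _ hr0.le
    apply mul_le_mul_of_nonneg_left _ (by positivity)
    apply intervalIntegral.integral_mono_on h2π.le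
    · apply Continuous.intervalIntegrable
      apply Continuous.mul _ hψ
      apply Continuous.div (by fun_prop) (by fun_prop)
      intro x
      exact pow_ne_zero _ (norm_ne_zero_iff.2 (pt_one_sub_ne (hrz1 z hz) _))
    · exact (continuous_const.mul hψ).intervalIntegrable _ _
    · intro φ _
      apply mul_le_mul_of_nonneg_right _ (hψ0 φ).le
      have : 0 < 1 - r := by linarith
      apply div_le_div_of_nonneg_left (by norm_num) (by positivity)
      exact pow_le_pow_left₀ this.le (hlow z hz φ) 2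
  · intro ρ hρ
    have hρ1 : |ρ| < 1 := by rw [abs_of_pos hρ.1]; exact hρ.2
    have hR : |r * ρ| < 1 := by
      rw [abs_of_pos (mul_pos hr0 hρ.1)]; nlinarith [hρ.1, hρ.2]
    have e : ∀ θ, (r:ℂ) * pt (ρ, θ) = pt (r * ρ, θ) := by
      intro θ; simp only [pt_eq]; push_cast; ring
    have hn : ∀ θ, ‖pt (r * ρ, θ)‖ < 1 := fun θ => by rw [norm_pt]; exact hR
    have hψt : Continuous (fun φ => ψ (pt (1, φ)) ^ t) :=
      hψ.rpow_const (fun _ => Or.inr (by linarith))
    rw [← mean_PK hψt hR]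
    apply intervalIntegral.integral_mono_on h2π.le
    · apply Continuous.intervalIntegrable
      apply Continuous.rpow_const _ (fun _ => Or.inr (by linarith))
      apply Complex.continuous_re.comp
      have : ContinuousOn (fun z => h (r * z)) (ball (0:ℂ) 1) :=
        fun z hz => (hd z hz).continuousAt.continuousWithinAt
      exact cont_theta (contOn_comp_pt this) hρ1
    · apply Continuous.intervalIntegrable
      apply Continuous.mul continuous_const
      apply intervalIntegral.continuous_parametric_intervalIntegral_of_continuous'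
      unfold PK
      apply Continuous.mul _ (hψt.comp continuous_snd)
      apply Continuous.div (by fun_prop) (by fun_prop)
      intro x
      exact pow_ne_zero _ (norm_ne_zero_iff.2 (pt_one_sub_ne (hn _) _))
    · intro θ _
      simp only [e]
      rw [hre _ (hn θ)]
      exact jensen_PK hψ hψ0 (hn θ) ht
  · intro k hk hint
    have hw : ∀ φ : ℝ, ‖(r:ℂ) * pt (1, φ)‖ < 1 := by
      intro φ
      rw [norm_mul, Complex.norm_real, Real.norm_eq_abs, abs_of_pos hr0, norm_pt]
      simpa using hr1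
    have e1 : ∀ z ∈ ball (0:ℂ) 1, k z * conj (deriv (fun z => h (r * z)) z) =
        (r / π : ℂ) * ∫ φ in (0:ℝ)..2 * π, ((ψ (pt (1, φ)) : ℂ) * pt (1, φ)) *
          (k z * ((1 - (r * pt (1, φ)) * conj z) ^ 2)⁻¹) := by
      intro z hz
      rw [(hd z hz).deriv, map_mul, Complex.real_smul, map_mul, Complex.conj_ofReal,
        Complex.conj_ofReal, ← intervalIntegral_conj']
      have e2 : ∀ φ : ℝ, ((ψ (pt (1, φ)) : ℂ) * pt (1, φ)) *
          (k z * ((1 - (r * pt (1, φ)) * conj z) ^ 2)⁻¹) = (k z / 2) *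
          conj ((2 * pt (1, φ) / (pt (1, φ) - r * z) ^ 2) * (ψ (pt (1, φ)) : ℂ)) := by
        intro φ
        have hc : pt (1, φ) * conj (pt (1, φ)) = 1 := by
          rw [Complex.mul_conj', norm_pt]; simp
        have hz0 : pt (1, φ) ≠ 0 := left_ne_zero_of_mul_eq_one hc
        have hc' : conj (pt (1, φ)) = (pt (1, φ))⁻¹ := eq_inv_of_mul_eq_one_right hc
        have hne : 1 - (r * pt (1, φ)) * conj z ≠ 0 := by
          have := one_sub_ne (r * pt (1, φ)) (mem_ball_zero_iff.1 hz).le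
          intro h0
          rw [h0, norm_zero] at this
          linarith [hw φ]
        simp only [map_mul, map_div₀, map_pow, map_sub, Complex.conj_ofReal, hc', map_ofNat]
        have e3 : (pt (1, φ))⁻¹ - r * conj z = (1 - (r * pt (1, φ)) * conj z) / pt (1, φ) := by
          field_simp
        rw [e3]
        field_simp
      simp only [e2]
      rw [intervalIntegral.integral_const_mul]
      have : (π:ℂ) ≠ 0 := Complex.ofReal_ne_zero.2 pi_ne_zero
      push_cast
      field_simp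
    rw [setIntegral_congr_fun measurableSet_ball e1, integral_const_mul,
      ← intervalIntegral_integral_swap]
    · simp only [integral_const_mul, bergman_repr hk hint (hw _)]
      have e4 : ∀ φ : ℝ, (ψ (pt (1, φ)) : ℂ) * pt (1, φ) * (π * k (r * pt (1, φ))) =
          π * ((ψ (pt (1, φ)) : ℂ) * (pt (1, φ) * k (r * pt (1, φ)))) := fun φ => by ring
      simp only [e4]
      rw [intervalIntegral.integral_const_mul]
      have : (π:ℂ) ≠ 0 := Complex.ofReal_ne_zero.2 pi_ne_zero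
      field_simp
    · have i1 : Integrable (fun x : ℝ × ℂ => ((ψ (pt (1, x.1)) : ℂ) * pt (1, x.1)) * k x.2)
          ((volume.restrict (uIoc (0:ℝ) (2 * π))).prod (volume.restrict (ball (0:ℂ) 1))) := by
        apply Integrable.mul_prod (f := fun φ : ℝ => (ψ (pt (1, φ)) : ℂ) * pt (1, φ)) _ hint
        exact intervalIntegrable_iff.1 ((hψc.mul (by fun_prop)).intervalIntegrable _ _)
      have i2 := i1.mul_bdd (g := fun x : ℝ × ℂ => ((1 - (r * pt (1, x.1)) * conj x.2) ^ 2)⁻¹)
        (c := ((1 - r) ^ 2)⁻¹) ?_ ?_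
      · refine i2.congr (Eventually.of_forall fun x => ?_)
        simp only [Function.uncurry]
        ring
      · apply Measurable.aestronglyMeasurable
        apply Measurable.inv
        apply Continuous.measurable
        fun_prop
      · rw [Measure.prod_restrict]
        filter_upwards [ae_restrict_mem (measurableSet_uIoc.prod measurableSet_ball)] with x hx
        have := norm_ker_le (hw x.1) (mem_ball_zero_iff.1 hx.2).le
        rwa [norm_mul, Complex.norm_real, Real.norm_eq_abs, abs_of_pos hr0, norm_pt, abs_one,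
          mul_one] at this

end Pool.Agent.Lib.MP_397fae_an
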