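import Mathlib

/-!
Polar second order jets and a Green type inequality on discs.
-/

open Set Real MeasureTheory Filter Topology

namespace Pool.Agent.Lib.MP_397fae_an

/-- The strip of polar parameters `(r, θ)` with `|r| < 1`. -/
def Strip : Set (ℝ × ℝ) := {x | |x.1| < 1}

lemma isOpen_strip : IsOpen Strip := isOpen_lt (by fun_prop) continuous_const

lemma cont_theta {E : Type*} [TopologicalSpace E] {q : ℝ × ℝ → E} (hq : ContinuousOn q Strip)
    {r : ℝ} (hr : |r| < 1) : Continuous (fun θ : ℝ => q (r, θ)) := by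
  rw [← continuousOn_univ]
  exact hq.comp (by fun_prop) (fun θ _ => hr)

lemma contOn_thetaInt {E : Type*} [NormedAddCommGroup E] [NormedSpace ℝ E]
    {q : ℝ × ℝ → E} (hq : ContinuousOn q Strip) :
    ContinuousOn (fun r : ℝ => ∫ θ in (0:ℝ)..2 * π, q (r, θ)) {r | |r| < 1} := by
  rw [continuousOn_iff_continuous_domRestrict] at *
  apply intervalIntegral.continuous_parametric_intervalIntegral_of_continuous'
    (f := fun (r : {r : ℝ | |r| < 1}) (θ : ℝ) => q (r, θ))
  have (x : {r : ℝ | |r| < 1} × ℝ) : ((x.1 : ℝ), x.2) ∈ Strip := x.1.2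
  exact hq.comp (f := fun x : {r : ℝ | |r| < 1} × ℝ => (⟨((x.1 : ℝ), x.2), this x⟩ : Strip))
    (by fun_prop)

lemma hasDerivAt_thetaInt {E : Type*} [NormedAddCommGroup E] [NormedSpace ℝ E]
    {q qr : ℝ × ℝ → E} (hq : ContinuousOn q Strip) (hqr : ContinuousOn qr Strip)
    (hd : ∀ x ∈ Strip, HasDerivAt (fun r => q (r, x.2)) (qr x) x.1) {r : ℝ} (hr : |r| < 1) :
    HasDerivAt (fun r : ℝ => ∫ θ in (0:ℝ)..2 * π, q (r, θ))
      (∫ θ in (0:ℝ)..2 * π, qr (r, θ)) r := by
  set d : ℝ := (1 - |r|) / 2 with hd_def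
  have hd0 : 0 < d := by rw [hd_def]; linarith
  have hin : ∀ x ∈ Metric.closedBall r d, |x| < 1 := by
    intro x hx
    have h1 : |x - r| ≤ d := by simpa [Real.dist_eq] using hx
    have h2 : |x| ≤ |x - r| + |r| := by
      have := abs_add_le (x - r) r
      simpa using this
    rw [hd_def] at h1; linarith
  have hK : IsCompact (Metric.closedBall r d ×ˢ uIcc (0:ℝ) (2 * π)) :=
    (isCompact_closedBall r d).prod isCompact_uIcc
  have hsub : Metric.closedBall r d ×ˢ uIcc (0:ℝ) (2 * π) ⊆ Strip := fun x hx => hin _ hx.1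
  obtain ⟨C, hC⟩ := hK.exists_bound_of_continuousOn (hqr.mono hsub)
  refine (intervalIntegral.hasDerivAt_integral_of_dominated_loc_of_deriv_le
    (F := fun x θ => q (x, θ)) (F' := fun x θ => qr (x, θ)) (bound := fun _ => C)
    (Metric.closedBall_mem_nhds r hd0) ?_ ?_ ?_ ?_ ?_ ?_).2
  · filter_upwards [Metric.closedBall_mem_nhds r hd0] with x hx
    exact (cont_theta hq (hin x hx)).aestronglyMeasurable
  · exact (cont_theta hq hr).intervalIntegrable _ _
  · exact (cont_theta hqr hr).aestronglyMeasurable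
  · filter_upwards with θ hθ x hx
    exact hC (x, θ) ⟨hx, uIoc_subset_uIcc hθ⟩
  · exact intervalIntegrable_const
  · filter_upwards with θ _ x hx
    exact hd (x, θ) (hin x hx)

/-- A real function of the polar parameters together with its first and second partial
derivatives in each variable, all continuous, with periodic angular derivative. -/
structure PJet where
  q : ℝ × ℝ → ℝ
  qr : ℝ × ℝ → ℝ
  qrr : ℝ × ℝ → ℝ
  qt : ℝ × ℝ → ℝ
  qtt : ℝ × ℝ → ℝ
  c0 : ContinuousOn q Strip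
  c1 : ContinuousOn qr Strip
  c2 : ContinuousOn qrr Strip
  c3 : ContinuousOn qt Strip
  c4 : ContinuousOn qtt Strip
  dr : ∀ x ∈ Strip, HasDerivAt (fun r => q (r, x.2)) (qr x) x.1
  drr : ∀ x ∈ Strip, HasDerivAt (fun r => qr (r, x.2)) (qrr x) x.1
  dt : ∀ x ∈ Strip, HasDerivAt (fun θ => q (x.1, θ)) (qt x) x.2
  dtt : ∀ x ∈ Strip, HasDerivAt (fun θ => qt (x.1, θ)) (qtt x) x.2
  per0 : ∀ r, q (r, 2 * π) = q (r, 0)
  per1 : ∀ r, qt (r, 2 * π) = qt (r, 0)

namespace PJet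

/-- `r ^ 2` times the Laplacian. -/
def lap (J : PJet) (x : ℝ × ℝ) : ℝ := x.1 ^ 2 * J.qrr x + x.1 * J.qr x + J.qtt x

/-- Radial part of `r` times the gradient. -/
def g1 (J : PJet) (x : ℝ × ℝ) : ℝ := x.1 * J.qr x

def add (J K : PJet) : PJet where
  q := fun x => J.q x + K.q x
  qr := fun x => J.qr x + K.qr x
  qrr := fun x => J.qrr x + K.qrr x
  qt := fun x => J.qt x + K.qt x
  qtt := fun x => J.qtt x + K.qtt x
  c0 := J.c0.add K.c0
  c1 := J.c1.add K.c1
  c2 := J.c2.add K.c2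
  c3 := J.c3.add K.c3
  c4 := J.c4.add K.c4
  dr := fun x hx => (J.dr x hx).add (K.dr x hx)
  drr := fun x hx => (J.drr x hx).add (K.drr x hx)
  dt := fun x hx => (J.dt x hx).add (K.dt x hx)
  dtt := fun x hx => (J.dtt x hx).add (K.dtt x hx)
  per0 := fun r => by rw [J.per0, K.per0]
  per1 := fun r => by rw [J.per1, K.per1]

def smul (c : ℝ) (J : PJet) : PJet where
  q := fun x => c * J.q x
  qr := fun x => c * J.qr x
  qrr := fun x => c * J.qrr x
  qt := fun x => c * J.qt x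
  qtt := fun x => c * J.qtt x
  c0 := continuousOn_const.mul J.c0
  c1 := continuousOn_const.mul J.c1
  c2 := continuousOn_const.mul J.c2
  c3 := continuousOn_const.mul J.c3
  c4 := continuousOn_const.mul J.c4
  dr := fun x hx => (J.dr x hx).const_mul c
  drr := fun x hx => (J.drr x hx).const_mul c
  dt := fun x hx => (J.dt x hx).const_mul c
  dtt := fun x hx => (J.dtt x hx).const_mul c
  per0 := fun r => by rw [J.per0]
  per1 := fun r => by rw [J.per1]

noncomputable def exp (J : PJet) : PJet where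
  q := fun x => Real.exp (J.q x)
  qr := fun x => Real.exp (J.q x) * J.qr x
  qrr := fun x => Real.exp (J.q x) * J.qr x * J.qr x + Real.exp (J.q x) * J.qrr x
  qt := fun x => Real.exp (J.q x) * J.qt x
  qtt := fun x => Real.exp (J.q x) * J.qt x * J.qt x + Real.exp (J.q x) * J.qtt x
  c0 := J.c0.rexp
  c1 := J.c0.rexp.mul J.c1
  c2 := ((J.c0.rexp.mul J.c1).mul J.c1).add (J.c0.rexp.mul J.c2)
  c3 := J.c0.rexp.mul J.c3
  c4 := ((J.c0.rexp.mul J.c3).mul J.c3).add (J.c0.rexp.mul J.c4)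
  dr := fun x hx => (J.dr x hx).exp
  drr := fun x hx => (J.dr x hx).exp.mul (J.drr x hx)
  dt := fun x hx => (J.dt x hx).exp
  dtt := fun x hx => (J.dt x hx).exp.mul (J.dtt x hx)
  per0 := fun r => by rw [J.per0]
  per1 := fun r => by rw [J.per0, J.per1]

noncomputable def log (J : PJet) (h : ∀ x ∈ Strip, J.q x ≠ 0) : PJet where
  q := fun x => Real.log (J.q x)
  qr := fun x => J.qr x / J.q x
  qrr := fun x => (J.qrr x * J.q x - J.qr x * J.qr x) / J.q x ^ 2
  qt := fun x => J.qt x / J.q x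
  qtt := fun x => (J.qtt x * J.q x - J.qt x * J.qt x) / J.q x ^ 2
  c0 := J.c0.log h
  c1 := J.c1.div J.c0 h
  c2 := ((J.c2.mul J.c0).sub (J.c1.mul J.c1)).div (J.c0.pow 2) (fun x hx => pow_ne_zero 2 (h x hx))
  c3 := J.c3.div J.c0 h
  c4 := ((J.c4.mul J.c0).sub (J.c3.mul J.c3)).div (J.c0.pow 2) (fun x hx => pow_ne_zero 2 (h x hx))
  dr := fun x hx => (J.dr x hx).log (h x hx)
  drr := fun x hx => (J.drr x hx).div (J.dr x hx) (h x hx)
  dt := fun x hx => (J.dt x hx).log (h x hx)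
  dtt := fun x hx => (J.dtt x hx).div (J.dt x hx) (h x hx)
  per0 := fun r => by rw [J.per0]
  per1 := fun r => by rw [J.per0, J.per1]

lemma lap_add (J K : PJet) (x : ℝ × ℝ) : (J.add K).lap x = J.lap x + K.lap x := by
  simp only [lap, add]; ring

lemma lap_smul (c : ℝ) (J : PJet) (x : ℝ × ℝ) : (J.smul c).lap x = c * J.lap x := by
  simp only [lap, smul]; ring

lemma lap_exp (J : PJet) (x : ℝ × ℝ) :
    J.exp.lap x = Real.exp (J.q x) * (J.lap x + (J.g1 x ^ 2 + J.qt x ^ 2)) := by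
  simp only [lap, exp, g1]; ring

lemma lap_log (J : PJet) (h : ∀ x ∈ Strip, J.q x ≠ 0) (x : ℝ × ℝ) (hx : x ∈ Strip) :
    (J.log h).lap x = J.lap x / J.q x - (J.g1 x ^ 2 + J.qt x ^ 2) / J.q x ^ 2 := by
  have := h x hx
  simp only [lap, log, g1]; field_simp; ring

lemma g1_add (J K : PJet) (x : ℝ × ℝ) : (J.add K).g1 x = J.g1 x + K.g1 x := by
  simp only [g1, add]; ring

lemma g1_smul (c : ℝ) (J : PJet) (x : ℝ × ℝ) : (J.smul c).g1 x = c * J.g1 x := by
  simp only [g1, smul]; ring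

lemma g1_log (J : PJet) (h : ∀ x ∈ Strip, J.q x ≠ 0) (x : ℝ × ℝ) :
    (J.log h).g1 x = J.g1 x / J.q x := by
  simp only [g1, log]; ring

/-- Green type inequality. -/
theorem green (J : PJet) (E : ℝ × ℝ → ℝ) (hE : ContinuousOn E Strip)
    (hE0 : ∀ x ∈ Strip, 0 ≤ E x)
    (hle : ∀ x ∈ Strip, 0 < x.1 → E x ≤ J.lap x) {ρ : ℝ} (hρ0 : 0 < ρ) (hρ1 : ρ < 1) :
    ∫ r in (0:ℝ)..ρ, (ρ ^ 2 - r ^ 2) * ∫ θ in (0:ℝ)..2 * π, E (r, θ) ≤
      2 * ρ ^ 2 * ((∫ θ in (0:ℝ)..2 * π, J.q (ρ, θ)) - ∫ θ in (0:ℝ)..2 * π, J.q (0, θ)) := by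
  set m : ℝ → ℝ := fun r => ∫ θ in (0:ℝ)..2 * π, J.q (r, θ) with hm
  set m1 : ℝ → ℝ := fun r => ∫ θ in (0:ℝ)..2 * π, J.qr (r, θ) with hm1
  set m2 : ℝ → ℝ := fun r => ∫ θ in (0:ℝ)..2 * π, J.qrr (r, θ) with hm2
  set e : ℝ → ℝ := fun r => ∫ θ in (0:ℝ)..2 * π, E (r, θ) with he
  have habs : ∀ r ∈ uIcc (0:ℝ) ρ, |r| < 1 := by
    intro r hr
    rw [uIcc_of_le hρ0.le] at hr
    rw [abs_of_nonneg hr.1]; linarith [hr.2]
  have hdm : ∀ r, |r| < 1 → HasDerivAt m (m1 r) r := fun r hr =>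
    hasDerivAt_thetaInt J.c0 J.c1 J.dr hr
  have hdm1 : ∀ r, |r| < 1 → HasDerivAt m1 (m2 r) r := fun r hr =>
    hasDerivAt_thetaInt J.c1 J.c2 J.drr hr
  have cm1 : ContinuousOn m1 (uIcc 0 ρ) := (contOn_thetaInt J.c1).mono habs
  have cm2 : ContinuousOn m2 (uIcc 0 ρ) := (contOn_thetaInt J.c2).mono habs
  have ce : ContinuousOn e (uIcc 0 ρ) := (contOn_thetaInt hE).mono habs
  have he0 : ∀ r, |r| < 1 → 0 ≤ e r := fun r hr =>
    intervalIntegral.integral_nonneg (by positivity) (fun θ _ => hE0 (r, θ) hr)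
  -- key pointwise bound
  have hkey : ∀ r, 0 < r → r < 1 → e r ≤ r * m2 r + m1 r := by
    intro r h0 h1
    have hr : |r| < 1 := by rw [abs_of_pos h0]; exact h1
    have htt : ∫ θ in (0:ℝ)..2 * π, J.qtt (r, θ) = 0 := by
      rw [intervalIntegral.integral_eq_sub_of_hasDerivAt (f := fun θ => J.qt (r, θ))
        (fun θ _ => J.dtt (r, θ) hr) ((cont_theta J.c4 hr).intervalIntegrable _ _)]
      simp [J.per1]
    have i2 := (cont_theta J.c2 hr).intervalIntegrable (μ := volume) 0 (2 * π)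
    have i1 := (cont_theta J.c1 hr).intervalIntegrable (μ := volume) 0 (2 * π)
    have i4 := (cont_theta J.c4 hr).intervalIntegrable (μ := volume) 0 (2 * π)
    have h3 : e r ≤ ∫ θ in (0:ℝ)..2 * π, (r ^ 2 * J.qrr (r, θ) + r * J.qr (r, θ) + J.qtt (r, θ)) :=
      intervalIntegral.integral_mono_on (by positivity)
        ((cont_theta hE hr).intervalIntegrable _ _)
        (((i2.const_mul _).add (i1.const_mul _)).add i4) (fun θ _ => hle (r, θ) hr h0)
    rw [intervalIntegral.integral_add ((i2.const_mul _).add (i1.const_mul _)) i4,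
      intervalIntegral.integral_add (i2.const_mul _) (i1.const_mul _),
      intervalIntegral.integral_const_mul, intervalIntegral.integral_const_mul, htt] at h3
    have h4 : e r ≤ r * (r * m2 r + m1 r) := by
      simp only [hm2, hm1]; nlinarith
    have h5 : 0 ≤ r * m2 r + m1 r := by
      have := he0 r hr
      by_contra hneg
      push Not at hneg
      nlinarith [mul_pos h0 (neg_pos.2 hneg)]
    nlinarith
  have hd2 : ∀ r, |r| < 1 → HasDerivAt (fun r => r * m1 r) (r * m2 r + m1 r) r := by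
    intro r hr
    have := (hasDerivAt_id' r).fun_mul (hdm1 r hr)
    rw [one_mul, add_comm] at this
    exact this
  have cn : ContinuousOn (fun r => r * m2 r + m1 r) (uIcc 0 ρ) :=
    (continuousOn_id.mul cm2).add cm1
  have hm1nn : ∀ r, 0 < r → r ≤ ρ → 0 ≤ m1 r := by
    intro r h0 h1
    have hsub : uIcc (0:ℝ) r ⊆ uIcc 0 ρ := by
      rw [uIcc_of_le h0.le, uIcc_of_le hρ0.le]; exact Icc_subset_Icc_right h1
    have h2 := intervalIntegral.integral_eq_sub_of_hasDerivAt (a := 0) (b := r)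
      (fun x hx => hd2 x (habs x (hsub hx))) ((cn.mono hsub).intervalIntegrable)
    have h3 : 0 ≤ ∫ x in (0:ℝ)..r, (x * m2 x + m1 x) := by
      apply intervalIntegral.integral_nonneg_of_ae_restrict h0.le
      have : ∀ᵐ x ∂(volume.restrict (Icc (0:ℝ) r)), x ∈ Ioo (0:ℝ) r := by
        rw [← Measure.restrict_congr_set Ioo_ae_eq_Icc]
        exact ae_restrict_mem measurableSet_Ioo
      filter_upwards [this] with x hx
      have hx1 : x < 1 := by linarith [hx.2]
      exact (he0 x (by rw [abs_of_pos hx.1]; exact hx1)).trans (hkey x hx.1 hx1)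
    rw [h2] at h3
    have h4 : 0 ≤ r * m1 r := by simpa using h3
    by_contra hneg
    push Not at hneg
    nlinarith [mul_pos h0 (neg_pos.2 hneg)]
  have cw : ContinuousOn (fun r : ℝ => ρ ^ 2 - r ^ 2) (uIcc 0 ρ) := by fun_prop
  have step1 : ∫ r in (0:ℝ)..ρ, (ρ ^ 2 - r ^ 2) * e r ≤
      ∫ r in (0:ℝ)..ρ, (ρ ^ 2 - r ^ 2) * (r * m2 r + m1 r) := by
    apply intervalIntegral.integral_mono_on_of_le_Ioo hρ0.le (cw.mul ce).intervalIntegrable
      (cw.mul cn).intervalIntegrable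
    intro r hr
    apply mul_le_mul_of_nonneg_left (hkey r hr.1 (by linarith [hr.2]))
    nlinarith [hr.1, hr.2]
  have step2 : ∫ r in (0:ℝ)..ρ, (ρ ^ 2 - r ^ 2) * (r * m2 r + m1 r) =
      ∫ r in (0:ℝ)..ρ, 2 * r ^ 2 * m1 r := by
    have := intervalIntegral.integral_mul_deriv_eq_deriv_mul (a := 0) (b := ρ)
      (u := fun r : ℝ => ρ ^ 2 - r ^ 2) (u' := fun r => - (2 * r)) (v := fun r => r * m1 r)
      (v' := fun r => r * m2 r + m1 r)
      (fun x _ => by simpa using (hasDerivAt_pow 2 x).const_sub (ρ ^ 2))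
      (fun x hx => hd2 x (habs x hx))
      ((by fun_prop : Continuous (fun r : ℝ => - (2 * r))).intervalIntegrable _ _)
      cn.intervalIntegrable
    rw [this]
    simp only [sub_self, zero_mul, mul_zero, zero_sub]
    rw [← intervalIntegral.integral_neg]
    congr 1
    ext r
    ring
  have step3 : ∫ r in (0:ℝ)..ρ, 2 * r ^ 2 * m1 r ≤ ∫ r in (0:ℝ)..ρ, 2 * ρ ^ 2 * m1 r := by
    apply intervalIntegral.integral_mono_on_of_le_Ioo hρ0.le
      (((by fun_prop : ContinuousOn (fun r : ℝ => 2 * r ^ 2) (uIcc 0 ρ))).mul cm1).intervalIntegrable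
      (continuousOn_const.mul cm1).intervalIntegrable
    intro r hr
    apply mul_le_mul_of_nonneg_right _ (hm1nn r hr.1 hr.2.le)
    nlinarith [hr.1, hr.2]
  have step4 : ∫ r in (0:ℝ)..ρ, 2 * ρ ^ 2 * m1 r = 2 * ρ ^ 2 * (m ρ - m 0) := by
    rw [intervalIntegral.integral_const_mul,
      intervalIntegral.integral_eq_sub_of_hasDerivAt (fun x hx => hdm x (habs x hx))
        cm1.intervalIntegrable]
  calc _ ≤ _ := step1
    _ = _ := step2
    _ ≤ _ := step3
    _ = _ := step4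

end PJet

end Pool.Agent.Lib.MP_397fae_an
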