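import Pool.Agent.Lib.MP_397fae_an.Variation

/-!
The duality argument on circles.
-/

open Set Real MeasureTheory Filter Topology Metric
open scoped ComplexConjugate

namespace Pool.Agent.Lib.MP_397fae_an

lemma four_parts (c : ℂ) :
    ((max (1 * c).re 0 + 1 : ℝ) : ℂ) - ((max (-1 * c).re 0 + 1 : ℝ) : ℂ)
      + Complex.I * ((max (-Complex.I * c).re 0 + 1 : ℝ) : ℂ)
      - Complex.I * ((max (Complex.I * c).re 0 + 1 : ℝ) : ℂ) = c := by
  apply Complex.ext
  · simp
  · simp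

theorem main_estimate {p s : ℝ} (hp : 1 < p) (hs : 1 < s) {F k : ℂ → ℂ}
    (hF : DifferentiableOn ℂ F (ball (0:ℂ) 1)) (hk : DifferentiableOn ℂ k (ball (0:ℂ) 1))
    (iF : IntegrableOn (fun z => ‖F z‖ ^ p) (ball (0:ℂ) 1)) (ik : IntegrableOn k (ball (0:ℂ) 1))
    (lam : ℝ)
    (hvar : ∀ (H : ℂ → ℂ) (M : ℝ), DifferentiableOn ℂ H (ball (0:ℂ) 1) →
      (∀ z ∈ ball (0:ℂ) 1, ‖H z‖ ≤ M) → ∫ z in ball (0:ℂ) 1, k z * conj (H z) =
        lam * ∫ z in ball (0:ℂ) 1, ((‖F z‖ ^ (p - 2) : ℝ) : ℂ) * F z * conj (H z))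
    {K : ℝ} (hK : ∀ r ∈ Ioo (0:ℝ) 1, ∫ θ in (0:ℝ)..2 * π, ‖F (pt (r, θ))‖ ^ ((p - 1) * s) ≤ K) :
    ∃ C : ℝ, ∀ r ∈ Ioo (0:ℝ) 1, ∫ θ in (0:ℝ)..2 * π, ‖k (pt (r, θ))‖ ^ s ≤ C := by
  set t := s / (s - 1) with hst
  have hs1 : 0 < s - 1 := by linarith
  have ht : 1 < t := by rw [hst, one_lt_div hs1]; linarith
  have h2π : (0:ℝ) < 2 * π := by positivity
  obtain ⟨C0, hC0, hpair⟩ := pairing_bound (a := p - 1) (by linarith) hs hst
  set D := 4 * (|lam| * C0) with hD
  have hD0 : 0 ≤ D := by positivity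
  set η : ℝ := (1 / (4 * (D * 2 ^ t + 1))) ^ (1 / (t - 1)) with hη
  have hη0 : 0 < η := by positivity
  have hηt : η ^ t = η * (1 / (4 * (D * 2 ^ t + 1))) := by
    have : η ^ (t - 1) = 1 / (4 * (D * 2 ^ t + 1)) := by
      rw [hη, ← Real.rpow_mul (by positivity), one_div_mul_cancel (by linarith), Real.rpow_one]
    rw [← this, Real.rpow_sub_one hη0.ne']
    field_simp
  -- small radii
  obtain ⟨B, hB⟩ := (isCompact_closedBall (0:ℂ) (1 / 2)).exists_bound_of_continuousOn
    (hk.continuousOn.mono (closedBall_subset_ball (by norm_num)))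
  refine ⟨max (2 * π * B ^ s) (4 * (D * (K + 1 + 2 ^ t * (2 * π))) / η), ?_⟩
  intro r hr
  have hrabs : |r| < 1 := by rw [abs_of_pos hr.1]; exact hr.2
  have ck : Continuous (fun θ : ℝ => k (pt (r, θ))) :=
    cont_theta (contOn_comp_pt hk.continuousOn) hrabs
  have cks : Continuous (fun θ : ℝ => ‖k (pt (r, θ))‖ ^ s) :=
    ck.norm.rpow_const (fun _ => Or.inr (by linarith))
  rcases le_total r (1 / 2) with hr2 | hr2
  · refine le_trans ?_ (le_max_left _ _)
    have : ∫ θ in (0:ℝ)..2 * π, ‖k (pt (r, θ))‖ ^ s ≤ ∫ θ in (0:ℝ)..2 * π, B ^ s := by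
      apply intervalIntegral.integral_mono_on h2π.le (cks.intervalIntegrable _ _)
        intervalIntegrable_const
      intro θ _
      apply Real.rpow_le_rpow (norm_nonneg _) _ (by linarith)
      apply hB
      rw [mem_closedBall_zero_iff, norm_pt, abs_of_pos hr.1]
      exact hr2
    simpa using this
  refine le_trans ?_ (le_max_right _ _)
  set M := ∫ θ in (0:ℝ)..2 * π, ‖k (pt (r, θ))‖ ^ s with hM
  have hM0 : 0 ≤ M := intervalIntegral.integral_nonneg h2π.le (fun θ _ => by positivity)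
  have e : ∀ θ, (r:ℂ) * pt (1, θ) = pt (r, θ) := by
    intro θ; simp only [pt_eq]; push_cast; ring
  set κ : ℂ → ℂ := fun ζ => ζ * k (r * ζ) with hκ
  have cκ : Continuous (fun θ : ℝ => κ (pt (1, θ))) := by
    simp only [hκ, e]
    exact (by fun_prop : Continuous (fun θ : ℝ => pt (1, θ))).mul ck
  have nκ : ∀ θ, ‖κ (pt (1, θ))‖ = ‖k (pt (r, θ))‖ := by
    intro θ
    simp only [hκ, e]
    rw [norm_mul, norm_pt]; simp
  set c : ℂ → ℂ := fun ζ => η * conj (((‖κ ζ‖ ^ (s - 2) : ℝ) : ℂ) * κ ζ) with hc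
  have cc : Continuous (fun θ : ℝ => c (pt (1, θ))) :=
    continuous_const.mul (Complex.continuous_conj.comp ((continuous_duality hs).comp cκ))
  have nc : ∀ θ, ‖c (pt (1, θ))‖ = η * ‖k (pt (r, θ))‖ ^ (s - 1) := by
    intro θ
    simp only [hc]
    rw [norm_mul, Complex.norm_conj, norm_duality hs, nκ, Complex.norm_real, Real.norm_eq_abs,
      abs_of_pos hη0]
  have cψ : ∀ u : ℂ, Continuous (fun θ : ℝ => max (u * c (pt (1, θ))).re 0 + 1) := fun u =>
    ((Complex.continuous_re.comp (continuous_const.mul cc)).max continuous_const).add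
      continuous_const
  have key : ∀ u : ℂ, ‖u‖ = 1 → r * ‖∫ θ in (0:ℝ)..2 * π,
      ((max (u * c (pt (1, θ))).re 0 + 1 : ℝ) : ℂ) * κ (pt (1, θ))‖ ≤
      |lam| * C0 * (K + 1 + 2 ^ t * (η ^ t * M + 2 * π)) := by
    intro u hu
    obtain ⟨g, M', g1, g2, g3, g4, g5, g6, g7⟩ := herglotz_exists
      (ψ := fun ζ => max (u * c ζ).re 0 + 1) (cψ u) (fun θ => by positivity) hr.1 hr.2 ht
    have h1 := g7 k hk ik
    rw [hvar (deriv g) M' (diffOn_deriv g1) g5] at h1
    have h2 := hpair F g K (2 ^ t * (η ^ t * M + 2 * π)) M' hF g1 g2 g3 g4 g5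
      (by simpa using iF) hK ?_
    · have h3 := congrArg norm h1
      rw [norm_mul, norm_mul, Complex.norm_real, Complex.norm_real, Real.norm_eq_abs,
        Real.norm_eq_abs, abs_of_pos hr.1] at h3
      rw [show p - 1 - 1 = p - 2 by ring] at h2
      simp only [hκ]
      rw [← h3, mul_assoc]
      exact mul_le_mul_of_nonneg_left h2 (abs_nonneg _)
    · intro ρ hρ
      refine (g6 ρ hρ).trans ?_
      have i1 := cks.intervalIntegrable (μ := volume) 0 (2 * π)
      have : ∫ θ in (0:ℝ)..2 * π, (max (u * c (pt (1, θ))).re 0 + 1) ^ t ≤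
          ∫ θ in (0:ℝ)..2 * π, 2 ^ t * (η ^ t * ‖k (pt (r, θ))‖ ^ s + 1) := by
        apply intervalIntegral.integral_mono_on h2π.le
          (((cψ u).rpow_const (fun _ => Or.inr (by linarith))).intervalIntegrable _ _)
          (((i1.const_mul _).add intervalIntegrable_const).const_mul _)
        intro θ _
        have f1 : max (u * c (pt (1, θ))).re 0 ≤ η * ‖k (pt (r, θ))‖ ^ (s - 1) := by
          apply max_le _ (by positivity)
          refine (Complex.re_le_norm _).trans ?_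
          rw [norm_mul, hu, one_mul, nc]
        have f2 := add_rpow_le (x := η * ‖k (pt (r, θ))‖ ^ (s - 1)) (y := 1) (p := t)
          (by positivity) zero_le_one (by linarith)
        rw [Real.one_rpow, Real.mul_rpow hη0.le (by positivity), ← Real.rpow_mul (norm_nonneg _),
          show (s - 1) * t = s by rw [hst]; field_simp] at f2
        refine le_trans (Real.rpow_le_rpow (by positivity) ?_ (by linarith)) f2
        linarith
      refine this.trans (le_of_eq ?_)
      rw [intervalIntegral.integral_const_mul, intervalIntegral.integral_add (i1.const_mul _)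
        intervalIntegrable_const, intervalIntegral.integral_const_mul]
      simp [hM]
  have j : ∀ u : ℂ, IntervalIntegrable (fun θ : ℝ =>
      ((max (u * c (pt (1, θ))).re 0 + 1 : ℝ) : ℂ) * κ (pt (1, θ))) volume 0 (2 * π) := fun u =>
    ((Complex.continuous_ofReal.comp (cψ u)).mul cκ).intervalIntegrable _ _
  have hsum : ((η * M : ℝ) : ℂ) =
      (∫ θ in (0:ℝ)..2 * π, ((max (1 * c (pt (1, θ))).re 0 + 1 : ℝ) : ℂ) * κ (pt (1, θ)))
      - (∫ θ in (0:ℝ)..2 * π, ((max (-1 * c (pt (1, θ))).re 0 + 1 : ℝ) : ℂ) * κ (pt (1, θ)))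
      + Complex.I * (∫ θ in (0:ℝ)..2 * π,
          ((max (-Complex.I * c (pt (1, θ))).re 0 + 1 : ℝ) : ℂ) * κ (pt (1, θ)))
      - Complex.I * (∫ θ in (0:ℝ)..2 * π,
          ((max (Complex.I * c (pt (1, θ))).re 0 + 1 : ℝ) : ℂ) * κ (pt (1, θ))) := by
    rw [← intervalIntegral.integral_const_mul Complex.I,
      ← intervalIntegral.integral_const_mul Complex.I,
      ← intervalIntegral.integral_sub (j _) (j _),
      ← intervalIntegral.integral_add ((j _).sub (j _)) ((j _).const_mul _),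
      ← intervalIntegral.integral_sub (((j _).sub (j _)).add ((j _).const_mul _))
        ((j _).const_mul _), hM, ← intervalIntegral.integral_const_mul η,
      ← intervalIntegral.integral_ofReal]
    congr 1
    ext θ
    have f1 := four_parts (c (pt (1, θ)))
    have f2 : c (pt (1, θ)) * κ (pt (1, θ)) = ((η * ‖k (pt (r, θ))‖ ^ s : ℝ) : ℂ) := by
      simp only [hc]
      rw [← nκ, map_mul, Complex.conj_ofReal, mul_assoc, mul_assoc, Complex.conj_mul']
      have : ‖κ (pt (1, θ))‖ ^ s = ‖κ (pt (1, θ))‖ ^ (s - 2) * ‖κ (pt (1, θ))‖ ^ 2 := by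
        rw [← Real.rpow_two, ← Real.rpow_add' (norm_nonneg _) (by linarith)]
        congr 1; ring
      rw [this]
      push_cast; ring
    rw [← f2]
    linear_combination (- κ (pt (1, θ))) * f1
  have hn := congrArg norm hsum
  rw [Complex.norm_real, Real.norm_eq_abs, abs_of_nonneg (by positivity)] at hn
  have k1 := key 1 (by simp)
  have k2 := key (-1) (by simp)
  have k3 := key (-Complex.I) (by simp)
  have k4 := key Complex.I (by simp)
  generalize (∫ θ in (0:ℝ)..2 * π,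
    ((max (1 * c (pt (1, θ))).re 0 + 1 : ℝ) : ℂ) * κ (pt (1, θ))) = I1 at *
  generalize (∫ θ in (0:ℝ)..2 * π,
    ((max (-1 * c (pt (1, θ))).re 0 + 1 : ℝ) : ℂ) * κ (pt (1, θ))) = I2 at *
  generalize (∫ θ in (0:ℝ)..2 * π,
    ((max (-Complex.I * c (pt (1, θ))).re 0 + 1 : ℝ) : ℂ) * κ (pt (1, θ))) = I3 at *
  generalize (∫ θ in (0:ℝ)..2 * π,
    ((max (Complex.I * c (pt (1, θ))).re 0 + 1 : ℝ) : ℂ) * κ (pt (1, θ))) = I4 at *
  have h5 : η * M ≤ ‖I1‖ + ‖I2‖ + ‖I3‖ + ‖I4‖ := by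
    rw [hn]
    have a1 := norm_sub_le (I1 - I2 + Complex.I * I3) (Complex.I * I4)
    have a2 := norm_add_le (I1 - I2) (Complex.I * I3)
    have a3 := norm_sub_le I1 I2
    rw [norm_mul, Complex.norm_I, one_mul] at a1 a2
    linarith
  have h6 : r * (η * M) ≤ D * (K + 1 + 2 ^ t * (η ^ t * M + 2 * π)) := by
    have := mul_le_mul_of_nonneg_left h5 hr.1.le
    rw [hD]; linarith
  have h7 : D * (2 ^ t * (η ^ t * M)) ≤ η * M / 4 := by
    rw [hηt]
    have f1 : D * 2 ^ t * (1 / (4 * (D * 2 ^ t + 1))) ≤ 1 / 4 := by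
      rw [mul_one_div, div_le_div_iff₀ (by positivity) (by norm_num)]
      linarith
    have := mul_le_mul_of_nonneg_right f1 (by positivity : 0 ≤ η * M)
    linarith
  have h8 := mul_le_mul_of_nonneg_right hr2 (by positivity : 0 ≤ η * M)
  rw [le_div_iff₀ hη0]
  linarith

end Pool.Agent.Lib.MP_397fae_an
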