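import Pool.Agent.Lib.MP_397fae_an.Bellman

/-!
Integration by parts on discs and the resulting bound for the regularised pairing.
-/

open Set Real MeasureTheory Filter Topology Metric
open scoped ComplexConjugate

namespace Pool.Agent.Lib.MP_397fae_an

open PJet hiding exp

lemma contOn_A {F : ℂ → ℂ} (hF : DifferentiableOn ℂ F (ball (0:ℂ) 1)) {ε : ℝ} (hε : 0 < ε)
    (b : ℝ) : ContinuousOn (fun x => (‖F (pt x)‖ ^ 2 + ε) ^ b) Strip := by
  have := contOn_comp_pt hF.continuousOn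
  apply ContinuousOn.rpow_const ((this.norm.pow 2).add continuousOn_const)
  intro x _
  left
  exact (by positivity : 0 < ‖F (pt x)‖ ^ 2 + ε).ne'

lemma contOn_re_rpow {g : ℂ → ℂ} (hg : DifferentiableOn ℂ g (ball (0:ℂ) 1))
    (hpos : ∀ z ∈ ball (0:ℂ) 1, 0 < (g z).re) (t : ℝ) :
    ContinuousOn (fun x => (g (pt x)).re ^ t) Strip := by
  have := contOn_comp_pt hg.continuousOn
  apply ContinuousOn.rpow_const (Complex.continuous_re.comp_continuousOn' this)
  intro x hx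
  left; exact (hpos _ (pt_mem hx)).ne'

lemma contOn_D {F : ℂ → ℂ} (hF : DifferentiableOn ℂ F (ball (0:ℂ) 1)) :
    ContinuousOn (fun x => pt x * deriv F (pt x)) Strip :=
  continuous_pt.continuousOn.mul (contOn_comp_pt (diffOn_deriv hF).continuousOn)

theorem bilinear {a s t : ℝ} (ha : 0 < a) (hs1 : 1 < s) (hst : t = s / (s - 1)) :
    ∃ C > 0, ∀ (F g : ℂ → ℂ) (ε ρ : ℝ), DifferentiableOn ℂ F (ball (0:ℂ) 1) →
      DifferentiableOn ℂ g (ball (0:ℂ) 1) → (∀ z ∈ ball (0:ℂ) 1, 0 < (g z).re) →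
      (g 0).im = 0 → 0 < ε → 0 < ρ → ρ < 1 →
      ∫ r in (0:ℝ)..ρ, (ρ ^ 2 - r ^ 2) * ∫ θ in (0:ℝ)..2 * π,
        (‖F (pt (r, θ))‖ ^ 2 + ε) ^ ((a - 1) / 2) * ‖pt (r, θ) * deriv F (pt (r, θ))‖
          * ‖pt (r, θ) * deriv g (pt (r, θ))‖ ≤
      C * ∫ θ in (0:ℝ)..2 * π,
        ((‖F (pt (ρ, θ))‖ ^ 2 + ε) ^ (a * s / 2) + (g (pt (ρ, θ))).re ^ t) := by
  obtain ⟨c, hc, C, hC, h⟩ := bellman ha hs1 hst
  refine ⟨2 * C / c, by positivity, ?_⟩
  intro F g ε ρ hF hg hpos hg0 hε hρ0 hρ1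
  obtain ⟨Q, h1, h2, h3⟩ := h F g ε hF hg hpos hg0 hε
  have hρ : |ρ| < 1 := by rw [abs_of_pos hρ0]; exact hρ1
  have hE : ContinuousOn (fun x => (‖F (pt x)‖ ^ 2 + ε) ^ ((a - 1) / 2) * ‖pt x * deriv F (pt x)‖
      * ‖pt x * deriv g (pt x)‖) Strip :=
    ((contOn_A hF hε _).mul (contOn_D hF).norm).mul (contOn_D hg).norm
  have hg1 := Q.green (fun x => c * ((‖F (pt x)‖ ^ 2 + ε) ^ ((a - 1) / 2) * ‖pt x * deriv F (pt x)‖
      * ‖pt x * deriv g (pt x)‖)) (continuousOn_const.mul hE) (fun x _ => by positivity)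
      (fun x hx _ => h1 x hx) hρ0 hρ1
  have hz : 0 ≤ ∫ θ in (0:ℝ)..2 * π, Q.q (0, θ) :=
    intervalIntegral.integral_nonneg (by positivity) (fun θ _ => h3 θ)
  have hR : ContinuousOn (fun x => (‖F (pt x)‖ ^ 2 + ε) ^ (a * s / 2) + (g (pt x)).re ^ t) Strip :=
    (contOn_A hF hε _).add (contOn_re_rpow hg hpos t)
  have hup : ∫ θ in (0:ℝ)..2 * π, Q.q (ρ, θ) ≤ C * ∫ θ in (0:ℝ)..2 * π,
        ((‖F (pt (ρ, θ))‖ ^ 2 + ε) ^ (a * s / 2) + (g (pt (ρ, θ))).re ^ t) := by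
    rw [← intervalIntegral.integral_const_mul]
    exact intervalIntegral.integral_mono_on (by positivity)
      ((cont_theta Q.c0 hρ).intervalIntegrable _ _)
      (((cont_theta hR hρ).intervalIntegrable _ _).const_mul _) (fun θ _ => h2 (ρ, θ) hρ)
  have hnn : 0 ≤ ∫ θ in (0:ℝ)..2 * π,
        ((‖F (pt (ρ, θ))‖ ^ 2 + ε) ^ (a * s / 2) + (g (pt (ρ, θ))).re ^ t) :=
    intervalIntegral.integral_nonneg (by positivity) (fun θ _ => by
      have := hpos _ (pt_mem (x := (ρ, θ)) hρ)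
      positivity)
  simp only [intervalIntegral.integral_const_mul] at hg1
  simp only [mul_left_comm _ c, intervalIntegral.integral_const_mul] at hg1
  rw [div_mul_eq_mul_div, le_div_iff₀ hc, mul_comm _ c]
  refine hg1.trans ?_
  have hρ2 : ρ ^ 2 ≤ 1 := by nlinarith
  have := mul_le_mul_of_nonneg_right hρ2 (mul_nonneg hC.le hnn)
  have h5 := mul_le_mul_of_nonneg_left hup (sq_nonneg ρ)
  have h6 := mul_nonneg (sq_nonneg ρ) hz
  nlinarith

lemma hasDerivAt_ofReal {f : ℝ → ℝ} {f' x : ℝ} (h : HasDerivAt f f' x) :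
    HasDerivAt (fun y => ((f y : ℝ) : ℂ)) (f' : ℂ) x := h.ofReal_comp

lemma hasDerivAt_conj {f : ℝ → ℂ} {f' : ℂ} {x : ℝ} (h : HasDerivAt f f' x) :
    HasDerivAt (fun y => conj (f y)) (conj f') x :=
  Complex.conjCLE.toContinuousLinearMap.hasFDerivAt.comp_hasDerivAt x h

theorem parts {F H : ℂ → ℂ} (hF : DifferentiableOn ℂ F (ball (0:ℂ) 1))
    (hH : DifferentiableOn ℂ H (ball (0:ℂ) 1)) {ε : ℝ} (hε : 0 < ε) (b : ℝ) {ρ : ℝ}
    (hρ0 : 0 < ρ) (hρ1 : ρ < 1) :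
    ρ ^ 2 * ‖∫ r in (0:ℝ)..ρ, (r : ℂ) * ∫ θ in (0:ℝ)..2 * π,
      (((‖F (pt (r, θ))‖ ^ 2 + ε) ^ b : ℝ) : ℂ) * F (pt (r, θ)) * conj (H (pt (r, θ)))‖ ≤
    ∫ r in (0:ℝ)..ρ, (ρ ^ 2 - r ^ 2) * (2 * r * (∫ θ in (0:ℝ)..2 * π,
      (‖F (pt (r, θ))‖ ^ 2 + ε) ^ b * ‖F (pt (r, θ))‖ * ‖H (pt (r, θ))‖) +
      (|b| + 1) * ∫ θ in (0:ℝ)..2 * π, (‖F (pt (r, θ))‖ ^ 2 + ε) ^ b *
        ‖pt (r, θ) * deriv F (pt (r, θ))‖ * ‖pt (r, θ) * H (pt (r, θ))‖) := by
  set W : PJet := ((LF hF hε).smul b).exp with hW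
  have hWq : ∀ x, W.q x = (‖F (pt x)‖ ^ 2 + ε) ^ b := by
    intro x
    rw [hW, q_exp, q_smul, LF_q, Real.rpow_def_of_pos (by positivity), mul_comm]
  set U : ℝ × ℝ → ℂ := fun x => (W.q x : ℂ) * F (pt x) * conj (H (pt x)) with hU
  set Ur : ℝ × ℝ → ℂ := fun x =>
    ((W.qr x : ℂ) * F (pt x) + (W.q x : ℂ) * (deriv F (pt x) * Complex.exp (x.2 * Complex.I)))
      * conj (H (pt x)) + (W.q x : ℂ) * F (pt x) *
        conj (deriv H (pt x) * Complex.exp (x.2 * Complex.I)) with hUr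
  set Ut : ℝ × ℝ → ℂ := fun x =>
    ((W.qt x : ℂ) * F (pt x) + (W.q x : ℂ) * (deriv F (pt x) * (pt x * Complex.I)))
      * conj (H (pt x)) + (W.q x : ℂ) * F (pt x) *
        conj (deriv H (pt x) * (pt x * Complex.I)) with hUt
  set D : ℝ × ℝ → ℂ := fun x =>
    ((W.q x * (b * (‖F (pt x)‖ ^ 2 / (‖F (pt x)‖ ^ 2 + ε)) + 1) : ℝ) : ℂ) *
      (pt x * deriv F (pt x)) * conj (H (pt x)) with hD
  have cF := contOn_comp_pt hF.continuousOn
  have cH := contOn_comp_pt hH.continuousOn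
  have cF' := contOn_comp_pt (diffOn_deriv hF).continuousOn
  have cH' := contOn_comp_pt (diffOn_deriv hH).continuousOn
  have cW := Complex.continuous_ofReal.comp_continuousOn' W.c0
  have cWr := Complex.continuous_ofReal.comp_continuousOn' W.c1
  have cWt := Complex.continuous_ofReal.comp_continuousOn' W.c3
  have cconj : ∀ {f : ℝ × ℝ → ℂ}, ContinuousOn f Strip → ContinuousOn (fun x => conj (f x)) Strip :=
    fun hf => Complex.continuous_conj.comp_continuousOn' hf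
  have cexp : ContinuousOn (fun x : ℝ × ℝ => Complex.exp (x.2 * Complex.I)) Strip := by fun_prop
  have cpI : ContinuousOn (fun x : ℝ × ℝ => pt x * Complex.I) Strip := by fun_prop
  have cU : ContinuousOn U Strip := (cW.mul cF).mul (cconj cH)
  have cUr : ContinuousOn Ur Strip :=
    (((cWr.mul cF).add (cW.mul (cF'.mul cexp))).mul (cconj cH)).add
      ((cW.mul cF).mul (cconj (cH'.mul cexp)))
  have cUt : ContinuousOn Ut Strip :=
    (((cWt.mul cF).add (cW.mul (cF'.mul cpI))).mul (cconj cH)).add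
      ((cW.mul cF).mul (cconj (cH'.mul cpI)))
  have dUr : ∀ x ∈ Strip, HasDerivAt (fun r => U (r, x.2)) (Ur x) x.1 := fun x hx =>
    ((hasDerivAt_ofReal (W.dr x hx)).fun_mul (hasDerivAt_comp_r hF hx)).fun_mul
      (hasDerivAt_conj (hasDerivAt_comp_r hH hx))
  have dUt : ∀ x ∈ Strip, HasDerivAt (fun θ => U (x.1, θ)) (Ut x) x.2 := fun x hx =>
    ((hasDerivAt_ofReal (W.dt x hx)).fun_mul (hasDerivAt_comp_t hF hx)).fun_mul
      (hasDerivAt_conj (hasDerivAt_comp_t hH hx))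
  have hid : ∀ x : ℝ × ℝ, (x.1 : ℂ) * Ur x - Complex.I * Ut x = 2 * D x := by
    intro x
    have hA : 0 < ‖F (pt x)‖ ^ 2 + ε := by positivity
    have e1 : x.1 * W.qr x = W.q x * (b * ((PJet.sq F hF ε).g1 x / (‖F (pt x)‖ ^ 2 + ε))) := by
      simp only [hW, PJet.exp, PJet.smul, LF, PJet.log, sq_q, g1]; ring
    have e2 : W.qt x = W.q x * (b * ((PJet.sq F hF ε).qt x / (‖F (pt x)‖ ^ 2 + ε))) := by
      simp only [hW, PJet.exp, PJet.smul, LF, PJet.log, sq_q]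
    have e3 : (((PJet.sq F hF ε).g1 x : ℝ) : ℂ) - Complex.I * ((PJet.sq F hF ε).qt x : ℝ) =
        2 * conj (F (pt x)) * (pt x * deriv F (pt x)) := by
      rw [sq_g1, sq_qt]
      generalize pt x * deriv F (pt x) = P
      apply Complex.ext <;> simp <;> ring
    have e4 : ((‖F (pt x)‖ ^ 2 : ℝ) : ℂ) = conj (F (pt x)) * F (pt x) := by
      rw [Complex.conj_mul']; push_cast; ring
    have e1' : (x.1 : ℂ) * (W.qr x : ℂ) = ((x.1 * W.qr x : ℝ) : ℂ) := by push_cast; ring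
    have e5 : conj (pt x) = (x.1 : ℂ) * conj (Complex.exp (x.2 * Complex.I)) := by
      rw [pt_eq, map_mul, Complex.conj_ofReal]
    have e6 : pt x = (x.1 : ℂ) * Complex.exp (x.2 * Complex.I) := pt_eq x
    simp only [hUr, hUt, hD, map_mul, Complex.conj_I, e5]
    have hA' : (((‖F (pt x)‖ ^ 2 + ε : ℝ)) : ℂ) ≠ 0 := Complex.ofReal_ne_zero.2 hA.ne'
    rw [e1] at e1'
    rw [e2]
    simp only [Complex.ofReal_mul, Complex.ofReal_div, Complex.ofReal_add (b * _),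
      Complex.ofReal_one] at e1' ⊢
    rw [e4]
    generalize (((‖F (pt x)‖ ^ 2 + ε : ℝ)) : ℂ) = A at *
    generalize deriv F (pt x) = F1 at *
    generalize conj (deriv H (pt x)) = H1 at *
    generalize conj (H (pt x)) = H0 at *
    generalize F (pt x) = F0 at *
    generalize (((PJet.sq F hF ε).g1 x : ℝ) : ℂ) = G1 at *
    generalize (((PJet.sq F hF ε).qt x : ℝ) : ℂ) = G2 at *
    generalize ((W.q x : ℝ) : ℂ) = W0 at *
    generalize ((W.qr x : ℝ) : ℂ) = W1 at *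
    generalize conj (Complex.exp (x.2 * Complex.I)) = Ec at *
    generalize Complex.exp (x.2 * Complex.I) = E at *
    generalize pt x = z at *
    linear_combination (F0 * H0) * e1' + (W0 * b / A * F0 * H0) * e3 - (W0 * F1 * H0) * e6
      + (- W0 * F1 * z * H0 + W0 * F0 * H1 * x.1 * Ec) * Complex.I_mul_I
  set n : ℝ → ℂ := fun r => ∫ θ in (0:ℝ)..2 * π, U (r, θ) with hn
  set n1 : ℝ → ℂ := fun r => ∫ θ in (0:ℝ)..2 * π, Ur (r, θ) with hn1
  have habs : ∀ r ∈ uIcc (0:ℝ) ρ, |r| < 1 := by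
    intro r hr
    rw [uIcc_of_le hρ0.le] at hr
    rw [abs_of_nonneg hr.1]; linarith [hr.2]
  have hdn : ∀ r, |r| < 1 → HasDerivAt n (n1 r) r := fun r hr =>
    hasDerivAt_thetaInt cU cUr dUr hr
  have cn : ContinuousOn n (uIcc 0 ρ) := (contOn_thetaInt cU).mono habs
  have cn1 : ContinuousOn n1 (uIcc 0 ρ) := (contOn_thetaInt cUr).mono habs
  have hrn1 : ∀ r : ℝ, |r| < 1 → (r : ℂ) * n1 r = 2 * ∫ θ in (0:ℝ)..2 * π, D (r, θ) := by
    intro r hr
    have htt : ∫ θ in (0:ℝ)..2 * π, Ut (r, θ) = 0 := by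
      rw [intervalIntegral.integral_eq_sub_of_hasDerivAt (f := fun θ => U (r, θ))
        (fun θ _ => dUt (r, θ) hr) ((cont_theta cUt hr).intervalIntegrable _ _)]
      simp only [hU, W.per0, pt_per, sub_self]
    have i1 := (cont_theta cUr hr).intervalIntegrable (μ := volume) 0 (2 * π)
    have i2 := (cont_theta cUt hr).intervalIntegrable (μ := volume) 0 (2 * π)
    rw [← intervalIntegral.integral_const_mul (2 : ℂ)]
    simp only [← hid]
    rw [intervalIntegral.integral_sub (i1.const_mul _) (i2.const_mul _),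
      intervalIntegral.integral_const_mul, intervalIntegral.integral_const_mul, htt]
    simp [hn1]
  have cr : ContinuousOn (fun r : ℝ => (r : ℂ)) (uIcc 0 ρ) := by fun_prop
  have hibp : (ρ : ℂ) ^ 2 * ∫ r in (0:ℝ)..ρ, (r : ℂ) * n r =
      ∫ r in (0:ℝ)..ρ, ((ρ : ℂ) ^ 2 - (r : ℂ) ^ 2) * (2 * r * n r + r * (r * n1 r) / 2) := by
    have hd : ∀ r ∈ uIcc (0:ℝ) ρ, HasDerivAt
        (fun r : ℝ => ((ρ : ℂ) ^ 2 - (r : ℂ) ^ 2) * (r : ℂ) ^ 2 / 2 * n r)
        (((ρ : ℂ) ^ 2 - (r : ℂ) ^ 2) * (2 * r * n r + r * (r * n1 r) / 2)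
          - (ρ : ℂ) ^ 2 * ((r : ℂ) * n r)) r := by
      intro r hr
      have h0 : HasDerivAt (fun r : ℝ => (r : ℂ)) 1 r := (hasDerivAt_id' r).ofReal_comp
      have h1 := ((((h0.fun_pow 2).const_sub ((ρ : ℂ) ^ 2)).fun_mul (h0.fun_pow 2)).div_const
        2).fun_mul (hdn r (habs r hr))
      refine h1.congr_deriv ?_
      push_cast; ring
    have c1 : ContinuousOn (fun r : ℝ =>
        ((ρ : ℂ) ^ 2 - (r : ℂ) ^ 2) * (2 * r * n r + r * (r * n1 r) / 2)) (uIcc 0 ρ) :=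
      (continuousOn_const.sub (cr.pow 2)).mul (((continuousOn_const.mul cr).mul cn).add
        ((cr.mul (cr.mul cn1)).div_const 2))
    have c2 : ContinuousOn (fun r : ℝ => (ρ : ℂ) ^ 2 * ((r : ℂ) * n r)) (uIcc 0 ρ) :=
      continuousOn_const.mul (cr.mul cn)
    have := intervalIntegral.integral_eq_sub_of_hasDerivAt hd (c1.sub c2).intervalIntegrable
    rw [intervalIntegral.integral_sub c1.intervalIntegrable c2.intervalIntegrable,
      intervalIntegral.integral_const_mul] at this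
    simp only [sub_self, zero_mul, Complex.ofReal_zero, zero_div] at this
    rw [eq_comm, ← sub_eq_zero, this]
    simp
  have hL : ρ ^ 2 * ‖∫ r in (0:ℝ)..ρ, (r : ℂ) * n r‖ =
      ‖(ρ : ℂ) ^ 2 * ∫ r in (0:ℝ)..ρ, (r : ℂ) * n r‖ := by
    rw [norm_mul, norm_pow, Complex.norm_real, Real.norm_eq_abs, sq_abs]
  simp only [← hWq]
  change ρ ^ 2 * ‖∫ r in (0:ℝ)..ρ, (r : ℂ) * n r‖ ≤ _
  rw [hL, hibp]
  have cN1 : ContinuousOn (fun x => W.q x * ‖F (pt x)‖ * ‖H (pt x)‖) Strip :=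
    (W.c0.mul cF.norm).mul cH.norm
  have cN2 : ContinuousOn (fun x => W.q x * ‖pt x * deriv F (pt x)‖ * ‖pt x * H (pt x)‖) Strip :=
    (W.c0.mul (contOn_D hF).norm).mul (continuous_pt.continuousOn.mul cH).norm
  apply intervalIntegral.norm_integral_le_of_norm_le hρ0.le
  · filter_upwards with r hr
    have hr1 : |r| < 1 := by rw [abs_of_pos hr.1]; linarith [hr.2]
    have hw : 0 ≤ ρ ^ 2 - r ^ 2 := by nlinarith [hr.1, hr.2]
    have hWpos : ∀ x, 0 < W.q x := fun x => by rw [hWq]; positivity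
    rw [hrn1 r hr1, norm_mul]
    have e : ((ρ : ℂ) ^ 2 - (r : ℂ) ^ 2) = ((ρ ^ 2 - r ^ 2 : ℝ) : ℂ) := by push_cast; ring
    rw [e, Complex.norm_real, Real.norm_eq_abs, abs_of_nonneg hw]
    apply mul_le_mul_of_nonneg_left _ hw
    refine (norm_add_le _ _).trans (add_le_add ?_ ?_)
    · rw [norm_mul, norm_mul, Complex.norm_real, Real.norm_eq_abs, abs_of_pos hr.1]
      simp only [Complex.norm_ofNat]
      apply mul_le_mul_of_nonneg_left _ (by linarith [hr.1])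
      apply intervalIntegral.norm_integral_le_of_norm_le (by positivity)
      · filter_upwards with θ _
        simp only [hU, norm_mul, Complex.norm_real, Real.norm_eq_abs, abs_of_pos (hWpos _),
          Complex.norm_conj, le_refl]
      · exact (cont_theta cN1 hr1).intervalIntegrable _ _
    · have e2 : (r : ℂ) * (2 * ∫ θ in (0:ℝ)..2 * π, D (r, θ)) / 2 =
          ∫ θ in (0:ℝ)..2 * π, (r : ℂ) * D (r, θ) := by
        rw [intervalIntegral.integral_const_mul]; ring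
      rw [e2, ← intervalIntegral.integral_const_mul]
      apply intervalIntegral.norm_integral_le_of_norm_le (by positivity)
      · filter_upwards with θ _
        have hA : 0 < ‖F (pt (r, θ))‖ ^ 2 + ε := by positivity
        have f1 : ‖F (pt (r, θ))‖ ^ 2 / (‖F (pt (r, θ))‖ ^ 2 + ε) ≤ 1 := by
          rw [div_le_one hA]; linarith
        have f2 : |b * (‖F (pt (r, θ))‖ ^ 2 / (‖F (pt (r, θ))‖ ^ 2 + ε)) + 1| ≤ |b| + 1 := by
          refine (abs_add_le _ _).trans ?_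
          rw [abs_mul, abs_one, abs_of_nonneg (by positivity :
            0 ≤ ‖F (pt (r, θ))‖ ^ 2 / (‖F (pt (r, θ))‖ ^ 2 + ε))]
          nlinarith [abs_nonneg b]
        simp only [hD]
        rw [norm_mul, norm_mul, norm_mul, Complex.norm_real, Complex.norm_real, Real.norm_eq_abs,
          Real.norm_eq_abs, abs_mul, abs_of_pos (hWpos _), Complex.norm_conj,
          norm_mul (pt (r, θ)) (H _), norm_pt]
        have f3 : 0 ≤ W.q (r, θ) * ‖pt (r, θ) * deriv F (pt (r, θ))‖ * (|r| * ‖H (pt (r, θ))‖) := by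
          have := hWpos (r, θ)
          positivity
        have := mul_le_mul_of_nonneg_right f2 f3
        simp only at this ⊢
        linarith
      · exact ((cont_theta cN2 hr1).intervalIntegrable _ _).const_mul _
  · apply ContinuousOn.intervalIntegrable
    apply ContinuousOn.mul (by fun_prop)
    exact ((by fun_prop : ContinuousOn (fun r : ℝ => 2 * r) (uIcc 0 ρ)).mul
      ((contOn_thetaInt cN1).mono habs)).add
      (continuousOn_const.mul ((contOn_thetaInt cN2).mono habs))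

end Pool.Agent.Lib.MP_397fae_an
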