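import Pool.Agent.Lib.MP_397fae_an.Herglotz

/-!
The variational characterisation of extremal functions.
-/

open Set Real MeasureTheory Filter Topology Metric
open scoped ComplexConjugate

namespace Pool.Agent.Lib.MP_397fae_an

lemma add_rpow_le {x y p : ℝ} (hx : 0 ≤ x) (hy : 0 ≤ y) (hp : 0 ≤ p) :
    (x + y) ^ p ≤ 2 ^ p * (x ^ p + y ^ p) := by
  have h1 : 0 ≤ x ^ p := by positivity
  have h2 : 0 ≤ y ^ p := by positivity
  have h3 : (0:ℝ) ≤ 2 ^ p := by positivity
  rcases le_total x y with h | h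
  · have : (x + y) ^ p ≤ (2 * y) ^ p := Real.rpow_le_rpow (by positivity) (by linarith) hp
    rw [Real.mul_rpow (by norm_num) hy] at this
    nlinarith
  · have : (x + y) ^ p ≤ (2 * x) ^ p := Real.rpow_le_rpow (by positivity) (by linarith) hp
    rw [Real.mul_rpow (by norm_num) hx] at this
    nlinarith

lemma continuous_duality {s : ℝ} (hs : 1 < s) :
    Continuous (fun w : ℂ => ((‖w‖ ^ (s - 2) : ℝ) : ℂ) * w) := by
  rw [continuous_iff_continuousAt]
  intro w
  by_cases hw : w = 0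
  · subst hw
    rw [ContinuousAt]
    simp only [mul_zero]
    apply squeeze_zero_norm (a := fun w : ℂ => ‖w‖ ^ (s - 1))
    · intro w
      rw [norm_mul, Complex.norm_real, Real.norm_eq_abs, abs_of_nonneg (by positivity),
        ← Real.rpow_add_one' (norm_nonneg w) (by linarith)]
      apply le_of_eq; congr 1; ring
    · have : ContinuousAt (fun w : ℂ => ‖w‖ ^ (s - 1)) 0 :=
        continuous_norm.continuousAt.rpow_const (Or.inr (by linarith))
      have h2 := this.tendsto
      rwa [norm_zero, Real.zero_rpow (by linarith)] at h2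
  · apply ContinuousAt.mul _ continuousAt_id
    apply Complex.continuous_ofReal.continuousAt.comp
    exact continuous_norm.continuousAt.rpow_const (Or.inl (norm_ne_zero_iff.2 hw))

lemma norm_duality {s : ℝ} (hs : 1 < s) (w : ℂ) :
    ‖((‖w‖ ^ (s - 2) : ℝ) : ℂ) * w‖ = ‖w‖ ^ (s - 1) := by
  rw [norm_mul, Complex.norm_real, Real.norm_eq_abs, abs_of_nonneg (by positivity),
    ← Real.rpow_add_one' (norm_nonneg w) (by linarith)]
  congr 1; ring

section
variable {μ : Measure ℂ} [IsFiniteMeasure μ] {p : ℝ} {F h : ℂ → ℂ} {B : ℝ}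

lemma integrable_add_rpow (hp : 0 ≤ p) (mF : AEStronglyMeasurable F μ)
    (mh : AEStronglyMeasurable h μ) (iF : Integrable (fun z => ‖F z‖ ^ p) μ)
    (hB : ∀ᵐ z ∂μ, ‖h z‖ ≤ B) (c : ℂ) : Integrable (fun z => ‖F z + c * h z‖ ^ p) μ := by
  apply Integrable.mono' (g := fun z => 2 ^ p * (‖F z‖ ^ p + (‖c‖ * B) ^ p))
    ((iF.add (integrable_const _)).const_mul _)
  · exact (continuous_id.rpow_const (fun _ => Or.inr hp)).comp_aestronglyMeasurable
      (mF.add (mh.const_mul c)).norm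
  · filter_upwards [hB] with z hz
    have hB0 : 0 ≤ B := (norm_nonneg _).trans hz
    rw [Real.norm_eq_abs, abs_of_nonneg (by positivity)]
    refine le_trans (Real.rpow_le_rpow (norm_nonneg _) ?_ hp)
      (add_rpow_le (norm_nonneg _) (by positivity) hp)
    refine (norm_add_le _ _).trans ?_
    rw [norm_mul]
    gcongr

lemma hasDerivAt_pnorm (hp : 1 < p) (mF : AEStronglyMeasurable F μ)
    (mh : AEStronglyMeasurable h μ) (iF : Integrable (fun z => ‖F z‖ ^ p) μ)
    (hB : ∀ᵐ z ∂μ, ‖h z‖ ≤ B) :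
    HasDerivAt (fun τ : ℝ => ∫ z, ‖F z + (τ : ℂ) * h z‖ ^ p ∂μ)
      (∫ z, p * (h z * conj (((‖F z‖ ^ (p - 2) : ℝ) : ℂ) * F z)).re ∂μ) 0 := by
  have key := hasDerivAt_integral_of_dominated_loc_of_deriv_le (μ := μ) (x₀ := (0:ℝ))
    (F := fun (τ : ℝ) z => ‖F z + (τ : ℂ) * h z‖ ^ p)
    (F' := fun (τ : ℝ) z => p * (h z * conj (((‖F z + (τ : ℂ) * h z‖ ^ (p - 2) : ℝ) : ℂ) *
      (F z + (τ : ℂ) * h z))).re)
    (bound := fun z => p * (B * (2 ^ p * (‖F z‖ ^ p + B ^ p) + 1)))
    (s := ball (0:ℝ) 1) (ball_mem_nhds _ one_pos) ?_ ?_ ?_ ?_ ?_ ?_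
  · simpa using key.2
  · exact Eventually.of_forall fun τ =>
      (integrable_add_rpow (by linarith) mF mh iF hB τ).aestronglyMeasurable
  · exact integrable_add_rpow (by linarith) mF mh iF hB _
  · apply AEStronglyMeasurable.const_mul
    apply Complex.continuous_re.comp_aestronglyMeasurable
    apply mh.mul
    apply Complex.continuous_conj.comp_aestronglyMeasurable
    exact (continuous_duality hp).comp_aestronglyMeasurable (mF.add (mh.const_mul _))
  · filter_upwards [hB] with z hz τ hτ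
    have hB0 : 0 ≤ B := (norm_nonneg _).trans hz
    have hτ1 : |τ| ≤ 1 := by
      have := mem_ball_zero_iff.1 hτ
      exact le_of_lt this
    rw [norm_mul, Real.norm_eq_abs, abs_of_pos (by linarith)]
    apply mul_le_mul_of_nonneg_left _ (by linarith)
    refine (Complex.abs_re_le_norm _).trans ?_
    rw [norm_mul, Complex.norm_conj, norm_duality hp]
    apply mul_le_mul hz _ (by positivity) hB0
    refine (rpow_le_one_add (norm_nonneg _) (by linarith) (by linarith : p - 1 ≤ p)).trans ?_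
    apply add_le_add _ le_rfl
    refine le_trans (Real.rpow_le_rpow (norm_nonneg _) ?_ (by linarith))
      (add_rpow_le (norm_nonneg _) hB0 (by linarith))
    refine (norm_add_le _ _).trans ?_
    rw [norm_mul, Complex.norm_real, Real.norm_eq_abs]
    have := mul_le_mul hτ1 hz (norm_nonneg _) zero_le_one
    linarith
  · exact ((((iF.add (integrable_const _)).const_mul _).add (integrable_const _)).const_mul
      _).const_mul _
  · filter_upwards with z τ _
    have h1 : HasDerivAt (fun τ : ℝ => F z + (τ : ℂ) * h z) (h z) τ := by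
      simpa using (((hasDerivAt_id' τ).ofReal_comp).mul_const (h z)).const_add (F z)
    have h2 := (hasFDerivAt_norm_rpow (F z + (τ : ℂ) * h z) hp).comp_hasDerivAt τ h1
    refine HasDerivAt.congr_deriv h2 ?_
    generalize F z + (τ : ℂ) * h z = w
    simp [Complex.inner]
    ring

theorem variation_re {k : ℂ → ℂ} (hp : 1 < p) (mF : AEStronglyMeasurable F μ)
    (mh : AEStronglyMeasurable h μ) (iF : Integrable (fun z => ‖F z‖ ^ p) μ)
    (hB : ∀ᵐ z ∂μ, ‖h z‖ ≤ B) (iFk : Integrable (fun z => F z * conj (k z)) μ)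
    (ihk : Integrable (fun z => h z * conj (k z)) μ) (hn : ∫ z, ‖F z‖ ^ p ∂μ = 1)
    (hext : ∀ τ : ℝ, 0 < ∫ z, ‖F z + (τ : ℂ) * h z‖ ^ p ∂μ →
      (∫ z, (F z + (τ : ℂ) * h z) * conj (k z) ∂μ).re ≤
        (∫ z, F z * conj (k z) ∂μ).re * (∫ z, ‖F z + (τ : ℂ) * h z‖ ^ p ∂μ) ^ (1 / p)) :
    (∫ z, h z * conj (k z) ∂μ).re = (∫ z, F z * conj (k z) ∂μ).re *
      ∫ z, (h z * conj (((‖F z‖ ^ (p - 2) : ℝ) : ℂ) * F z)).re ∂μ := by
  set lam := (∫ z, F z * conj (k z) ∂μ).re with hlam
  set N : ℝ → ℝ := fun τ => ∫ z, ‖F z + (τ : ℂ) * h z‖ ^ p ∂μ with hN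
  have hN0 : N 0 = 1 := by simp [hN, hn]
  have hd : HasDerivAt N _ 0 := hasDerivAt_pnorm hp mF mh iF hB
  rw [integral_const_mul] at hd
  have hd2 := ((hd.rpow_const (p := 1 / p) (Or.inl (by rw [hN0]; norm_num))).const_mul lam).sub
    (((hasDerivAt_id' (0:ℝ)).mul_const (∫ z, h z * conj (k z) ∂μ).re).const_add lam)
  have hmin : IsLocalMin (fun τ => lam * N τ ^ (1 / p) -
      (lam + τ * (∫ z, h z * conj (k z) ∂μ).re)) 0 := by
    have hev : ∀ᶠ τ in 𝓝 (0:ℝ), 0 < N τ :=
      hd.continuousAt.eventually (lt_mem_nhds (by rw [hN0]; norm_num))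
    filter_upwards [hev] with τ hτ
    have h1 := hext τ hτ
    have h2 : ∫ z, (F z + (τ : ℂ) * h z) * conj (k z) ∂μ =
        ∫ z, F z * conj (k z) ∂μ + τ * ∫ z, h z * conj (k z) ∂μ := by
      rw [← integral_const_mul, ← integral_add iFk (ihk.const_mul _)]
      congr 1; ext z; ring
    rw [h2, Complex.add_re, Complex.re_ofReal_mul] at h1
    simp only [hN0, Real.one_rpow, mul_one, zero_mul, add_zero, sub_self, sub_nonneg]
    exact h1
  have := hmin.hasDerivAt_eq_zero hd2
  rw [hN0, Real.one_rpow] at this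
  have hp0 : p ≠ 0 := by linarith
  field_simp at this
  linarith

end

end Pool.Agent.Lib.MP_397fae_an
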